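import Pool.Agent.H330.A14.Spec

/-!
# At most four 5-subsets of 14 points are fixed by a nontrivial even permutation
-/

set_option autoImplicit false

namespace Pool.Agent.H330.A14

open Equiv Finset

namespace BASE

/-- the members of `B` containing `a` -/
def v (B : Finset (Finset Om)) (a : Om) : Finset (Finset Om) := B.filter (fun b => a ∈ b)

theorem sum_v (B : Finset (Finset Om)) (hB : ∀ b ∈ B, b.card = 5) :
    ∑ a, (v B a).card = B.card * 5 := by
  unfold v
  simp_rw [card_filter]
  rw [sum_comm]
  rw [← smul_eq_mul, ← sum_const]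
  refine sum_congr rfl fun b hb => ?_
  rw [← hB b hb, ← card_filter]
  congr 1
  ext z
  simp

theorem card_image (B : Finset (Finset Om)) (hB : ∀ b ∈ B, b.card = 5) (h4 : B.card ≤ 4) :
    (univ.image (v B)).card ≤ 12 := by
  by_contra hcon
  push Not at hcon
  set W := univ.image (v B) with hW
  have hWB : W ⊆ B.powerset := by
    intro w hw
    obtain ⟨a, -, rfl⟩ := mem_image.1 hw
    rw [mem_powerset]
    exact filter_subset _ _
  have hcard : B.card = 4 := by
    have h1 := card_le_card hWB
    rw [card_powerset] at h1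
    by_contra hne
    have h2 : B.card ≤ 3 := by omega
    have h3 : 2 ^ B.card ≤ 2 ^ 3 := Nat.pow_le_pow_right (by norm_num) h2
    omega
  -- the sum over all subsets
  have hall : ∑ w ∈ B.powerset, w.card = 32 := by
    have h1 := Finset.sum_powerset_apply_card (fun n : ℕ => n) (x := B)
    rw [h1, hcard]
    decide
  have hle : ∑ w ∈ W, w.card ≤ 20 := by
    have h1 : ∑ w ∈ W, w.card ≤ ∑ a, (v B a).card := by
      have h2 : ∑ a, (v B a).card = ∑ w ∈ W, ∑ a with v B a = w, (v B a).card :=
        (sum_fiberwise_of_maps_to (fun a _ => mem_image_of_mem _ (mem_univ a)) _).symm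
      rw [h2]
      refine sum_le_sum fun w hw => ?_
      obtain ⟨a, -, ha⟩ := mem_image.1 hw
      have h3 : (v B a).card ≤ ∑ a with v B a = w, (v B a).card :=
        single_le_sum (f := fun a => (v B a).card) (fun _ _ => Nat.zero_le _)
          (mem_filter.2 ⟨mem_univ a, ha⟩)
      rw [ha] at h3
      exact h3
    rw [sum_v B hB, hcard] at h1
    exact h1
  have hsd := sum_sdiff (f := fun w : Finset (Finset Om) => w.card) hWB
  have hc : (B.powerset \ W).card ≤ 3 := by
    rw [card_sdiff_of_subset hWB, card_powerset, hcard]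
    omega
  have hco : ∑ w ∈ B.powerset \ W, w.card ≤ 10 := by
    have h1 : ∑ w ∈ B.powerset \ W, w.card ≤ ∑ w ∈ B.powerset \ W, (3 + if w = B then 1 else 0) := by
      refine sum_le_sum fun w hw => ?_
      have hwB : w ⊆ B := mem_powerset.1 (mem_sdiff.1 hw).1
      split_ifs with h
      · rw [h, hcard]
      · have := card_lt_card (hwB.ssubset_of_ne h)
        omega
    rw [sum_add_distrib, sum_const, sum_ite_eq'] at h1
    have h2 : (if B ∈ B.powerset \ W then 1 else 0) ≤ 1 := by split_ifs <;> norm_num
    rw [smul_eq_mul] at h1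
    omega
  rw [hall] at hsd
  omega

theorem swap_mem {B : Finset (Finset Om)} {x y : Om} (h : v B x = v B y) {b : Finset Om} (hb : b ∈ B)
    (z : Om) : swap x y z ∈ b ↔ z ∈ b := by
  have hxy : x ∈ b ↔ y ∈ b := by
    have h1 : b ∈ v B x ↔ b ∈ v B y := by rw [h]
    unfold v at h1
    rw [mem_filter, mem_filter] at h1
    tauto
  rw [swap_apply_def]
  split_ifs with h1 h2
  · rw [h1]; exact hxy.symm
  · rw [h2]; exact hxy
  · rfl

end BASE

open BASE

theorem h_BASE : S_BASE := by
  intro B hB h4
  classical
  -- representatives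
  let rep : Finset (Finset Om) → Om := fun w => if h : ∃ x, v B x = w then h.choose else 0
  have hrep : ∀ a, v B (rep (v B a)) = v B a := by
    intro a
    have h : ∃ x, v B x = v B a := ⟨a, rfl⟩
    simp only [rep, dif_pos h]
    exact h.choose_spec
  let f : Om → Om := fun a => rep (v B a)
  have hf : ∀ a, v B (f a) = v B a := hrep
  have hff : ∀ a, f (f a) = f a := by
    intro a
    show rep (v B (f a)) = rep (v B a)
    rw [hf]
  have himg : (univ.image f).card ≤ 12 := by
    have h1 : univ.image f = (univ.image (v B)).image rep := by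
      rw [image_image]
      rfl
    rw [h1]
    exact card_image_le.trans (card_image B hB h4)
  have hco : 1 < (univ \ univ.image f).card := by
    rw [card_sdiff_of_subset (subset_univ _)]
    have : (univ : Finset Om).card = 14 := by simp
    omega
  obtain ⟨a, ha, a', ha', hne⟩ := one_lt_card.1 hco
  have hna : ∀ x, f x ≠ a := by
    intro x hx
    exact (mem_sdiff.1 ha).2 (mem_image.2 ⟨x, mem_univ x, hx⟩)
  have hna' : ∀ x, f x ≠ a' := by
    intro x hx
    exact (mem_sdiff.1 ha').2 (mem_image.2 ⟨x, mem_univ x, hx⟩)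
  refine ⟨swap a (f a) * swap a' (f a'), ?_, ?_, ?_⟩
  · show _ ∈ alternatingGroup Om
    rw [Perm.mem_alternatingGroup, map_mul, Perm.sign_swap (hna a).symm, Perm.sign_swap (hna' a').symm]
    rfl
  · intro h
    have h1 := congrArg (fun g : Perm Om => g a') h
    simp only [Perm.mul_apply, swap_apply_left, Perm.one_apply] at h1
    by_cases h2 : f a = f a'
    · rw [← h2, swap_apply_right] at h1
      exact hne h1
    · rw [swap_apply_of_ne_of_ne (hna a') (Ne.symm h2)] at h1
      exact hna' a' h1
  · intro b hb
    have hz : ∀ z, (swap a (f a) * swap a' (f a')) z ∈ b ↔ z ∈ b := by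
      intro z
      rw [Perm.mul_apply, swap_mem (hf a).symm hb, swap_mem (hf a').symm hb]
    ext z
    rw [mem_map]
    constructor
    · rintro ⟨w, hw, rfl⟩
      exact (hz w).2 hw
    · intro hzb
      refine ⟨(swap a (f a) * swap a' (f a')).symm z, ?_, ?_⟩
      · rw [← hz, Equiv.apply_symm_apply]
        exact hzb
      · exact Equiv.apply_symm_apply _ _

end Pool.Agent.H330.A14
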