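import Pool.Agent.H330.A14.Spec

/-!
# BLOCK: invariant equivalence relations of a transitive group containing `s0`
-/

set_option autoImplicit false

namespace Pool.Agent.H330.A14

open Equiv

namespace BLOCK

lemma same_side : ∀ a b : Om, side a = side b → a ≠ b →
    ∃ k : Fin 7, b = (s0 ^ k.val) a ∧ ∀ c : Om, side c = side a →
      ∃ i : Fin 7, c = (s0 ^ (i.val * k.val)) a := by
  decide +kernel

lemma same_side' : ∀ a b : Om, side a = side b → ∃ k : Fin 7, b = (s0 ^ k.val) a := by
  decide +kernel

lemma side_pow : ∀ (a : Om) (k : Fin 7), side ((s0 ^ k.val) a) = side a := by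
  decide +kernel

lemma exists_tau : ∀ a b : Om, side a ≠ side b → ∃ j : Fin 7, b = tau j a := by
  decide +kernel

lemma tau_pow : ∀ (j : Fin 7) (a : Om) (k : Fin 7),
    tau j ((s0 ^ k.val) a) = (s0 ^ k.val) (tau j a) := by
  decide +kernel

lemma side_tau : ∀ (j : Fin 7) (a : Om), side (tau j a) ≠ side a := by
  decide +kernel

lemma tau_tau : ∀ (j : Fin 7) (a : Om), tau j (tau j a) = a := by
  decide +kernel

lemma inv_pow {E : Om → Om → Prop} (hs : ∀ a b, E a b → E (s0 a) (s0 b)) (n : ℕ) (a b : Om)
    (h : E a b) : E ((s0 ^ n) a) ((s0 ^ n) b) := by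
  induction n with
  | zero => simpa using h
  | succ n ih =>
    rw [pow_succ', Perm.mul_apply, Perm.mul_apply]
    exact hs _ _ ih

lemma iterate {E : Om → Om → Prop} (hr : ∀ a, E a a) (ht : ∀ a b c, E a b → E b c → E a c)
    (hs : ∀ a b, E a b → E (s0 a) (s0 b)) (k : ℕ) (a : Om) (h : E a ((s0 ^ k) a)) (i : ℕ) :
    E a ((s0 ^ (i * k)) a) := by
  induction i with
  | zero => simpa using hr a
  | succ i ih =>
    have h1 := inv_pow hs (i * k) _ _ h
    rw [← Perm.mul_apply, ← pow_add] at h1
    have h2 : (i + 1) * k = i * k + k := by ring
    rw [h2]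
    exact ht _ _ _ ih h1

end BLOCK

open BLOCK in
/-- BLOCK -/
theorem h_BLOCK : S_BLOCK := by
  intro H hs0 htr hP hT E hr hsym ht hinv ⟨a, b, hab, hE⟩
  have hs : ∀ a b, E a b → E (s0 a) (s0 b) := hinv s0 hs0
  -- a full side in one class
  have hfull : ∀ a b, side a = side b → a ≠ b → E a b → ∀ c, side c = side a → E a c := by
    intro a b h1 h2 h3 c hc
    obtain ⟨k, hk, hall⟩ := same_side a b h1 h2
    obtain ⟨i, hi⟩ := hall c hc
    rw [hi]
    rw [hk] at h3
    exact iterate hr ht hs k.val a h3 i.val
  by_cases hcase : ∃ a b, side a = side b ∧ a ≠ b ∧ E a b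
  · obtain ⟨a, b, h1, h2, h3⟩ := hcase
    have ha := hfull a b h1 h2 h3
    by_cases hcross : ∃ x y, side x = side a ∧ side y ≠ side a ∧ E x y
    · obtain ⟨x, y, hx, hy, hxy⟩ := hcross
      have hall : ∀ c, E a c := by
        intro c
        by_cases hc : side c = side a
        · exact ha c hc
        · have hyc : side y = side c := by
            revert hy hc
            cases side y <;> cases side a <;> cases side c <;> simp
          obtain ⟨k, hk⟩ := same_side' y c hyc
          have h4 := inv_pow hs k.val _ _ hxy
          rw [← hk] at h4
          exact ht _ _ _ (ha _ (by rw [side_pow, hx])) h4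
      intro u v
      exact ht _ _ _ (hsym _ _ (hall u)) (hall v)
    · exfalso
      -- the classes are the two sides
      have hno : ∀ x y, side x = side a → side y ≠ side a → ¬ E x y :=
        fun x y hx hy hxy => hcross ⟨x, y, hx, hy, hxy⟩
      obtain ⟨y, hy⟩ : ∃ y, side y ≠ side a := by
        cases h : side a
        · exact ⟨0, by decide⟩
        · exact ⟨7, by decide⟩
      obtain ⟨h, hh, hha⟩ := htr a y
      -- `h` maps the side of `a` to the other side
      have himg : ∀ c, side c = side a → E y (h c) := by
        intro c hc
        have := hinv h hh _ _ (ha c hc)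
        rwa [hha] at this
      have hbne : h b ≠ y := by
        intro hb
        exact h2 (h.injective (by rw [hha, hb]))
      have hbs : side (h b) = side y := by
        have hyb : E y (h b) := himg b h1.symm
        by_contra hcon
        have h5 : side (h b) = side a := by
          revert hcon hy
          cases side (h b) <;> cases side y <;> cases side a <;> simp
        exact hno (h b) y h5 hy (hsym _ _ hyb)
      have hy' := hfull y (h b) hbs.symm (Ne.symm hbne) (himg b h1.symm)
      have hiff : ∀ u v, E u v ↔ side u = side v := by
        intro u v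
        by_cases hu : side u = side a
        · by_cases hv : side v = side a
          · exact ⟨fun _ => by rw [hu, hv], fun _ => ht _ _ _ (hsym _ _ (ha u hu)) (ha v hv)⟩
          · exact ⟨fun h => absurd h (hno u v hu hv), fun h => absurd (h ▸ hu) hv⟩
        · by_cases hv : side v = side a
          · exact ⟨fun h => absurd (hsym _ _ h) (hno v u hv hu), fun h => absurd (h ▸ hv) hu⟩
          · have hu' : side u = side y := by
              revert hu hy
              cases side u <;> cases side y <;> cases side a <;> simp
            have hv' : side v = side y := by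
              revert hv hy
              cases side v <;> cases side y <;> cases side a <;> simp
            exact ⟨fun _ => by rw [hu', hv'], fun _ => ht _ _ _ (hsym _ _ (hy' u hu')) (hy' v hv')⟩
      apply hP
      intro g hg
      refine ⟨xor (side (g 0)) (side 0), fun c => ?_⟩
      by_cases hc : side c = side 0
      · have h6 : side (g c) = side (g 0) := (hiff _ _).1 (hinv g hg _ _ ((hiff _ _).2 hc))
        rw [h6, hc]
        cases side (g 0) <;> cases side 0 <;> rfl
      · have h6 : side (g c) ≠ side (g 0) := by
          intro h7
          have h8 := hinv g⁻¹ (H.inv_mem hg) _ _ ((hiff _ _).2 h7)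
          have e8 : ∀ x, g⁻¹ (g x) = x := fun x => g.symm_apply_apply x
          rw [e8, e8] at h8
          exact hc ((hiff _ _).1 h8)
        revert h6 hc
        cases side (g c) <;> cases side (g 0) <;> cases side c <;> cases side 0 <;> simp
  · exfalso
    have hno : ∀ x y, side x = side y → E x y → x = y := by
      intro x y h1 h2
      by_contra h3
      exact hcase ⟨x, y, h1, h3, h2⟩
    have hside : side a ≠ side b := fun h => hab (hno a b h hE)
    obtain ⟨j, hj⟩ := exists_tau a b hside
    -- all points are equivalent to their partners
    have hpart : ∀ c, E c (tau j c) := by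
      intro c
      by_cases hc : side a = side c
      · obtain ⟨k, hk⟩ := same_side' a c hc
        have h4 := inv_pow hs k.val _ _ hE
        rw [hj, ← tau_pow, ← hk] at h4
        exact h4
      · have hbc : side b = side c := by
          revert hside hc
          cases side a <;> cases side b <;> cases side c <;> simp
        obtain ⟨k, hk⟩ := same_side' b c hbc
        have h4 := inv_pow hs k.val _ _ (hsym _ _ hE)
        have h5 : a = tau j b := by rw [hj, tau_tau]
        rw [h5, ← tau_pow, ← hk] at h4
        exact h4
    apply hT j
    intro h hh c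
    have h6 := hinv h hh _ _ (hpart c)
    have hne : h c ≠ h (tau j c) := fun h7 => side_tau j c (by rw [← h.injective h7])
    have h8 : side (h c) ≠ side (h (tau j c)) := fun h9 => hne (hno _ _ h9 h6)
    have h9 : E (h (tau j c)) (tau j (h c)) := ht _ _ _ (hsym _ _ h6) (hpart (h c))
    refine hno _ _ ?_ h9
    have h10 := side_tau j (h c)
    revert h8 h10
    cases side (h c) <;> cases side (h (tau j c)) <;> cases side (tau j (h c)) <;> simp

end Pool.Agent.H330.A14
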