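import Pool.Agent.H330.A14.CHECK2a
import Pool.Agent.H330.A14.CHECK2b
import Pool.Agent.H330.A14.CHECK2c
import Pool.Agent.H330.A14.CHECK2d

/-!
# CHECK2: assembly
-/

set_option autoImplicit false

namespace Pool.Agent.H330.A14

open Equiv

namespace CHECK2

/-! ### Reduction to elements of prime order -/

/-- code of an affine map -/
noncomputable def EA (i b : ℕ) : ℕ := enc (fun z => Bool.rec
  (Nat.mod (Nat.add (Nat.mul (Nat.pow (nat_lit 4) i) z) b) (nat_lit 13)) (nat_lit 13)
  (Nat.beq z (nat_lit 13))) (nat_lit 14)

/-- code of `tt` -/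
def TTc : ℕ := 415240429979341

theorem rep_TT : Rep TTc tt := by decide +kernel

/-- code of the identity -/
def IDc : ℕ := 62129658859368976

theorem rep_ID : Rep IDc (1 : Perm Om) := by decide +kernel

noncomputable def ET (i b a : ℕ) : ℕ := cmp (EA (nat_lit 0) a) (cmp TTc (EA i b))

/-- powers -/
noncomputable def pwc (L : ℕ) (n : ℕ) : ℕ := Nat.rec IDc (fun _ r => fc (fun x => cmp x L) r) n

theorem rep_pwc {L : ℕ} {l : Perm Om} (hL : Rep L l) (n : ℕ) : Rep (pwc L n) (l ^ n : Perm Om) := by
  induction n with
  | zero => rw [pow_zero]; exact rep_ID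
  | succ n ih =>
    have h1 : pwc L (n + 1) = fc (fun x => cmp x L) (pwc L n) := rfl
    rw [h1, fc_eq, pow_succ]
    exact Rep_mul ih hL

/-- is the `e`-th power in the list? -/
noncomputable def tE (L e : ℕ) : Bool := fc (fun P => anyL (fun r => Nat.beq P r) reps) (pwc L e)

theorem tE_spec (L e : ℕ) (h : tE L e = true) : pwc L e ∈ reps := by
  unfold tE at h
  rw [fc_eq] at h
  obtain ⟨x, hx, hx'⟩ := anyL_spec _ _ h
  rw [Nat.eq_of_beq_eq_true hx']
  exact hx

def bs : List ℕ := [nat_lit 0, nat_lit 1, nat_lit 2, nat_lit 3, nat_lit 4, nat_lit 5, nat_lit 6,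
  nat_lit 7, nat_lit 8, nat_lit 9, nat_lit 10, nat_lit 11, nat_lit 12]

def is : List ℕ := [nat_lit 0, nat_lit 1, nat_lit 2, nat_lit 3, nat_lit 4, nat_lit 5]

noncomputable def chkA (Z : ℕ) : Bool :=
  allL (fun i => allL (fun b => Bool.rec
    (fc (fun L => tE L (ap Z (Nat.add (Nat.mul (nat_lit 13) i) b))) (EA i b)) true
    (Nat.beq (Nat.add i b) (nat_lit 0))) bs) is

noncomputable def chkT (i Z : ℕ) : Bool :=
  allL (fun b => allL (fun a =>
    fc (fun L => tE L (ap Z (Nat.add (Nat.mul (nat_lit 13) b) a))) (ET i b a)) bs) bs

theorem hA : chkA 1668739871813210878359548854807660045981690212056664016880099991604918446657056177262825215760 = true := by decide +kernel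

theorem hT0 : chkT (nat_lit 0) 242678431784324729750772220369140194671211733170091401115814173151033327538932647055437106161954695743104016422228777344389931056281550751574762332429462577257428074716938018524701502170244981739610116369 = true := by decide +kernel

theorem hT1 : chkT (nat_lit 1) 46650366806655766626874410563894662551205035909046051560681871199693586920953246835500553792261626695886556195780136408762110406563598339368199749181767934767571612948637257173525143411855621616793887329 = true := by decide +kernel

theorem hT2 : chkT (nat_lit 2) 46774523299050769574271685254205041217405522563246710369320964507368937749793141823184027411723554285538040315143384009724568455475088221524271660766763268655808781494909510070246062945094717067347759409 = true := by decide +kernel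

theorem hT3 : chkT (nat_lit 3) 22390962519404710373440644719472447747318121384884741353790390437872797941899079620663332503474704141243766975972075285207827675381319918727541270248498819563999180716862874978059845069875444525365875489 = true := by decide +kernel

theorem hT4 : chkT (nat_lit 4) 50391801572850392163529926048495915049511854568433633802606147792848001001687440320076404497268159886036346942880144789498692109029965427975671233268443077466739046285267426336848406028678236502623335489 = true := by decide +kernel

theorem hT5 : chkT (nat_lit 5) 62708097305437181314060167999332156683235349654836385244728263581618160515899961204201771323587635904687969589705947282385394758680424671658751344703468224012343739126706659660906544285953933746356568369 = true := by decide +kernel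

theorem mem_bs (b : Fin 13) : b.val ∈ bs := by revert b; decide

theorem mem_is (b : Fin 6) : b.val ∈ is := by revert b; decide

theorem rep_EA (i : Fin 6) (b : Fin 13) : Rep (EA i.val b.val) (aff i b) := by
  intro p
  have h1 : ap (EA i.val b.val) p.val = Bool.rec
      (Nat.mod (Nat.add (Nat.mul (Nat.pow (nat_lit 4) i.val) p.val) b.val) (nat_lit 13)) (nat_lit 13)
      (Nat.beq p.val (nat_lit 13)) := by
    refine ap_enc _ (fun q => ?_) 14 p.val p.isLt
    cases Nat.beq q (nat_lit 13) with
    | true => show 13 < 16; norm_num
    | false => exact lt_of_lt_of_le (Nat.mod_lt _ (by norm_num)) (by norm_num)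
  rw [h1]
  unfold aff
  by_cases hp : p.val = 13
  · rw [if_pos hp]
    have h2 : Nat.beq p.val (nat_lit 13) = true := by rw [hp]; rfl
    rw [h2]
    rfl
  · rw [if_neg hp]
    have h2 : Nat.beq p.val (nat_lit 13) = false := by
      cases h3 : Nat.beq p.val (nat_lit 13) with
      | false => rfl
      | true => exact absurd (Nat.eq_of_beq_eq_true h3) hp
    rw [h2]
    rfl

theorem red (l : Perm Om) (hl : InL0 l) (h1 : l ≠ 1) :
    ∃ e : ℕ, ∃ L ∈ reps, Rep L (l ^ e : Perm Om) := by
  rcases hl with ⟨i, b, h⟩ | ⟨i, b, a, h⟩
  · have hR : Rep (EA i.val b.val) l := by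
      intro p
      rw [h p]
      exact rep_EA i b p
    have h2 := allL_spec _ _ (allL_spec _ _ hA i.val (mem_is i)) b.val (mem_bs b)
    cases h0 : Nat.beq (Nat.add i.val b.val) (nat_lit 0) with
    | true =>
      exfalso
      have h3 : i.val + b.val = 0 := Nat.eq_of_beq_eq_true h0
      have hi : i = 0 := Fin.ext (by show i.val = 0; omega)
      have hb : b = 0 := Fin.ext (by show b.val = 0; omega)
      apply h1
      subst hi hb
      ext z
      rw [h z]
      revert z
      decide
    | false =>
      simp only [h0] at h2
      rw [fc_eq] at h2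
      exact ⟨_, _, tE_spec _ _ h2, rep_pwc hR _⟩
  · have hR : Rep (ET i.val b.val a.val) l := by
      intro p
      rw [h p]
      exact Rep_cmp (rep_EA 0 a) (Rep_cmp rep_TT (rep_EA i b)) p
    have h2 : ∃ Z, chkT i.val Z = true := by
      fin_cases i
      · exact ⟨_, hT0⟩
      · exact ⟨_, hT1⟩
      · exact ⟨_, hT2⟩
      · exact ⟨_, hT3⟩
      · exact ⟨_, hT4⟩
      · exact ⟨_, hT5⟩
    obtain ⟨Z, hZ⟩ := h2
    have h3 := allL_spec _ _ (allL_spec _ _ hZ b.val (mem_bs b)) a.val (mem_bs a)
    rw [fc_eq] at h3
    exact ⟨_, _, tE_spec _ _ h3, rep_pwc hR _⟩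

theorem PresP_pow (h : Perm Om) (hh : PresP h) (n : ℕ) : PresP (h ^ n) := by
  obtain ⟨e, he⟩ := hh
  induction n with
  | zero => exact ⟨false, fun a => by simp⟩
  | succ n ih =>
    obtain ⟨e', he'⟩ := ih
    refine ⟨xor e e', fun a => ?_⟩
    rw [pow_succ', Perm.mul_apply, he, he']
    cases side a <;> cases e <;> cases e' <;> rfl

theorem PresT_pow (j : Fin 7) (h : Perm Om) (hh : PresT j h) (n : ℕ) : PresT j (h ^ n) := by
  induction n with
  | zero => intro a; simp
  | succ n ih =>
    intro a
    rw [pow_succ', Perm.mul_apply, Perm.mul_apply, ih a, hh]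

theorem pieces (i : Fin 4) (u : Fin 3) (j : Fin 7) : Piece i u j := by
  fin_cases i
  · exact pieces_0 u j
  · exact pieces_1 u j
  · exact pieces_2 u j
  · exact pieces_3 u j

end CHECK2

open CHECK2 in
theorem h_CHECK2 : S_CHECK2 := by
  intro i u j l hl h1 x hx
  obtain ⟨e, L, hL, hR⟩ := red l hl h1
  obtain ⟨i', hP, hT, w, hw, hw'⟩ := pieces i u j L hL (l ^ e) hR
  have hxe : lab i * (nn u j * k1) * l ^ e * (lab i * (nn u j * k1))⁻¹ = x ^ e := by
    have h2 : x = (lab i * (nn u j * k1)) * l * (lab i * (nn u j * k1))⁻¹ := by
      rw [hx]; group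
    rw [h2, conj_pow]
  rw [hxe] at hP hT hw
  have hc : (lab i')⁻¹ * x ^ e * lab i' = ((lab i')⁻¹ * x * lab i') ^ e := by
    have h3 := conj_pow (i := e) (a := (lab i')⁻¹) (b := x)
    rw [inv_inv] at h3
    exact h3.symm
  rw [hc] at hP
  refine ⟨i', fun h => hP (PresP_pow _ h e), fun j' h => hT j' ?_, w, ?_, hw'⟩
  · rw [hc]
    exact PresT_pow j' _ h e
  · have h4 : Subgroup.closure {x ^ e, ss i'} ≤ Subgroup.closure {x, ss i'} := by
      rw [Subgroup.closure_le]
      intro y hy
      rcases hy with rfl | hy
      · exact pow_mem (Subgroup.subset_closure (by simp)) e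
      · rw [Set.mem_singleton_iff] at hy
        subst hy
        exact Subgroup.subset_closure (by simp)
    exact h4 hw

end Pool.Agent.H330.A14
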