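import Pool.Agent.H330.A14.Spec

/-!
# CHECK2: the checker and its soundness

Permutations of the 14 points are encoded by numbers, 4 bits per point.
-/

set_option autoImplicit false

namespace Pool.Agent.H330.A14.CHECK2

open Equiv

/-- the value at `p` of the permutation with the code `P` -/
def ap (P p : ℕ) : ℕ := Nat.mod (Nat.div P (Nat.pow (nat_lit 16) p)) (nat_lit 16)

/-- forces the evaluation of `n` -/
noncomputable def fc {α : Type} (k : ℕ → α) (n : ℕ) : α :=
  Nat.rec (k (nat_lit 0)) (fun m _ => k (Nat.succ m)) n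

theorem fc_eq {α : Type} (k : ℕ → α) (n : ℕ) : fc k n = k n := by cases n <;> rfl

/-- code of a function -/
noncomputable def enc (f : ℕ → ℕ) (n : ℕ) : ℕ :=
  Nat.rec (nat_lit 0) (fun m r => Nat.add r (Nat.mul (f m) (Nat.pow (nat_lit 16) m))) n

/-- composition -/
noncomputable def cmp (P Q : ℕ) : ℕ := enc (fun p => ap P (ap Q p)) (nat_lit 14)

def pts : List ℕ := [nat_lit 0, nat_lit 1, nat_lit 2, nat_lit 3, nat_lit 4, nat_lit 5, nat_lit 6,
  nat_lit 7, nat_lit 8, nat_lit 9, nat_lit 10, nat_lit 11, nat_lit 12, nat_lit 13]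

/-- the good lengths are 5, 8, 9, 10, 11 -/
def lens : List Bool := [false, false, false, false, true, false, false, true, true, true, true]

noncomputable def anyL {α : Type} (f : α → Bool) (l : List α) : Bool :=
  List.rec false (fun x _ ih => Bool.rec ih true (f x)) l

noncomputable def allL {α : Type} (f : α → Bool) (l : List α) : Bool :=
  List.rec true (fun x _ ih => Bool.rec false ih (f x)) l

theorem anyL_spec {α : Type} (f : α → Bool) (l : List α) (h : anyL f l = true) :
    ∃ x ∈ l, f x = true := by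
  induction l with
  | nil => exact absurd h (by simp [anyL])
  | cons x l ih =>
    have h1 : anyL f (x :: l) = Bool.rec (anyL f l) true (f x) := rfl
    rw [h1] at h
    cases hx : f x with
    | true => exact ⟨x, by simp, hx⟩
    | false =>
      rw [hx] at h
      obtain ⟨y, hy, hy'⟩ := ih h
      exact ⟨y, by simp [hy], hy'⟩

theorem allL_spec {α : Type} (f : α → Bool) (l : List α) (h : allL f l = true) :
    ∀ x ∈ l, f x = true := by
  induction l with
  | nil => simp
  | cons x l ih =>
    have h1 : allL f (x :: l) = Bool.rec false (allL f l) (f x) := rfl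
    rw [h1] at h
    cases hx : f x with
    | false =>
      rw [hx] at h
      exact absurd h (by simp)
    | true =>
      rw [hx] at h
      intro y hy
      rcases List.mem_cons.1 hy with rfl | hy
      · exact hx
      · exact ih h y hy

/-- Does the cycle of `p` have one of the given lengths? -/
noncomputable def loop (stp : ℕ → ℕ) (p : ℕ) (l : List Bool) : ℕ → Bool :=
  List.rec (fun _ => false) (fun g _ ih q => fc (fun r => Bool.rec (ih r) g (Nat.beq r p)) (stp q)) l

/-- side of a point (negated) after `D` -/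
def sd (D b : ℕ) : Bool := Nat.ble (nat_lit 7) (ap D b)

/-- partition and matchings are violated -/
noncomputable def stOK (L D : ℕ) (taus : List ℕ) : Bool :=
  Bool.rec false (allL (fun T => anyL (fun b => Bool.rec true false
      (Nat.beq (ap L (ap T b)) (ap T (ap L b)))) pts) taus)
    (anyL (fun b => xor (xor (sd D (ap L b)) (sd D b))
      (xor (sd D (ap L (nat_lit 0))) (sd D (nat_lit 0)))) pts)

noncomputable def getL (l : List ℕ) (d : ℕ) : ℕ → ℕ :=
  List.rec (fun _ => d) (fun x _ ih n => Nat.rec x (fun m _ => ih m) n) l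

theorem getL_spec (Q : ℕ → Prop) (l : List ℕ) (d : ℕ) (hd : Q d) (hl : ∀ x ∈ l, Q x) (n : ℕ) :
    Q (getL l d n) := by
  induction l generalizing n with
  | nil => exact hd
  | cons x l ih =>
    cases n with
    | zero => exact hl x (by simp)
    | succ m => exact ih (fun y hy => hl y (by simp [hy])) m

/-- starting point -/
def pz (z : ℕ) : ℕ := Nat.mod (Nat.div z (nat_lit 256)) (nat_lit 14)

/-- first exponent -/
def az (z : ℕ) : ℕ := Nat.mod (Nat.div z (nat_lit 4)) (nat_lit 8)

/-- second exponent -/
def bz (z : ℕ) : ℕ := Nat.mod (Nat.div z (nat_lit 32)) (nat_lit 8)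

/-- the word `l t^a` -/
noncomputable def w1 (ts : List ℕ) (T1 L z : ℕ) : Bool :=
  fc (fun T => loop (fun q => ap L (ap T q)) (pz z) lens (pz z)) (getL ts T1 (az z))

/-- the word `l t^a l t^b` -/
noncomputable def w2 (ts : List ℕ) (T1 L z b : ℕ) : Bool :=
  fc (fun T => fc (fun T' => loop (fun q => ap L (ap T (ap L (ap T' q)))) (pz z) lens (pz z))
    (getL ts T1 b)) (getL ts T1 (az z))

/-- Test of one element `L` with the certificate `z`. -/
noncomputable def tsI (D : ℕ) (ts taus : List ℕ) (T1 L z : ℕ) : Bool :=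
  Bool.rec false (Nat.rec (w1 ts T1 L z) (fun b _ => w2 ts T1 L z b) (bz z)) (stOK L D taus)

theorem tsI_spec (D : ℕ) (ts taus : List ℕ) (T1 L z : ℕ) (h : tsI D ts taus T1 L z = true) :
    stOK L D taus = true ∧ (w1 ts T1 L z = true ∨ ∃ b, w2 ts T1 L z b = true) := by
  unfold tsI at h
  cases hst : stOK L D taus with
  | false =>
    rw [hst] at h
    exact absurd h (by simp)
  | true =>
    rw [hst] at h
    refine ⟨rfl, ?_⟩
    cases hb : bz z with
    | zero =>
      rw [hb] at h
      exact Or.inl h
    | succ b =>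
      rw [hb] at h
      exact Or.inr ⟨b, h⟩

theorem stOK_spec (L D : ℕ) (taus : List ℕ) (h : stOK L D taus = true) :
    anyL (fun b => xor (xor (sd D (ap L b)) (sd D b))
      (xor (sd D (ap L (nat_lit 0))) (sd D (nat_lit 0)))) pts = true ∧
    allL (fun T => anyL (fun b => Bool.rec true false
      (Nat.beq (ap L (ap T b)) (ap T (ap L b)))) pts) taus = true := by
  unfold stOK at h
  cases hany : anyL (fun b => xor (xor (sd D (ap L b)) (sd D b))
      (xor (sd D (ap L (nat_lit 0))) (sd D (nat_lit 0)))) pts with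
  | false =>
    rw [hany] at h
    exact absurd h (by simp)
  | true =>
    rw [hany] at h
    exact ⟨rfl, h⟩

noncomputable def mainL (f : ℕ → ℕ → Bool) (l : List ℕ) : ℕ → Bool :=
  List.rec (fun _ => true)
    (fun L _ ih Z => Bool.rec false (fc ih (Nat.div Z 4096)) (fc (f L) (Nat.mod Z 4096))) l

theorem mainL_spec (f : ℕ → ℕ → Bool) (l : List ℕ) (Z : ℕ) (h : mainL f l Z = true) :
    ∀ L ∈ l, ∃ z, f L z = true := by
  induction l generalizing Z with
  | nil => simp
  | cons x l ih =>
    have h1 : mainL f (x :: l) Z =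
      Bool.rec false (fc (mainL f l) (Nat.div Z 4096)) (fc (f x) (Nat.mod Z 4096)) := rfl
    rw [h1, fc_eq, fc_eq] at h
    cases hx : f x (Nat.mod Z 4096) with
    | false =>
      rw [hx] at h
      exact absurd h (by simp)
    | true =>
      rw [hx] at h
      intro y hy
      rcases List.mem_cons.1 hy with rfl | hy
      · exact ⟨_, hx⟩
      · exact ih _ h y hy

/-- forces the evaluation of the members of a list -/
noncomputable def fcL (l : List ℕ) : (List ℕ → Bool) → Bool :=
  List.rec (fun k => k []) (fun x _ ih k => fc (fun y => ih (fun l' => k (y :: l'))) x) l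

theorem fcL_eq (l : List ℕ) (k : List ℕ → Bool) : fcL l k = k l := by
  induction l generalizing k with
  | nil => rfl
  | cons x l ih =>
    have h1 : fcL (x :: l) k = fc (fun y => fcL l (fun l' => k (y :: l'))) x := rfl
    rw [h1, fc_eq, ih]

/-! ### Codes represent maps -/

def Rep (P : ℕ) (f : Om → Om) : Prop := ∀ p : Om, ap P p.val = (f p).val

instance (P : ℕ) (f : Om → Om) : Decidable (Rep P f) := by unfold Rep; infer_instance

theorem ap_lt (P p : ℕ) : ap P p < 16 := Nat.mod_lt _ (by norm_num)

theorem enc_lt (f : ℕ → ℕ) (hf : ∀ q, f q < 16) (n : ℕ) : enc f n < 16 ^ n := by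
  induction n with
  | zero => simp [enc]
  | succ n ih =>
    have h1 : enc f (n + 1) = enc f n + f n * 16 ^ n := rfl
    rw [h1, pow_succ]
    have h2 := hf n
    have h3 : f n * 16 ^ n ≤ 15 * 16 ^ n := Nat.mul_le_mul_right _ (by omega)
    omega

theorem ap_enc (f : ℕ → ℕ) (hf : ∀ q, f q < 16) (n p : ℕ) (hp : p < n) : ap (enc f n) p = f p := by
  induction n with
  | zero => omega
  | succ n ih =>
    have h1 : enc f (n + 1) = enc f n + f n * 16 ^ n := rfl
    have h2 : ap (enc f (n + 1)) p = (enc f n + f n * 16 ^ n) / 16 ^ p % 16 := rfl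
    rw [h2]
    rcases Nat.lt_succ_iff_lt_or_eq.1 hp with h | rfl
    · have h3 := ih h
      have h4 : ap (enc f n) p = enc f n / 16 ^ p % 16 := rfl
      rw [h4] at h3
      obtain ⟨e, rfl⟩ : ∃ e, n = p + 1 + e := ⟨n - p - 1, by omega⟩
      have h5 : f (p + 1 + e) * 16 ^ (p + 1 + e) = 16 ^ p * (16 * (f (p + 1 + e) * 16 ^ e)) := by
        ring
      rw [h5, Nat.add_mul_div_left _ _ (by positivity), Nat.add_mul_mod_self_left, h3]
    · rw [Nat.add_mul_div_right _ _ (by positivity), Nat.div_eq_of_lt (enc_lt f hf p), Nat.zero_add,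
        Nat.mod_eq_of_lt (hf p)]

theorem Rep_cmp {P Q : ℕ} {f g : Om → Om} (hP : Rep P f) (hQ : Rep Q g) : Rep (cmp P Q) (f ∘ g) := by
  intro p
  have h : ap (cmp P Q) p.val = ap P (ap Q p.val) :=
    ap_enc _ (fun q => ap_lt _ _) 14 p.val p.isLt
  rw [h, hQ p, hP (g p)]
  rfl

theorem Rep_mul {P Q : ℕ} {f g : Perm Om} (hP : Rep P f) (hQ : Rep Q g) :
    Rep (cmp P Q) (f * g : Perm Om) := by
  have h : Rep (cmp P Q) (⇑f ∘ ⇑g) := Rep_cmp hP hQ
  exact h

theorem loop_spec (stp : ℕ → ℕ) (w : Perm Om) (hst : ∀ q : Om, stp q.val = (w q).val) (p : Om)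
    (gs : List Bool) : ∀ m : ℕ, (∀ k, 0 < k → k ≤ m → (w ^ k) p ≠ p) →
    loop stp p.val gs ((w ^ m) p).val = true →
    ∃ n, m < n ∧ gs[n - m - 1]? = some true ∧ (w ^ n) p = p ∧
      ∀ k, 0 < k → k < n → (w ^ k) p ≠ p := by
  induction gs with
  | nil =>
    intro m _ h
    exact absurd h (by simp [loop])
  | cons g gs ih =>
    intro m hm h
    have h1 : loop stp p.val (g :: gs) ((w ^ m) p).val =
      fc (fun r => Bool.rec (loop stp p.val gs r) g (Nat.beq r p.val)) (stp ((w ^ m) p).val) := rfl
    rw [h1, fc_eq, hst] at h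
    have h2 : w ((w ^ m) p) = (w ^ (m + 1)) p := by
      rw [pow_succ', Perm.mul_apply]
    rw [h2] at h
    cases hb : Nat.beq ((w ^ (m + 1)) p).val p.val with
    | true =>
      rw [hb] at h
      have h3 : (w ^ (m + 1)) p = p := Fin.ext (Nat.eq_of_beq_eq_true hb)
      refine ⟨m + 1, by omega, ?_, h3, fun k hk hk' => hm k hk (by omega)⟩
      have h4 : m + 1 - m - 1 = 0 := by omega
      rw [h4]
      simp only [List.getElem?_cons_zero]
      exact congrArg some h
    | false =>
      rw [hb] at h
      have h3 : (w ^ (m + 1)) p ≠ p := by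
        intro h4
        rw [h4] at hb
        have : Nat.beq p.val p.val = true := Nat.beq_refl _
        rw [this] at hb
        exact absurd hb (by simp)
      obtain ⟨n, hn1, hn2, hn3, hn4⟩ := ih (m + 1) (by
        intro k hk hk'
        rcases Nat.lt_or_ge m k with h5 | h5
        · have : k = m + 1 := by omega
          rw [this]; exact h3
        · exact hm k hk h5) h
      refine ⟨n, by omega, ?_, hn3, hn4⟩
      have h4 : n - m - 1 = (n - (m + 1) - 1) + 1 := by omega
      rw [h4, List.getElem?_cons_succ]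
      exact hn2

theorem lens_good (n : ℕ) (h0 : 0 < n) (h1 : n ≤ 11) (h : lens[n - 1]? = some true) :
    0 < 1092 % n := by
  interval_cases n <;> first
    | exact absurd h (by decide)
    | norm_num

theorem loop_lens (stp : ℕ → ℕ) (w : Perm Om) (hst : ∀ q : Om, stp q.val = (w q).val) (p : Om)
    (h : loop stp p.val lens p.val = true) : w ^ 1092 ≠ 1 := by
  obtain ⟨n, hn0, hn1, hn2, hn3⟩ := loop_spec stp w hst p lens 0 (by intro k h1 h2; omega) (by
    simpa using h)
  have hle : n ≤ 11 := by
    by_contra hcon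
    have : lens[n - 0 - 1]? = none := by
      rw [List.getElem?_eq_none]
      simp only [lens, List.length_cons, List.length_nil]
      omega
    rw [this] at hn1
    exact absurd hn1 (by simp)
  intro hw
  have h1 : 1092 = 1092 % n + n * (1092 / n) := (Nat.mod_add_div 1092 n).symm
  have h2 : (w ^ 1092) p = (w ^ (1092 % n)) p := by
    conv_lhs => rw [h1]
    rw [pow_add, Perm.mul_apply, pow_mul, Perm.pow_apply_eq_self_of_apply_eq_self hn2]
  rw [hw, Perm.one_apply] at h2
  have h3 : 1092 % n < n := Nat.mod_lt _ hn0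
  have h4 : 0 < 1092 % n := by
    rw [Nat.sub_zero] at hn1
    exact lens_good n hn0 hle hn1
  exact hn3 _ h4 h3 h2.symm

/-! ### Soundness of the test of one element -/

theorem sd_eq {D : ℕ} {d : Perm Om} (hD : Rep D d) (b : Om) : sd D b.val = !(side (d b)) := by
  unfold sd side
  rw [hD b]
  have h : Nat.ble 7 (d b).val = decide (7 ≤ (d b).val) := by
    rw [Bool.eq_iff_iff, Nat.ble_eq, decide_eq_true_eq]
  refine Eq.trans h ?_
  rw [← decide_not]
  simp only [not_lt]

theorem pts_Om (b : ℕ) (h : b ∈ pts) : ∃ q : Om, b = q.val := by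
  refine ⟨⟨b, ?_⟩, rfl⟩
  have h1 : ∀ b ∈ pts, b < 14 := by decide
  exact h1 b h

theorem stOK_P {L D : ℕ} {l d : Perm Om} (hL : Rep L l) (hD : Rep D d)
    (h : anyL (fun b => xor (xor (sd D (ap L b)) (sd D b))
      (xor (sd D (ap L (nat_lit 0))) (sd D (nat_lit 0)))) pts = true) :
    ¬ PresP (d * l * d⁻¹) := by
  obtain ⟨b, hb, hb'⟩ := anyL_spec _ _ h
  obtain ⟨q, rfl⟩ := pts_Om b hb
  rintro ⟨e, he⟩
  have key : ∀ q : Om, xor (sd D (ap L q.val)) (sd D q.val) = e := by
    intro q
    have h1 := he (d q)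
    have h2 : (d * l * d⁻¹) (d q) = d (l q) := by
      simp [Perm.mul_apply]
    rw [h2] at h1
    rw [hL q, sd_eq hD, sd_eq hD, h1]
    cases side (d q) <;> cases e <;> rfl
  have h0 := key q
  have h1 := key (0 : Om)
  have h2 : ((0 : Om) : ℕ) = nat_lit 0 := rfl
  rw [h2] at h1
  rw [h0, h1] at hb'
  cases e <;> exact absurd hb' (by decide)

theorem stOK_T {L T : ℕ} {l d : Perm Om} {j : Fin 7} (hL : Rep L l)
    (hT : Rep T (⇑(d⁻¹) ∘ (tau j ∘ ⇑d)))
    (h : anyL (fun b => Bool.rec true false (Nat.beq (ap L (ap T b)) (ap T (ap L b)))) pts = true) :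
    ¬ PresT j (d * l * d⁻¹) := by
  obtain ⟨b, hb, hb'⟩ := anyL_spec _ _ h
  obtain ⟨q, rfl⟩ := pts_Om b hb
  intro hp
  have h1 := hp (d q)
  have h2 : (d * l * d⁻¹) (d q) = d (l q) := by
    simp [Perm.mul_apply]
  rw [h2] at h1
  have h3 : (d * l * d⁻¹) (tau j (d q)) = d (l ((⇑(d⁻¹) ∘ (tau j ∘ ⇑d)) q)) := by
    simp [Perm.mul_apply]
  rw [h3] at h1
  have h4 : l ((⇑(d⁻¹) ∘ (tau j ∘ ⇑d)) q) = (⇑(d⁻¹) ∘ (tau j ∘ ⇑d)) (l q) := by
    show l ((⇑(d⁻¹) ∘ (tau j ∘ ⇑d)) q) = d⁻¹ (tau j (d (l q)))
    rw [← h1]
    simp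
  have h5 : ap L (ap T q.val) = ap T (ap L q.val) := by
    rw [hT q, hL, hL q, hT, h4]
  rw [h5] at hb'
  have h6 : Nat.beq (ap T (ap L q.val)) (ap T (ap L q.val)) = true := Nat.beq_refl _
  rw [h6] at hb'
  exact absurd hb' (by decide)

/-- code of `s0` -/
def S0c : ℕ := 35408300952863521

theorem rep_S0 : Rep S0c s0 := by decide +kernel

/-- codes of the matchings -/
def TAUc : List ℕ := [28502781892209031, 23698944087079576, 18895134577773481, 14091776046914746, 9295633061543371, 4614938797115356, 1781424067352701]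

def TAUj : Fin 7 → ℕ
  | 0 => 28502781892209031
  | 1 => 23698944087079576
  | 2 => 18895134577773481
  | 3 => 14091776046914746
  | 4 => 9295633061543371
  | 5 => 4614938797115356
  | 6 => 1781424067352701

theorem rep_TAU : ∀ j, Rep (TAUj j) (tau j) := by decide +kernel

/-- codes of the conjugated matchings -/
noncomputable def tausOf (D DI : ℕ) : List ℕ :=
  [cmp DI (cmp (TAUj 0) D),
    cmp DI (cmp (TAUj 1) D),
    cmp DI (cmp (TAUj 2) D),
    cmp DI (cmp (TAUj 3) D),
    cmp DI (cmp (TAUj 4) D),
    cmp DI (cmp (TAUj 5) D),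
    cmp DI (cmp (TAUj 6) D)]

/-- codes of the powers -/
noncomputable def tsOf (T : ℕ) : List ℕ :=
  [T, cmp T T, cmp (cmp T T) T, cmp (cmp (cmp T T) T) T, cmp (cmp (cmp (cmp T T) T) T) T,
    cmp (cmp (cmp (cmp (cmp T T) T) T) T) T]

theorem tsOf_spec {T : ℕ} {t : Perm Om} (hT : Rep T t) :
    ∀ x ∈ tsOf T, ∃ n : ℕ, Rep x (t ^ n : Perm Om) := by
  have h1 : Rep T (t ^ 1 : Perm Om) := by rw [pow_one]; exact hT
  have h2 : Rep (cmp T T) (t ^ 2 : Perm Om) := by rw [pow_succ, pow_one]; exact Rep_mul hT hT
  have h3 : Rep (cmp (cmp T T) T) (t ^ 3 : Perm Om) := by rw [pow_succ]; exact Rep_mul h2 hT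
  have h4 : Rep (cmp (cmp (cmp T T) T) T) (t ^ 4 : Perm Om) := by
    rw [pow_succ]; exact Rep_mul h3 hT
  have h5 : Rep (cmp (cmp (cmp (cmp T T) T) T) T) (t ^ 5 : Perm Om) := by
    rw [pow_succ]; exact Rep_mul h4 hT
  have h6 : Rep (cmp (cmp (cmp (cmp (cmp T T) T) T) T) T) (t ^ 6 : Perm Om) := by
    rw [pow_succ]; exact Rep_mul h5 hT
  intro x hx
  simp only [tsOf, List.mem_cons, List.not_mem_nil, or_false] at hx
  rcases hx with rfl | rfl | rfl | rfl | rfl | rfl
  exacts [⟨1, h1⟩, ⟨2, h2⟩, ⟨3, h3⟩, ⟨4, h4⟩, ⟨5, h5⟩, ⟨6, h6⟩]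

/-- the conclusion for the element `x` and the system `i'` -/
def Concl (i' : Fin 4) (x : Perm Om) : Prop :=
  (¬ PresP ((lab i')⁻¹ * x * lab i')) ∧ (∀ j', ¬ PresT j' ((lab i')⁻¹ * x * lab i')) ∧
    ∃ w ∈ Subgroup.closure {x, ss i'}, w ^ 1092 ≠ 1

theorem conj_closure (c l t x s w : Perm Om) (hx : x = c * l * c⁻¹) (hs : s = c * t * c⁻¹)
    (hw : w ∈ Subgroup.closure {l, t}) (hw2 : w ^ 1092 ≠ 1) :
    ∃ w' ∈ Subgroup.closure {x, s}, w' ^ 1092 ≠ 1 := by
  refine ⟨c * w * c⁻¹, ?_, ?_⟩
  · have h1 : Subgroup.closure {l, t} ≤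
        (Subgroup.closure {x, s}).comap (MulAut.conj c).toMonoidHom := by
      rw [Subgroup.closure_le]
      intro y hy
      rcases hy with rfl | hy
      · show c * y * c⁻¹ ∈ Subgroup.closure {x, s}
        rw [← hx]
        exact Subgroup.subset_closure (by simp)
      · rw [Set.mem_singleton_iff] at hy
        subst hy
        show c * y * c⁻¹ ∈ Subgroup.closure {x, s}
        rw [← hs]
        exact Subgroup.subset_closure (by simp)
    exact h1 hw
  · intro h
    apply hw2
    rw [conj_pow] at h
    have h2 : c⁻¹ * (c * w ^ 1092 * c⁻¹) * c = c⁻¹ * 1 * c := by rw [h]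
    simpa [mul_assoc] using h2

theorem tsI_sound0 (i' : Fin 4) (c l : Perm Om) {L D T1 z : ℕ} {ts taus : List ℕ} (hL : Rep L l)
    (hD : Rep D ((lab i')⁻¹ * c : Perm Om))
    (hts : ∀ n, ∃ m : ℕ, Rep (getL ts T1 n)
      ((((lab i')⁻¹ * c)⁻¹ * (s0 * ((lab i')⁻¹ * c))) ^ m : Perm Om))
    (htaus : ∀ j', ∃ T ∈ taus, Rep T (⇑(((lab i')⁻¹ * c)⁻¹) ∘ (tau j' ∘ ⇑((lab i')⁻¹ * c))))
    (h : tsI D ts taus T1 L z = true) : Concl i' (c * l * c⁻¹) := by
  obtain ⟨h1, h2⟩ := tsI_spec D ts taus T1 L z h
  obtain ⟨h3, h4⟩ := stOK_spec L D taus h1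
  have hx : (lab i')⁻¹ * (c * l * c⁻¹) * lab i' =
      ((lab i')⁻¹ * c) * l * ((lab i')⁻¹ * c)⁻¹ := by group
  have hs : ss i' = c * (((lab i')⁻¹ * c)⁻¹ * (s0 * ((lab i')⁻¹ * c))) * c⁻¹ := by
    rw [ss]; group
  generalize ((lab i')⁻¹ * c)⁻¹ * (s0 * ((lab i')⁻¹ * c)) = t at hts hs
  refine ⟨?_, ?_, ?_⟩
  · rw [hx]
    exact stOK_P hL hD h3
  · intro j'
    rw [hx]
    obtain ⟨T, hT, hT'⟩ := htaus j'
    exact stOK_T hL hT' (allL_spec _ _ h4 T hT)
  · have hlmem : l ∈ Subgroup.closure {l, t} := Subgroup.subset_closure (by simp)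
    have htmem : t ∈ Subgroup.closure {l, t} := Subgroup.subset_closure (by simp)
    have hp : pz z < 14 := Nat.mod_lt _ (by norm_num)
    rcases h2 with h2 | ⟨b, h2⟩
    · unfold w1 at h2
      rw [fc_eq] at h2
      obtain ⟨m, hm⟩ := hts (az z)
      have h5 := loop_lens _ (l * t ^ m) (fun q => by
        show ap L (ap _ q.val) = _
        rw [hm q, hL]
        rfl) ⟨_, hp⟩ h2
      exact conj_closure c l t _ _ (l * t ^ m) rfl hs (mul_mem hlmem (pow_mem htmem m)) h5
    · unfold w2 at h2
      rw [fc_eq, fc_eq] at h2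
      obtain ⟨m, hm⟩ := hts (az z)
      obtain ⟨m', hm'⟩ := hts b
      have h5 := loop_lens _ (l * t ^ m * (l * t ^ m')) (fun q => by
        show ap L (ap _ (ap L (ap _ q.val))) = _
        rw [hm' q, hL, hm, hL]
        rfl) ⟨_, hp⟩ h2
      exact conj_closure c l t _ _ (l * t ^ m * (l * t ^ m')) rfl hs
        (mul_mem (mul_mem hlmem (pow_mem htmem m)) (mul_mem hlmem (pow_mem htmem m'))) h5

theorem tausOf_mem (D DI : ℕ) (j' : Fin 7) : cmp DI (cmp (TAUj j') D) ∈ tausOf D DI := by
  have h : tausOf D DI = List.map (fun j => cmp DI (cmp (TAUj j) D)) [0, 1, 2, 3, 4, 5, 6] := rfl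
  rw [h]
  refine List.mem_map.2 ⟨j', ?_, rfl⟩
  fin_cases j' <;> simp

theorem tsI_sound (i' : Fin 4) (c l : Perm Om) {C CI A B L z : ℕ} (hC : Rep C c)
    (hCI : Rep CI (c⁻¹ : Perm Om)) (hA : Rep A (lab i')) (hB : Rep B ((lab i')⁻¹ : Perm Om))
    (hL : Rep L l)
    (h : tsI (cmp B C) (tsOf (cmp (cmp CI A) (cmp S0c (cmp B C))))
      (tausOf (cmp B C) (cmp CI A)) (cmp (cmp CI A) (cmp S0c (cmp B C))) L z = true) :
    Concl i' (c * l * c⁻¹) := by
  have hD : Rep (cmp B C) ((lab i')⁻¹ * c : Perm Om) := Rep_mul hB hC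
  have hDI : Rep (cmp CI A) (((lab i')⁻¹ * c)⁻¹ : Perm Om) := by
    have h1 : ((lab i')⁻¹ * c)⁻¹ = c⁻¹ * lab i' := by group
    rw [h1]
    exact Rep_mul hCI hA
  have hT := Rep_mul hDI (Rep_mul rep_S0 hD)
  refine tsI_sound0 i' c l hL hD ?_ ?_ h
  · intro n
    refine getL_spec (fun x => ∃ m : ℕ, Rep x
      ((((lab i')⁻¹ * c)⁻¹ * (s0 * ((lab i')⁻¹ * c))) ^ m : Perm Om)) _ _ ?_ (tsOf_spec hT) n
    refine ⟨1, ?_⟩
    rw [pow_one]
    exact hT
  · intro j'
    exact ⟨_, tausOf_mem _ _ j', Rep_cmp hDI (Rep_cmp (rep_TAU j') hD)⟩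

/-- the data of one system -/
noncomputable def pack (A B C CI : ℕ) (k : (ℕ → ℕ → Bool) → Bool) : Bool :=
  fc (fun D => fc (fun DI => fc (fun T => fcL (tsOf T) fun ts => fcL (tausOf D DI) fun taus =>
    k (tsI D ts taus T)) (cmp DI (cmp S0c D))) (cmp CI A)) (cmp B C)

theorem pack_eq (A B C CI : ℕ) (k : (ℕ → ℕ → Bool) → Bool) : pack A B C CI k =
    k (tsI (cmp B C) (tsOf (cmp (cmp CI A) (cmp S0c (cmp B C))))
      (tausOf (cmp B C) (cmp CI A)) (cmp (cmp CI A) (cmp S0c (cmp B C)))) := by
  unfold pack
  rw [fc_eq, fc_eq, fc_eq, fcL_eq, fcL_eq]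

/-- codes of the generators of the subgroups of prime order of `L0` -/
def reps : List ℕ := [nat_lit 58770724137288481, nat_lit 61489206470153776, nat_lit 61789446444459841, nat_lit 62089630585043026, nat_lit 58730695862962531, nat_lit 59030935838067316, nat_lit 59331172323564421, nat_lit 59402713880145046, nat_lit 59702953855299751, nat_lit 60003193612353976, nat_lit 60289139936350921, nat_lit 60589379911508746, nat_lit 60889619873035291, nat_lit 61188966494995756, nat_lit 58867051129318336, nat_lit 59167291104476161, nat_lit 59467531079630866, nat_lit 59767771054735651, nat_lit 60068011029041716, nat_lit 60368250990568261, nat_lit 60668490747622486, nat_lit 60968727233119591, nat_lit 61268911373702776, nat_lit 61568257995663241, nat_lit 61854204319660186, nat_lit 61925745876240811, nat_lit 58566811154160316, nat_lit 415240429979341, nat_lit 5219080032507661, nat_lit 10022916145375261, nat_lit 14825862394706221, nat_lit 24419192114027341, nat_lit 28994333297978461, nat_lit 33798172900503661, nat_lit 38602012489400701,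 nat_lit 48209691693552541, nat_lit 53013531077977261, nat_lit 54158195983267261, nat_lit 8207491849930096, nat_lit 12729856257644161, nat_lit 21773636321507491, nat_lit 26295997457664436, nat_lit 30804068432321221, nat_lit 35326433058138886, nat_lit 44371162308919336, nat_lit 48893526934683961, nat_lit 53415891546870346, nat_lit 57709557754110811, nat_lit 4735092891280471, nat_lit 14307584220956281, nat_lit 19093775802865546, nat_lit 23880023001245851, nat_lit 28665377064532396, nat_lit 38237871897447361, nat_lit 43024119313931266, nat_lit 47810366730412051, nat_lit 52596614146044196, nat_lit 11291132883388246, nat_lit 16093872756185191, nat_lit 20896609357425016, nat_lit 25699349434694281, nat_lit 31645599084682411, nat_lit 36448339175579836, nat_lit 41251079266480576, nat_lit 46053819357381121, nat_lit 6035024083796836, nat_lit 10838794966795381, nat_lit 15642565836215686, nat_lit 20446336501163671, nat_lit 30053874776754361, nat_lit 34628947241228746, nat_lit 39432718124280331, nat_lit 40577314310093596, nat_lit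 5725213562739766, nat_lit 10529048870297671, nat_lit 15332884177006936, nat_lit 24940554778444666, nat_lit 29744389867902091, nat_lit 34533931524302236, nat_lit 39337766831863456, nat_lit 6268800358595011, nat_lit 11072639692687876, nat_lit 20680318359968806, nat_lit 25484157694058551, nat_lit 30287997014520136, nat_lit 35090942995415641, nat_lit 5458349603203996, nat_lit 15066028774703281, nat_lit 19869868360401346, nat_lit 24673707946152451, nat_lit 29477547531051796, nat_lit 9085636125629386, nat_lit 13889475727109131, nat_lit 18693315328585756, nat_lit 23497154930065696, nat_lit 7251710142392491, nat_lit 11826851326278076, nat_lit 16630690928741056, nat_lit 21434530531203841, nat_lit 7771581278376586, nat_lit 12561127229739931, nat_lit 13705792135025836, nat_lit 7522598247664936, nat_lit 12325544496995641, nat_lit 6944086854824146, nat_lit 2916533641943101, nat_lit 18457530336828541, nat_lit 23261369939353741, nat_lit 28065209323778461, nat_lit 32869045436646061, nat_lit 37444186620597181, nat_lit 42248026222273741,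 nat_lit 16987048585384066, nat_lit 32528045280253126, nat_lit 37331884882777351, nat_lit 42135720995640856, nat_lit 46939560597313321, nat_lit 51514701781260346, nat_lit 56318541165680971, nat_lit 6972180629162551, nat_lit 11547321796336456, nat_lit 27103449593893516, nat_lit 46304510795224771, nat_lit 51108350380975876, nat_lit 55911296613529621, nat_lit 5230219520866501, nat_lit 10033990403918086, nat_lit 19641476321815336, nat_lit 24216548786289721, nat_lit 43431628828779376, nat_lit 21701268945929671, nat_lit 26223633571747336, nat_lit 35268362591647786, nat_lit 39776433566304571, nat_lit 57865888579858546, nat_lit 9487174839459271, nat_lit 33276725244898636, nat_lit 38080564847426896, nat_lit 47688243834326386, nat_lit 52477789785693571, nat_lit 6628210776957091, nat_lit 25829272041202711, nat_lit 45959703361431916, nat_lit 50763542962911856, nat_lit 5956388254267276, nat_lit 20367890686438066, nat_lit 39568938047414566, nat_lit 20215152748734556, nat_lit 34573894983703426, nat_lit 50058816381096646, nat_lit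 6203683181335771, nat_lit 35012367602952916, nat_lit 45764711699665111, nat_lit 19891438208489776, nat_lit 48471427687215766, nat_lit 33135066373044481, nat_lit 46458156964071451, nat_lit 2730944308027981, nat_lit 12109031741310061, nat_lit 16912871343785341, nat_lit 46866220657114141, nat_lit 51670060259639341, nat_lit 6920818820754496, nat_lit 11724658423214161, nat_lit 21332334138425971, nat_lit 27052140227536021, nat_lit 31855086476801446, nat_lit 24250403587932331, nat_lit 29054238895440316, nat_lit 38661909510562561, nat_lit 48268686758855971, nat_lit 53058228415256116, nat_lit 8352167507733301, nat_lit 12860238482390086, nat_lit 44288088722286256, nat_lit 48809559994906561, nat_lit 57854289246488851, nat_lit 4654675826956996, nat_lit 14262354813901846, nat_lit 23855740367786296, nat_lit 28430881551733321, nat_lit 25722498221362186, nat_lit 31671002192306476, nat_lit 41278625025917761, nat_lit 46082464359158866, nat_lit 6151510003446451, nat_lit 40767127401081451, nat_lit 50339566399474816, nat_lit 10442781399215536,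 nat_lit 24853406839971091, nat_lit 30336868744992001, nat_lit 40860510896769076, nat_lit 48446028663563191, nat_lit 7952258233480666, nat_lit 22706437575751756, nat_lit 42415677470097706, nat_lit 3487879247075101, nat_lit 23847902329838701, nat_lit 38030666884268701, nat_lit 6566712027284176, nat_lit 30585906317625301, nat_lit 41108658656197336, nat_lit 10791984402349336, nat_lit 34811178692742496, nat_lit 45320530733350291, nat_lit 15345999965115031, nat_lit 39136443492849436, nat_lit 49874493952023106, nat_lit 20656254558747271, nat_lit 41015384302518796, nat_lit 55198204677698866, nat_lit 24541244601710986, nat_lit 48560439119393026, nat_lit 28168527934171576, nat_lit 52187725862019376, nat_lit 32161921294380181, nat_lit 56181062129361946, nat_lit 37509415888947811, nat_lit 42004471466800966, nat_lit 46370335509742966, nat_lit 53157272943683701, nat_lit 57901597680179296, nat_lit 986586035111341, nat_lit 20201888609745181, nat_lit 43991491142844781, nat_lit 6400571351790496, nat_lit 30185517538658341, nat_lit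 45736409633668201, nat_lit 15132032379417001, nat_lit 34118691283580176, nat_lit 49673980351359316, nat_lit 18782270900763736, nat_lit 37754637022770076, nat_lit 7078417281346516, nat_lit 22633707627389656, nat_lit 12619796652247831, nat_lit 52021658194806691, nat_lit 37278244673446426, nat_lit 56493582399546961, nat_lit 26096997116675731, nat_lit 41424478917118471, nat_lit 9957831396019546, nat_lit 29172296234778001, nat_lit 17287926712222336, nat_lit 57745266854431561, nat_lit 42809331850621621, nat_lit 30542625871329856, nat_lit 15510354234758836, nat_lit 1172175369026461, nat_lit 10779854573228221, nat_lit 50112184672983421, nat_lit 34432149713109526, nat_lit 44039635644585016, nat_lit 49987999223789146, nat_lit 15967271551193161, nat_lit 25346252117471851, nat_lit 34939637669270656, nat_lit 5544246983838421, nat_lit 14923227770264791, nat_lit 54483362948229331, nat_lit 37803178352194171, nat_lit 47407765180798096, nat_lit 57013189309920946, nat_lit 21589400664544681, nat_lit 27309206720231371, nat_lit 36916885891733776,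 nat_lit 12446998050422116, nat_lit 18395502558186886, nat_lit 51740855831517721, nat_lit 31923580767076546, nat_lit 14804624059717456, nat_lit 57756866187801256, nat_lit 38199567079510066, nat_lit 21001442803156501]

/-- the check for one group -/
noncomputable def chk (C CI A1 B1 A2 B2 A3 B3 Z : ℕ) : Bool :=
  pack A1 B1 C CI fun f1 => pack A2 B2 C CI fun f2 => pack A3 B3 C CI fun f3 =>
    mainL (fun L z => Nat.rec (f1 L z) (fun m _ => Nat.rec (f2 L z) (fun _ _ => f3 L z) m)
      (Nat.mod z 4)) reps Z

/-- codes of the labellings -/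
def LABc : Fin 4 → ℕ
  | 0 => 25639776226952296
  | 1 => 27534681398326456
  | 2 => 47147686123389796
  | 3 => 390688168004506

/-- codes of the inverse labellings -/
def LABi : Fin 4 → ℕ
  | 0 => 37091409002665396
  | 1 => 50974941448911556
  | 2 => 18979339170228346
  | 3 => 27901294502520781

theorem rep_LAB : ∀ i, Rep (LABc i) (lab i) := by decide +kernel

theorem rep_LABi : ∀ i, Rep (LABi i) ((lab i)⁻¹ : Perm Om) := by decide +kernel

/-- the statement for one group -/
def Piece (i : Fin 4) (u : Fin 3) (j : Fin 7) : Prop :=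
  ∀ L ∈ reps, ∀ l : Perm Om, Rep L l →
    ∃ i', Concl i' (lab i * (nn u j * k1) * l * (lab i * (nn u j * k1))⁻¹)

theorem sound (i : Fin 4) (u : Fin 3) (j : Fin 7) (i1 i2 i3 : Fin 4) (C CI Z : ℕ)
    (hC : Rep C (lab i * (nn u j * k1) : Perm Om))
    (hCI : Rep CI ((lab i * (nn u j * k1))⁻¹ : Perm Om))
    (h : chk C CI (LABc i1) (LABi i1) (LABc i2) (LABi i2) (LABc i3) (LABi i3) Z = true) :
    Piece i u j := by
  intro L hL l hl
  unfold chk at h
  rw [pack_eq, pack_eq, pack_eq] at h
  obtain ⟨z, hz⟩ := mainL_spec _ _ _ h L hL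
  rcases hm : Nat.mod z 4 with _ | m
  · rw [hm] at hz
    exact ⟨i1, tsI_sound i1 _ l hC hCI (rep_LAB i1) (rep_LABi i1) hl hz⟩
  · rw [hm] at hz
    rcases m with _ | m
    · exact ⟨i2, tsI_sound i2 _ l hC hCI (rep_LAB i2) (rep_LABi i2) hl hz⟩
    · exact ⟨i3, tsI_sound i3 _ l hC hCI (rep_LAB i3) (rep_LABi i3) hl hz⟩

end Pool.Agent.H330.A14.CHECK2
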