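import Pool.Agent.H330.A14.Spec

/-! # CONJ: the 21 conjugates of `PSL_2(13)` containing `s0` -/

set_option autoImplicit false

namespace Pool.Agent.H330.A14

open Equiv

namespace CONJ

/-! ### the finite checks -/

/-- powers of `s0` -/
def sp (n : ℕ) (x : Om) : Om :=
  if x.val < 7 then ⟨(x.val + n) % 7, by omega⟩ else ⟨7 + (x.val - 7 + n) % 7, by omega⟩

/-- inverse of `e + 1` modulo `7` -/
def iv (e : Fin 6) : ℕ := (0x632541 >>> (4 * e.val)) % 16

/-- the permutation `w` with `w s0 ^ (e + 1) w⁻¹ = s0`, `w 0 = p`, `w 7 = q` -/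
def Fw (e : Fin 6) (p q a : Om) : Om :=
  if a.val < 7 then sp ((a.val * iv e) % 7) p else sp (((a.val - 7) * iv e) % 7) q

/-- the other point -/
def oth (p : Om) (q : Fin 7) : Om := if p.val < 7 then ⟨7 + q.val, by omega⟩ else ⟨q.val, by omega⟩

/-- `z ↦ 2 z` -/
def m2f (z : Om) : Om := if z.val = 13 then 13 else ⟨(2 * z.val) % 13, by omega⟩

/-- the element of `PGL_2(13)` with a given code -/
def gf (m t : ℕ) (i : Fin 6) (b a : Fin 13) (z : Om) : Om :=
  if m = 0 then (if t = 0 then aff i b z else aff 0 a (tt (aff i b z)))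
  else (if t = 0 then m2f (aff i b z) else m2f (aff 0 a (tt (aff i b z))))

/-- the table -/
def big : ℕ := 0x18981e4e4009a2c6ec247c32df435be06278793800264b1ba091eccb7c0d6f4189d1e4f800982c6e4247a32dec35bc06270793d00278b1b8091e4cb7a0d6ec189b1e4f0009d2c6f8247832de435ba06268793b00270b1bd091f8cb780d6e418991e4e8009b2c6f0247d32df835b832644c99032658c99532650c993326483c920f2443c900f2583c950f2503c9314acc52b214ac452b014ad852b514ad0873421ccc873221cc4873021cd887350099402640098c0262009840260009987b361ecd47b341eccc7b321ecc47b30292c0a4b6292d4a4b4292cca4b2292c47938ac6e6cb7a8626e009c891f635be9e4fab1b8b2de6189a8026e247c8d6f6793dac6facb7886266009a891ee35bc9e4f2b1bdb2dfa189880266247a8d6ee793bac6f2cb7d8627a0098891e635ba9e4eab1bbb2df2189d8027a24788d6e67939ac6eacb7b86272009d891fa35b88f2523c938f24a3c918f2423c968f2568735a1cd28733a1cca8731a1cc287369ecda7b359ecd27b339ecca7b319ecc2c990b265ac995b2652c993b264ac99194ac652b094ada52b594ad252b394aca02628098602608099a0265809920263a92cea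4b2a92c6a4b0a92daa4b5a92d2053a4f16db85c440f5221e5d261c919414e53c5a6e16d103c48875749e7246105384f165b85a440ed221c5d275c91e414f93c586e165103a4886d749c72475053d4f179b858440e5221a5d26dc91c414f13c5d6e179103848865749a7246d053b4f171b85d440f922185d265c91a4d0c134364d0d534344d0cd34324d0c576915da4176965da5576945da4d76925654959515654159565655559545654dab536ad49ab516ad41ab566ad55ab5460a51829360a49829160a41829660a55c135704d1c133704c9c131704c1c13640019000540011000340009000140001b1b846265247a5e4edcb7c4027535be6c6f91898491e5793a72ded009c4d6f5b1bd4627924785e4e5cb7a4026d35bc6c6f1189d491f9793872de5009a4d6edb1bb46271247d5e4f9cb784026535ba6c6e9189b491f1793d72df900984d6e5b1b946269247b5e4f1cb7d4027935b861cc9873161cc1873661cd5873461ccdc99372649c99172641c99672655c994409910263409890261409810266409953c954f2513c934f2493c914f2413c965ecd97b355ecd17b335ecc97b315ecc152b054ad952b554ad152b354ac952b1692c5a4b0692d9a4b5692d1a4b3692c9103c814f6221e8f1627499ae16ac91b840ee053c888763c5e9d262b859b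246a103a814ee221c8f176749eae162c919840e6053a8886e3c5c9d276b85eb24621038814e6221a8f16e749cae176c91e840fa0538888663c5a9d26eb85cb2476103d814fa22188f166749aae16ec91caad42ab56aad56ab54aad4eab52aad4634318d0c234368d0d634348d0ce3432a0a4a8291a0a428296a0a568294a0a4e76939da4a76919da4276969da567694b04d2c133b04cac131b04c2c136b04d659559655259539654a59519654259568001a00058001200038000a0001800023c59040e8749b014f0b85d08878c9180f16010391d268053b2e170221d324783c5e040e07499014e8b85b08870c91d0f174103e1d26005392e168221b324703c5c040f4749e014e0b85908868c91b0f16c103c1d274053e2e1602219324683c5a040ec749c014f4b85e08860c9191da4076961da5476941da4c76921da44ab512ad40ab562ad54ab542ad4cab52304c8c131304c0c136304d4c134304cc34330d0c834310d0c034360d0d4343416550595316548595116540595616554829520a50829320a48829120a40829600018000500010000300008000100000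

def code (e : Fin 6) (p : Om) (q : Fin 7) : ℕ :=
  (big >>> (18 * ((e.val * 14 + p.val) * 7 + q.val))) % 262144

def cu (c : ℕ) : Fin 3 := ⟨(c % 4) % 3, by omega⟩
def cj (c : ℕ) : Fin 7 := ⟨(c / 4 % 8) % 7, by omega⟩
def cm (c : ℕ) : ℕ := c / 32 % 2
def ct (c : ℕ) : ℕ := c / 64 % 2
def ci (c : ℕ) : Fin 6 := ⟨(c / 128 % 8) % 6, by omega⟩
def cb (c : ℕ) : Fin 13 := ⟨(c / 1024 % 16) % 13, by omega⟩
def ca (c : ℕ) : Fin 13 := ⟨(c / 16384) % 13, by omega⟩

theorem check_main : ∀ (e : Fin 6) (p : Om) (q : Fin 7) (z : Om),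
    Fw e p (oth p q) (k1 z) = nn (cu (code e p q)) (cj (code e p q))
      (k1 (gf (cm (code e p q)) (ct (code e p q)) (ci (code e p q)) (cb (code e p q))
        (ca (code e p q)) z)) := by
  decide +kernel

/-! ### the group generated by `s0` -/

theorem s0_apply : ∀ x : Om, s0 x = sp 1 x := by decide +kernel

theorem sp_zero : ∀ x : Om, sp 0 x = x := by decide +kernel

theorem sp_sp (m n : ℕ) (x : Om) : sp m (sp n x) = sp (m + n) x := by
  obtain ⟨x, hx⟩ := x
  unfold sp
  by_cases h : x < 7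
  · have h1 : (x + n) % 7 < 7 := Nat.mod_lt _ (by norm_num)
    simp only [h, if_true, h1]
    refine Fin.ext ?_
    show ((x + n) % 7 + m) % 7 = (x + (m + n)) % 7
    omega
  · have h1 : ¬ (7 + (x - 7 + n) % 7 < 7) := by omega
    simp only [h, if_false, h1]
    refine Fin.ext ?_
    show 7 + (7 + (x - 7 + n) % 7 - 7 + m) % 7 = 7 + (x - 7 + (m + n)) % 7
    omega

theorem sp_mod (n : ℕ) (x : Om) : sp (n % 7) x = sp n x := by
  obtain ⟨x, hx⟩ := x
  unfold sp
  by_cases h : x < 7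
  · simp only [h, if_true]
    refine Fin.ext ?_
    show (x + n % 7) % 7 = (x + n) % 7
    omega
  · simp only [h, if_false]
    refine Fin.ext ?_
    show 7 + (x - 7 + n % 7) % 7 = 7 + (x - 7 + n) % 7
    omega

theorem s0_pow (n : ℕ) (x : Om) : (s0 ^ n) x = sp n x := by
  induction n with
  | zero => rw [pow_zero, sp_zero]; rfl
  | succ n ih => rw [pow_succ', Perm.mul_apply, ih, s0_apply, sp_sp, Nat.add_comm 1 n]

theorem s0_seven : s0 ^ 7 = 1 := by
  refine Equiv.ext fun x => ?_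
  rw [s0_pow, ← sp_mod, sp_zero]
  rfl

theorem s0_ne : s0 ≠ 1 := by
  intro h
  have := congrArg (fun f : Perm Om => f 0) h
  exact absurd this (by decide)

theorem w_pow {w : Perm Om} {e : Fin 6} (h : w * s0 ^ (e.val + 1) = s0 * w) (t : ℕ) (x : Om) :
    w (sp ((e.val + 1) * t) x) = sp t (w x) := by
  have h1 : SemiconjBy w (s0 ^ (e.val + 1)) s0 := h
  have h2 := h1.pow_right t
  have h3 := congrArg (fun f : Perm Om => f x) h2
  simp only [Perm.mul_apply] at h3
  rw [← pow_mul, s0_pow, s0_pow] at h3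
  exact h3

theorem iv_check : ∀ (e : Fin 6) (a : Om), (a.val < 7 → sp ((e.val + 1) * ((a.val * iv e) % 7)) 0 = a) ∧
    (¬ a.val < 7 → sp ((e.val + 1) * (((a.val - 7) * iv e) % 7)) 7 = a) := by
  decide +kernel

theorem w_formula {w : Perm Om} {e : Fin 6} (h : w * s0 ^ (e.val + 1) = s0 * w) (a : Om) :
    w a = Fw e (w 0) (w 7) a := by
  unfold Fw
  split_ifs with ha
  · have h1 := w_pow h ((a.val * iv e) % 7) 0
    rw [(iv_check e a).1 ha] at h1
    exact h1
  · have h1 := w_pow h (((a.val - 7) * iv e) % 7) 7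
    rw [(iv_check e a).2 ha] at h1
    exact h1

theorem sp_small (n : ℕ) (x : Om) (hx : x.val < 7) : (sp n x).val < 7 := by
  unfold sp
  rw [if_pos hx]
  exact Nat.mod_lt _ (by norm_num)

theorem sp_same (x y : Om) (h : x.val < 7 ↔ y.val < 7) : ∃ t, sp t x = y := by
  obtain ⟨x, hx⟩ := x
  obtain ⟨y, hy⟩ := y
  refine ⟨y + 7 - x, ?_⟩
  unfold sp
  simp only at h ⊢
  by_cases h1 : x < 7
  · have h2 := h.mp h1
    simp only [h1, if_true]
    refine Fin.ext ?_
    show (x + (y + 7 - x)) % 7 = y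
    omega
  · have h2 : ¬ y < 7 := fun h2 => h1 (h.mpr h2)
    simp only [h1, if_false]
    refine Fin.ext ?_
    show 7 + (x - 7 + (y + 7 - x)) % 7 = y
    omega

theorem w_side {w : Perm Om} {e : Fin 6} (h : w * s0 ^ (e.val + 1) = s0 * w) :
    ∃ q : Fin 7, w 7 = oth (w 0) q := by
  have hne : ¬ ((w 0).val < 7 ↔ (w 7).val < 7) := by
    intro h1
    obtain ⟨t, ht⟩ := sp_same (w 0) (w 7) h1
    rw [← w_pow h] at ht
    have h2 := w.injective ht
    have h3 := sp_small ((e.val + 1) * t) 0 (by decide)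
    rw [h2] at h3
    exact absurd h3 (by decide)
  unfold oth
  by_cases h0 : (w 0).val < 7
  · have h7 : ¬ (w 7).val < 7 := fun h7 => hne ⟨fun _ => h7, fun _ => h0⟩
    refine ⟨⟨(w 7).val - 7, by omega⟩, ?_⟩
    rw [if_pos h0]
    refine Fin.ext ?_
    show (w 7).val = 7 + ((w 7).val - 7)
    omega
  · have h7 : (w 7).val < 7 := by
      by_contra h7
      exact hne ⟨fun h' => absurd h' h0, fun h' => absurd h' h7⟩
    refine ⟨⟨(w 7).val, h7⟩, ?_⟩
    rw [if_neg h0]

/-! ### the element `z ↦ 2 z` -/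

/-- `z ↦ 7 z` -/
def m2i (z : Om) : Om := if z.val = 13 then 13 else ⟨(7 * z.val) % 13, by omega⟩

/-- `z ↦ 2 z` as a permutation -/
def m2 : Perm Om := ⟨m2f, m2i, by decide, by decide⟩

def b2 (b : Fin 13) : Fin 13 := ⟨(2 * b.val) % 13, by omega⟩
def b10 (b : Fin 13) : Fin 13 := ⟨(10 * b.val) % 13, by omega⟩
def i5 (i : Fin 6) : Fin 6 := ⟨(i.val + 5) % 6, by omega⟩

theorem m2_a : ∀ (i : Fin 6) (b : Fin 13) (z : Om), m2f (aff i b (m2i z)) = aff i (b2 b) z := by
  decide +kernel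

theorem m2_b : ∀ (a : Fin 13) (y : Om), m2f (aff 0 a y) = aff 0 (b2 a) (m2f y) := by
  decide +kernel

theorem m2_c : ∀ y : Om, m2f (tt y) = tt (aff 5 0 (m2f y)) := by decide +kernel

theorem m2_d : ∀ (i : Fin 6) (b : Fin 13) (z : Om), aff 5 0 (aff i b z) = aff (i5 i) (b10 b) z := by
  decide +kernel

theorem m2_conj {l : Perm Om} (hl : InL0 l) : InL0 (m2 * l * m2⁻¹) := by
  have e1 : ∀ z, (m2 * l * m2⁻¹) z = m2f (l (m2i z)) := fun z => rfl
  rcases hl with ⟨i, b, h⟩ | ⟨i, b, a, h⟩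
  · left
    refine ⟨i, b2 b, fun z => ?_⟩
    rw [e1, h, m2_a]
  · right
    refine ⟨i5 i, b10 (b2 b), b2 a, fun z => ?_⟩
    rw [e1, h, m2_b, m2_c, m2_a, m2_d]

/-! ### counting -/

/-- the functions of the list `L0` -/
def SF : Finset (Om → Om) :=
  ((Finset.univ : Finset (Fin 6 × Fin 13)).image fun x => aff x.1 x.2) ∪
  ((Finset.univ : Finset (Fin 6 × Fin 13 × Fin 13)).image fun x z =>
    aff 0 x.2.2 (tt (aff x.1 x.2.1 z)))

theorem SF_card : SF.card ≤ 1092 := by
  unfold SF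
  refine (Finset.card_union_le _ _).trans ?_
  have h1 : ((Finset.univ : Finset (Fin 6 × Fin 13)).image fun x => aff x.1 x.2).card ≤ 78 := by
    refine Finset.card_image_le.trans ?_
    rw [Finset.card_univ, Fintype.card_prod, Fintype.card_fin, Fintype.card_fin]
  have h2 : ((Finset.univ : Finset (Fin 6 × Fin 13 × Fin 13)).image fun x z =>
      aff 0 x.2.2 (tt (aff x.1 x.2.1 z))).card ≤ 1014 := by
    refine Finset.card_image_le.trans ?_
    rw [Finset.card_univ, Fintype.card_prod, Fintype.card_prod, Fintype.card_fin,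
      Fintype.card_fin]
  omega

theorem L0_card : {l : Perm Om | InL0 l}.ncard ≤ 1092 := by
  have h1 : {l : Perm Om | InL0 l}.ncard ≤ (SF : Set (Om → Om)).ncard := by
    refine Set.ncard_le_ncard_of_injOn (fun l : Perm Om => (l : Om → Om)) ?_ ?_
      (Finset.finite_toSet _)
    · intro l hl
      rw [Finset.mem_coe]
      unfold SF
      rw [Finset.mem_union]
      rcases hl with ⟨i, b, h⟩ | ⟨i, b, a, h⟩
      · left
        exact Finset.mem_image.mpr ⟨(i, b), Finset.mem_univ _, (funext h).symm⟩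
      · right
        exact Finset.mem_image.mpr ⟨(i, b, a), Finset.mem_univ _, (funext h).symm⟩
    · intro l _ l' _ h
      exact DFunLike.coe_injective h
  rw [Set.ncard_coe_finset] at h1
  exact h1.trans SF_card

theorem L0_eq {H : Subgroup (Perm Om)} (hcard : Nat.card H = 1092) {k : Perm Om}
    (hk : ∀ h ∈ H, InL0 (k⁻¹ * h * k)) (l : Perm Om) : InL0 l ↔ k * l * k⁻¹ ∈ H := by
  have hT : (fun h : Perm Om => k⁻¹ * h * k) '' (H : Set (Perm Om)) = {l : Perm Om | InL0 l} := by
    refine Set.eq_of_subset_of_ncard_le ?_ ?_ (Set.toFinite _)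
    · rintro _ ⟨h, hh, rfl⟩
      exact hk h hh
    · have hinj : Function.Injective (fun h : Perm Om => k⁻¹ * h * k) := by
        intro a b hab
        exact mul_left_cancel (mul_right_cancel hab)
      rw [Set.ncard_image_of_injective _ hinj]
      have : (H : Set (Perm Om)).ncard = 1092 := hcard
      rw [this]
      exact L0_card
  constructor
  · intro hl
    have h1 : l ∈ (fun h : Perm Om => k⁻¹ * h * k) '' (H : Set (Perm Om)) := by
      rw [hT]
      exact hl
    obtain ⟨h, hh, rfl⟩ := h1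
    have e1 : k * (k⁻¹ * h * k) * k⁻¹ = h := by group
    rw [e1]
    exact hh
  · intro hl
    have h1 := hk _ hl
    have e1 : k⁻¹ * (k * l * k⁻¹) * k = l := by group
    rwa [e1] at h1

theorem L0_conj {H : Subgroup (Perm Om)} (hcard : Nat.card H = 1092) {k : Perm Om}
    (hk : ∀ h ∈ H, InL0 (k⁻¹ * h * k)) {g l : Perm Om} (hg : InL0 g) (hl : InL0 l) :
    InL0 (g * l * g⁻¹) := by
  rw [L0_eq hcard hk] at hg hl ⊢
  have e1 : k * (g * l * g⁻¹) * k⁻¹ = (k * g * k⁻¹) * (k * l * k⁻¹) * (k * g * k⁻¹)⁻¹ := by group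
  rw [e1]
  exact H.mul_mem (H.mul_mem hg hl) (H.inv_mem hg)

/-! ### Sylow -/

theorem fact7 : (1092 : ℕ).factorization 7 = 1 := by
  have h : (1092 : ℕ) = 7 * 156 := by norm_num
  rw [h, Nat.factorization_mul (by norm_num) (by norm_num), Finsupp.add_apply,
    Nat.Prime.factorization_self (by norm_num), Nat.factorization_eq_zero_of_not_dvd (by norm_num)]

theorem sylow_conj {H : Subgroup (Perm Om)} (hcard : Nat.card H = 1092) {a b : Perm Om}
    (ha : a ∈ H) (hb : b ∈ H) (oa : orderOf a = 7) (ob : orderOf b = 7) :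
    ∃ g ∈ H, ∃ e : Fin 6, g⁻¹ * a * g = b ^ (e.val + 1) := by
  have : Fact (Nat.Prime 7) := ⟨by norm_num⟩
  let a' : H := ⟨a, ha⟩
  let b' : H := ⟨b, hb⟩
  have oa' : orderOf a' = 7 := by rw [← oa]; exact (Subgroup.orderOf_coe a').symm
  have ob' : orderOf b' = 7 := by rw [← ob]; exact (Subgroup.orderOf_coe b').symm
  let P : Sylow 7 H := Sylow.ofCard (Subgroup.zpowers a') (by
    rw [Nat.card_zpowers, oa', hcard, fact7, pow_one])
  let Q : Sylow 7 H := Sylow.ofCard (Subgroup.zpowers b') (by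
    rw [Nat.card_zpowers, ob', hcard, fact7, pow_one])
  obtain ⟨g, hg⟩ := MulAction.exists_smul_eq H Q P
  have h1 : a' ∈ (P : Subgroup H) := Subgroup.mem_zpowers a'
  rw [← hg, Sylow.coe_subgroup_smul, Subgroup.mem_pointwise_smul_iff_inv_smul_mem] at h1
  have h2 : g⁻¹ * a' * g ∈ Subgroup.zpowers b' := by
    have e1 : (MulAut.conj g)⁻¹ • a' = g⁻¹ * a' * g := by
      rw [← map_inv, MulAut.smul_def, MulAut.conj_apply, inv_inv]
    rw [e1] at h1
    exact h1
  rw [mem_zpowers_iff_mem_range_orderOf, ob', Finset.mem_image] at h2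
  obtain ⟨n, hn, hn'⟩ := h2
  rw [Finset.mem_range] at hn
  have hn0 : n ≠ 0 := by
    rintro rfl
    rw [pow_zero] at hn'
    have h3 : a' = 1 := by
      have : g⁻¹ * a' * g = 1 := hn'.symm
      have e2 : a' = g * (g⁻¹ * a' * g) * g⁻¹ := by group
      rw [e2, this]
      group
    rw [h3, orderOf_one] at oa'
    exact absurd oa' (by norm_num)
  refine ⟨g, g.2, ⟨n - 1, by omega⟩, ?_⟩
  have h4 := congrArg (fun x : H => (x : Perm Om)) hn'
  have e3 : n - 1 + 1 = n := by omega
  show (g : Perm Om)⁻¹ * a * (g : Perm Om) = b ^ (n - 1 + 1)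
  rw [e3]
  exact h4.symm

theorem c_check : ∀ z, (k1⁻¹ * s0 * k1) z = aff 0 8 (tt (aff 4 2 z)) := by decide +kernel

end CONJ

open CONJ in
theorem h_CONJ : S_CONJ := by
  intro H hs0 hcard hex
  obtain ⟨k, hk⟩ := hex
  have : Fact (Nat.Prime 7) := ⟨by norm_num⟩
  set r : Perm Om := k * k1⁻¹ with hr
  have hc : InL0 (k1⁻¹ * s0 * k1) := Or.inr ⟨4, 2, 8, c_check⟩
  have hcH : r * s0 * r⁻¹ ∈ H := by
    have h1 := (L0_eq hcard hk _).mp hc
    have e1 : k * (k1⁻¹ * s0 * k1) * k⁻¹ = r * s0 * r⁻¹ := by rw [hr]; group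
    rwa [e1] at h1
  have o1 : orderOf s0 = 7 := orderOf_eq_prime s0_seven s0_ne
  have o2 : orderOf (r * s0 * r⁻¹) = 7 := by
    refine orderOf_eq_prime ?_ ?_
    · rw [conj_pow, s0_seven, mul_one, mul_inv_cancel]
    · intro h
      apply s0_ne
      have e1 : s0 = r⁻¹ * (r * s0 * r⁻¹) * r := by group
      rw [e1, h]
      group
  obtain ⟨g, hg, e, he⟩ := sylow_conj hcard hs0 hcH o1 o2
  rw [conj_pow] at he
  set w : Perm Om := g * r with hw
  have hws : w * s0 ^ (e.val + 1) = s0 * w := by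
    have e1 : w * s0 ^ (e.val + 1) = g * (r * s0 ^ (e.val + 1) * r⁻¹) * r := by rw [hw]; group
    rw [e1, ← he, hw]
    group
  obtain ⟨q, hq⟩ := w_side hws
  set C : ℕ := code e (w 0) q with hC
  set M : Perm Om := nn (cu C) (cj C) * k1 with hM
  set gg : Perm Om := M⁻¹ * (w * k1) with hgg
  have hgz : ∀ z, gg z = gf (cm C) (ct C) (ci C) (cb C) (ca C) z := by
    intro z
    have h1 := check_main e (w 0) q z
    rw [← hq, ← w_formula hws] at h1
    rw [hgg, Perm.mul_apply, Perm.mul_apply, Perm.inv_eq_iff_eq, hM, Perm.mul_apply]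
    exact h1
  refine ⟨cu C, cj C, fun h hh => ?_⟩
  have hl : InL0 ((w * k1)⁻¹ * h * (w * k1)) := by
    have h1 := hk (g⁻¹ * h * g) (H.mul_mem (H.mul_mem (H.inv_mem hg) hh) hg)
    have e1 : k⁻¹ * (g⁻¹ * h * g) * k = (w * k1)⁻¹ * h * (w * k1) := by rw [hw, hr]; group
    rwa [e1] at h1
  have e2 : M⁻¹ * h * M = gg * ((w * k1)⁻¹ * h * (w * k1)) * gg⁻¹ := by rw [hgg]; group
  show InL0 (M⁻¹ * h * M)
  rw [e2]
  by_cases hm : cm C = 0
  · refine L0_conj hcard hk ?_ hl
    by_cases ht : ct C = 0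
    · left
      refine ⟨ci C, cb C, fun z => ?_⟩
      rw [hgz]
      unfold gf
      rw [if_pos hm, if_pos ht]
    · right
      refine ⟨ci C, cb C, ca C, fun z => ?_⟩
      rw [hgz]
      unfold gf
      rw [if_pos hm, if_neg ht]
  · -- `gg = m2 * g'`
    have hg' : InL0 (m2⁻¹ * gg) := by
      by_cases ht : ct C = 0
      · left
        refine ⟨ci C, cb C, fun z => ?_⟩
        rw [Perm.mul_apply, Perm.inv_eq_iff_eq, hgz]
        unfold gf
        rw [if_neg hm, if_pos ht]
        rfl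
      · right
        refine ⟨ci C, cb C, ca C, fun z => ?_⟩
        rw [Perm.mul_apply, Perm.inv_eq_iff_eq, hgz]
        unfold gf
        rw [if_neg hm, if_neg ht]
        rfl
    have h5 := m2_conj (L0_conj hcard hk hg' hl)
    have e3 : m2 * (m2⁻¹ * gg * ((w * k1)⁻¹ * h * (w * k1)) * (m2⁻¹ * gg)⁻¹) * m2⁻¹ =
        gg * ((w * k1)⁻¹ * h * (w * k1)) * gg⁻¹ := by group
    rwa [e3] at h5

end Pool.Agent.H330.A14
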