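import Mathlib

/-!
# Uniform domination number of `A_14`: definitions

Points are `Fin 14`.  `s0 = (0 1 ... 6)(7 8 ... 13)`.
-/

namespace Pool.Agent.H330.A14

open Equiv

/-- the fourteen points -/
abbrev Om := Fin 14

/-- the standard element of shape `[7, 7]` -/
def s0 : Perm Om :=
  ⟨![1, 2, 3, 4, 5, 6, 0, 8, 9, 10, 11, 12, 13, 7],
   ![6, 0, 1, 2, 3, 4, 5, 13, 7, 8, 9, 10, 11, 12], by decide, by decide⟩

/-- which of the two cycles of `s0` a point belongs to -/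
def side (a : Om) : Bool := decide (a.val < 7)

/-- the `j`-th perfect matching `a ↔ 7 + (a + j)` invariant under `s0` -/
def tau (j : Fin 7) (a : Om) : Om :=
  if a.val < 7 then ⟨7 + (a.val + j.val) % 7, by omega⟩
  else ⟨(a.val - 7 + (7 - j.val)) % 7, by omega⟩

/-- `h` preserves the partition of the points into the two cycles of `s0` -/
def PresP (h : Perm Om) : Prop := ∃ e : Bool, ∀ a, side (h a) = xor (side a) e

/-- `h` preserves the `j`-th matching -/
def PresT (j : Fin 7) (h : Perm Om) : Prop := ∀ a, h (tau j a) = tau j (h a)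

instance (h : Perm Om) : Decidable (PresP h) := by unfold PresP; infer_instance
instance (j : Fin 7) (h : Perm Om) : Decidable (PresT j h) := by unfold PresT; infer_instance

/-- transitivity -/
def Trans (H : Subgroup (Perm Om)) : Prop := ∀ a b, ∃ h ∈ H, h a = b

/-- double transitivity -/
def TwoTrans (H : Subgroup (Perm Om)) : Prop :=
  ∀ a b c d, a ≠ b → c ≠ d → ∃ h ∈ H, h a = c ∧ h b = d

/-- the affine map `z ↦ 4 ^ i * z + b` of the projective line `{0, ..., 12, ∞ = 13}` over `F_13` -/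
def aff (i : Fin 6) (b : Fin 13) (z : Om) : Om :=
  if z.val = 13 then 13 else ⟨(4 ^ i.val * z.val + b.val) % 13, by omega⟩

/-- the map `z ↦ -1/z` of the projective line over `F_13` -/
def tt (z : Om) : Om := ![13, 12, 6, 4, 3, 5, 2, 11, 8, 10, 9, 7, 1, 0] z

/-- `l` is one of the 1092 elements of `PSL_2(13)` acting on the projective line -/
def InL0 (l : Perm Om) : Prop :=
  (∃ i b, ∀ z, l z = aff i b z) ∨ (∃ i b a, ∀ z, l z = aff 0 a (tt (aff i b z)))

/-- `z ↦ z + 1` -/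
def y13 : Perm Om :=
  ⟨![1, 2, 3, 4, 5, 6, 7, 8, 9, 10, 11, 12, 0, 13],
   ![12, 0, 1, 2, 3, 4, 5, 6, 7, 8, 9, 10, 11, 13], by decide, by decide⟩

/-- `z ↦ 4 z` -/
def m4 : Perm Om :=
  ⟨![0, 4, 8, 12, 3, 7, 11, 2, 6, 10, 1, 5, 9, 13],
   ![0, 10, 7, 4, 1, 11, 8, 5, 2, 12, 9, 6, 3, 13], by decide, by decide⟩

/-- a labelling which conjugates `PSL_2(13)` to a group containing `s0` -/
def k1 : Perm Om :=
  ⟨![0, 1, 2, 7, 5, 13, 3, 10, 12, 6, 9, 4, 8, 11],
   ![0, 1, 2, 6, 11, 4, 9, 3, 12, 10, 7, 13, 8, 5], by decide, by decide⟩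

/-- the element `a ↦ 2 ^ u * a`, `7 + b ↦ 7 + (2 ^ u * b + j)` of the normaliser of `⟨s0⟩` -/
def nn (u : Fin 3) (j : Fin 7) : Perm Om where
  toFun a := if a.val < 7 then ⟨(2 ^ u.val * a.val) % 7, by omega⟩
    else ⟨7 + (2 ^ u.val * (a.val - 7) + j.val) % 7, by omega⟩
  invFun a := if a.val < 7 then ⟨(4 ^ u.val * a.val) % 7, by omega⟩
    else ⟨7 + (4 ^ u.val * (a.val - 7 + (7 - j.val))) % 7, by omega⟩
  left_inv := by revert u j; decide +kernel
  right_inv := by revert u j; decide +kernel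

/-- the four labellings -/
def lab : Fin 4 → Perm Om
  | 0 => ⟨![8, 6, 4, 12, 0, 2, 10, 9, 13, 3, 7, 1, 11, 5],
          ![4, 11, 5, 9, 2, 13, 1, 10, 0, 7, 6, 12, 3, 8], by decide, by decide⟩
  | 1 => ⟨![8, 11, 4, 3, 0, 12, 7, 9, 5, 10, 2, 13, 1, 6],
          ![4, 12, 10, 3, 2, 8, 13, 6, 0, 7, 9, 1, 5, 11], by decide, by decide⟩
  | 2 => ⟨![4, 6, 3, 12, 13, 5, 11, 1, 2, 9, 0, 8, 7, 10],
          ![10, 7, 8, 2, 0, 5, 1, 12, 11, 9, 13, 6, 3, 4], by decide, by decide⟩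
  | 3 => ⟨![10, 9, 11, 12, 8, 7, 13, 2, 4, 5, 3, 6, 1, 0],
          ![13, 12, 7, 10, 8, 9, 11, 5, 4, 1, 0, 2, 3, 6], by decide, by decide⟩

/-- the four elements of the total dominating set -/
def ss (i : Fin 4) : Perm Om := lab i * s0 * (lab i)⁻¹

end Pool.Agent.H330.A14
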