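import Pool.Agent.H330.A14.Spec

/-!
# ELEVEN: a doubly transitive group with 11 dividing its order
-/

namespace Pool.Agent.H330.A14

open Equiv

namespace ELEVEN

/-- elements of order `p` are conjugate up to powers if `p ^ 2` does not divide the order -/
theorem conj_ord {G : Type*} [Group G] [Finite G] {p : ℕ} [hp : Fact p.Prime]
    (h2 : ¬ p ^ 2 ∣ Nat.card G) {x y : G} (hx : orderOf x = p) (hy : orderOf y = p) :
    ∃ (c : G) (j : ℕ), c * x * c⁻¹ = y ^ j := by
  have hzx : IsPGroup p (Subgroup.zpowers x) :=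
    IsPGroup.of_card (n := 1) (by rw [Nat.card_zpowers, hx, pow_one])
  have hzy : IsPGroup p (Subgroup.zpowers y) :=
    IsPGroup.of_card (n := 1) (by rw [Nat.card_zpowers, hy, pow_one])
  obtain ⟨P1, hP1⟩ := hzx.exists_le_sylow
  obtain ⟨P2, hP2⟩ := hzy.exists_le_sylow
  have hcard : Nat.card P2 ≤ Nat.card (Subgroup.zpowers y) := by
    rw [Nat.card_zpowers, hy]
    obtain ⟨m, hm⟩ := IsPGroup.iff_card.1 P2.isPGroup'
    have hm1 : m ≤ 1 := by
      by_contra hc
      push Not at hc
      apply h2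
      have h3 : Nat.card P2 ∣ Nat.card G := Subgroup.card_subgroup_dvd_card _
      rw [hm] at h3
      exact (pow_dvd_pow p hc).trans h3
    rw [hm]
    calc p ^ m ≤ p ^ 1 := Nat.pow_le_pow_right hp.out.pos hm1
      _ = p := pow_one p
  have heq : Subgroup.zpowers y = P2 := Subgroup.eq_of_le_of_card_ge hP2 hcard
  obtain ⟨c, hc⟩ := MulAction.exists_smul_eq G P1 P2
  have hx1 : x ∈ P1 := hP1 (Subgroup.mem_zpowers x)
  have hx2 : c * x * c⁻¹ ∈ (P2 : Subgroup G) := by
    rw [← hc, Sylow.coe_subgroup_smul]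
    exact Subgroup.smul_mem_pointwise_smul _ _ _ hx1
  rw [← heq] at hx2
  obtain ⟨j, hj⟩ := mem_powers_iff_mem_zpowers.2 hx2
  exact ⟨c, j, hj.symm⟩

/-- iterated conjugation -/
theorem conj_iter {G : Type*} [Group G] {h g : G} {j : ℕ} (H : h * g * h⁻¹ = g ^ j) (m : ℕ) :
    h ^ m * g * (h ^ m)⁻¹ = g ^ (j ^ m) := by
  induction m with
  | zero => simp
  | succ m ih =>
    have e1 : h ^ (m + 1) * g * (h ^ (m + 1))⁻¹ = h * (h ^ m * g * (h ^ m)⁻¹) * h⁻¹ := by
      rw [pow_succ']
      group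
    rw [e1, ih, ← conj_pow, H, ← pow_mul, ← pow_succ']

/-- a permutation commuting with a cycle `g` acts on its support as a power of `g` -/
theorem comm_cycle {α : Type*} [DecidableEq α] [Fintype α] {g u : Perm α} (hg : g.IsCycle) (hc : Commute u g) {n : ℕ}
    (hn : g ^ n = 1) {x : α} (hx : x ∈ g.support) : (u ^ n) x = x := by
  have hux : u x ∈ g.support := by
    rw [Perm.mem_support] at hx ⊢
    intro h
    apply hx
    apply u.injective
    rw [← Perm.mul_apply, hc.eq, Perm.mul_apply, h]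
  obtain ⟨i, hi⟩ := hg.exists_pow_eq (Perm.mem_support.1 hx) (Perm.mem_support.1 hux)
  have key : ∀ m : ℕ, (u ^ m) x = (g ^ (i * m)) x := by
    intro m
    induction m with
    | zero => simp
    | succ m ih =>
      rw [pow_succ', Perm.mul_apply, ih, ← Perm.mul_apply, (hc.pow_right (i * m)).eq, Perm.mul_apply,
        ← hi, ← Perm.mul_apply, ← pow_add]
      rfl
  rw [key, mul_comm, pow_mul, hn, one_pow, Perm.one_apply]

theorem perm_inv {α : Type*} (k : Perm α) (x : α) : k⁻¹ (k x) = x := k.symm_apply_apply x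

theorem order_conj {G : Type*} [Group G] (k g : G) : orderOf (k * g * k⁻¹) = orderOf g := by
  have := orderOf_injective (MulAut.conj k).toMonoidHom (MulAut.conj k).injective g
  exact this

theorem fermat {j : ℕ} (h : ¬ 11 ∣ j) : j ^ 10 ≡ 1 [MOD 11] := by
  have : Fact (Nat.Prime 11) := ⟨by norm_num⟩
  rw [← ZMod.natCast_eq_natCast_iff]
  push_cast
  apply ZMod.pow_card_sub_one_eq_one
  intro h0
  exact h ((ZMod.natCast_eq_zero_iff j 11).1 h0)

end ELEVEN

open ELEVEN in
theorem h_ELEVEN (hJ : S_JCYC) : S_ELEVEN := by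
  intro H hT h11
  have : Fact (Nat.Prime 11) := ⟨by norm_num⟩
  obtain ⟨g', hg'⟩ := exists_prime_orderOf_dvd_card' 11 h11
  obtain ⟨g, hgH⟩ := g'
  have hord : orderOf g = 11 := by
    rw [← hg', Subgroup.orderOf_mk]
  -- `g` is an 11-cycle
  obtain ⟨n, hn⟩ := Perm.cycleType_prime_order (σ := g) (by rw [hord]; norm_num)
  have hsum := Perm.sum_cycleType g
  have hle : g.support.card ≤ 14 := by
    have := Finset.card_le_univ g.support
    simpa using this
  rw [hn, Multiset.sum_replicate, hord, smul_eq_mul] at hsum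
  have hn0 : n = 0 := by omega
  subst hn0
  have hsc : g.support.card = 11 := by omega
  have hcyc : g.IsCycle := by
    rw [← Perm.card_cycleType_eq_one, hn]
    simp
  -- the fixed points
  have hF : (g.supportᶜ).card = 3 := by
    rw [Finset.card_compl, hsc]
    simp
  obtain ⟨a, b, c, hab, hac, hbc, hFe⟩ := Finset.card_eq_three.1 hF
  have hfix : ∀ x, g x = x ↔ x = a ∨ x = b ∨ x = c := by
    intro x
    have : x ∈ g.supportᶜ ↔ x ∈ ({a, b, c} : Finset Om) := by rw [hFe]
    rw [Finset.mem_compl, Perm.mem_support, not_not] at this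
    rw [this]
    simp
  have ha : g a = a := (hfix a).2 (Or.inl rfl)
  have hb : g b = b := (hfix b).2 (Or.inr (Or.inl rfl))
  have hc : g c = c := (hfix c).2 (Or.inr (Or.inr rfl))
  obtain ⟨k, hkH, hka, hkb⟩ := hT a b b c hab hbc
  -- the stabiliser of `b` and `c`
  let K : Subgroup (Perm Om) :=
    { carrier := {x | x ∈ H ∧ x b = b ∧ x c = c}
      mul_mem' := by
        rintro x y ⟨h1, h2, h3⟩ ⟨h4, h5, h6⟩
        exact ⟨H.mul_mem h1 h4, by rw [Perm.mul_apply, h5, h2], by rw [Perm.mul_apply, h6, h3]⟩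
      one_mem' := ⟨H.one_mem, rfl, rfl⟩
      inv_mem' := by
        rintro x ⟨h1, h2, h3⟩
        exact ⟨H.inv_mem h1, by rw [Perm.inv_eq_iff_eq]; exact h2.symm,
          by rw [Perm.inv_eq_iff_eq]; exact h3.symm⟩ }
  have hgK : g ∈ K := ⟨hgH, hb, hc⟩
  have hkgK : k * g * k⁻¹ ∈ K := by
    refine ⟨H.mul_mem (H.mul_mem hkH hgH) (H.inv_mem hkH), ?_, ?_⟩
    · rw [Perm.mul_apply, Perm.mul_apply, ← hka, perm_inv, ha]
    · rw [Perm.mul_apply, Perm.mul_apply, ← hkb, perm_inv, hb]
  have h121 : ¬ 11 ^ 2 ∣ Nat.card K := by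
    intro h
    have h1 : Nat.card K ∣ Nat.card (Perm Om) := Subgroup.card_subgroup_dvd_card K
    have h2 : Nat.card (Perm Om) = Nat.factorial 14 := by
      rw [Nat.card_perm]
      simp
    rw [h2] at h1
    have h3 := h.trans h1
    revert h3
    decide +kernel
  have ho1 : orderOf (⟨k * g * k⁻¹, hkgK⟩ : K) = 11 := by
    rw [Subgroup.orderOf_mk, ← hord]
    exact order_conj k g
  have ho2 : orderOf (⟨g, hgK⟩ : K) = 11 := by
    rw [Subgroup.orderOf_mk, hord]
  obtain ⟨⟨c', hc'⟩, j, hj⟩ := conj_ord h121 ho1 ho2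
  have hj' : c' * (k * g * k⁻¹) * c'⁻¹ = g ^ j := congrArg Subtype.val hj
  set h : Perm Om := c' * k with hh
  have hhH : h ∈ H := H.mul_mem hc'.1 hkH
  have hconj : h * g * h⁻¹ = g ^ j := by
    rw [← hj', hh]
    group
  have h_a : h a = b := by rw [hh, Perm.mul_apply, hka, hc'.2.1]
  have h_b : h b = c := by rw [hh, Perm.mul_apply, hkb, hc'.2.2]
  -- `11 ∤ j`
  have hj11 : ¬ 11 ∣ j := by
    rintro ⟨m, rfl⟩
    have e : g ^ (11 * m) = 1 := by rw [pow_mul, ← hord, pow_orderOf_eq_one, one_pow]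
    rw [e] at hconj
    have e2 : g = 1 := by
      have : g = h⁻¹ * (h * g * h⁻¹) * h := by group
      rw [this, hconj]
      group
    rw [e2, orderOf_one] at hord
    norm_num at hord
  have hcop : Nat.Coprime j (orderOf g) := by
    rw [hord]
    exact ((Nat.Prime.coprime_iff_not_dvd (by norm_num)).2 hj11).symm
  have h_c : h c = a := by
    have h1 : (g ^ j) (h c) = h c := by
      rw [← hconj]
      simp [hc]
    have h2 : h c ∉ (g ^ j).support := by
      rw [Perm.notMem_support]
      exact h1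
    rw [Perm.support_pow_coprime hcop, Perm.notMem_support, hfix] at h2
    rcases h2 with h2 | h2 | h2
    · exact h2
    · rw [← h_a] at h2
      exact absurd (h.injective h2) hac.symm
    · exact absurd (h.injective (h2.trans h_b.symm)) hbc.symm
  -- `h ^ 10` commutes with `g`
  have hcomm : Commute (h ^ 10) g := by
    have h1 := conj_iter hconj 10
    have h2 : g ^ (j ^ 10) = g ^ 1 := by
      rw [pow_eq_pow_iff_modEq, hord]
      exact fermat hj11
    rw [h2, pow_one, mul_inv_eq_iff_eq_mul] at h1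
    exact h1
  set t : Perm Om := (h ^ 10) ^ 11 with ht
  have htx : ∀ x, g x ≠ x → t x = x := by
    intro x hx
    exact comm_cycle hcyc hcomm (by rw [← hord, pow_orderOf_eq_one]) (Perm.mem_support.2 hx)
  have h3 : ∀ x, (x = a ∨ x = b ∨ x = c) → (h ^ 3) x = x := by
    rintro x (rfl | rfl | rfl)
    · rw [pow_succ, pow_two, Perm.mul_apply, Perm.mul_apply, h_a, h_b, h_c]
    · rw [pow_succ, pow_two, Perm.mul_apply, Perm.mul_apply, h_b, h_c, h_a]
    · rw [pow_succ, pow_two, Perm.mul_apply, Perm.mul_apply, h_c, h_a, h_b]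
  have h36 : ∀ m : ℕ, ∀ x, (x = a ∨ x = b ∨ x = c) → ((h ^ 3) ^ m) x = x := by
    intro m x hx
    induction m with
    | zero => simp
    | succ m ih => rw [pow_succ', Perm.mul_apply, ih, h3 x hx]
  have ht2 : t = h ^ 2 * (h ^ 3) ^ 36 := by
    rw [ht, ← pow_mul, ← pow_mul, ← pow_add]
  have hta : t a = c := by
    rw [ht2, Perm.mul_apply, h36 36 a (Or.inl rfl), pow_two, Perm.mul_apply, h_a, h_b]
  have htb : t b = a := by
    rw [ht2, Perm.mul_apply, h36 36 b (Or.inr (Or.inl rfl)), pow_two, Perm.mul_apply, h_b, h_c]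
  have htc : t c = b := by
    rw [ht2, Perm.mul_apply, h36 36 c (Or.inr (Or.inr rfl)), pow_two, Perm.mul_apply, h_c, h_a]
  have hts : t.support = {a, b, c} := by
    ext x
    rw [Perm.mem_support]
    constructor
    · intro hx
      by_contra hx2
      apply hx
      apply htx
      rw [Ne, hfix]
      simpa using hx2
    · intro hx
      simp only [Finset.mem_insert, Finset.mem_singleton] at hx
      rcases hx with rfl | rfl | rfl
      · rw [hta]
        exact hac.symm
      · rw [htb]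
        exact hab
      · rw [htc]
        exact hbc
  have hcard : t.support.card = 3 := by
    rw [hts]
    exact Finset.card_eq_three.2 ⟨a, b, c, hab, hac, hbc, rfl⟩
  exact hJ H hT ⟨t, H.pow_mem (H.pow_mem hhH 10) 11, (card_support_eq_three_iff.1 hcard).isCycle,
    Or.inl hcard⟩

end Pool.Agent.H330.A14
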