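import Pool.Agent.H330.A14.Spec

/-!
# EVEN: a doubly transitive subgroup of `A_14` of order divisible by `2^10` is `A_14` (helper828)
-/

namespace Pool.Agent.H330.A14

open Equiv

namespace EVEN

/-- a double transposition -/
def t0 : Perm Om := swap 0 1 * swap 2 3

theorem t0_mem : t0 ∈ Alt := by
  rw [Perm.mem_alternatingGroup]
  decide

theorem t0_sq : t0 * t0 = 1 := by decide

theorem t0_supp : t0.support.card = 4 := by decide

theorem t0_ne : t0 ≠ 1 := by decide

theorem app_inv (f : Perm Om) (x : Om) : f (f⁻¹ x) = x := f.apply_symm_apply x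

/-- a conjugate of `t0` in `H` -/
theorem exists_conj (H : Subgroup (Perm Om)) (hA : H ≤ Alt) (h1024 : 1024 ∣ Nat.card H) :
    ∃ k : Perm Om, k⁻¹ * t0 * k ∈ H := by
  classical
  let K : Subgroup Alt := H.subgroupOf Alt
  have hK : Nat.card K = Nat.card H := Nat.card_congr (Subgroup.subgroupOfEquivOfLe hA).toEquiv
  have h1 := K.card_mul_index
  have h2 : 2 * Nat.card Alt = Nat.card (Perm Om) := two_mul_nat_card_alternatingGroup
  have h3 : Nat.card (Perm Om) = 87178291200 := by
    rw [Nat.card_perm, Nat.card_eq_fintype_card, Fintype.card_fin]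
    rfl
  obtain ⟨m, hm⟩ := h1024
  have h4 : m * K.index = 42567525 := by
    rw [← hK] at hm
    rw [← h1, h3, hm] at h2
    have h5 : 2048 * (m * K.index) = 2048 * 42567525 := by
      rw [← mul_assoc]
      norm_num
      linarith
    exact Nat.eq_of_mul_eq_mul_left (by norm_num) h5
  have h5 : ¬ 2 ∣ K.index := by
    intro h
    have h6 : 2 ∣ m * K.index := Dvd.dvd.mul_left h m
    rw [h4] at h6
    omega
  have : Fintype (Alt ⧸ K) := Fintype.ofFinite _
  have hp : Fact (Nat.Prime 2) := ⟨Nat.prime_two⟩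
  have h6 : ¬ 2 ∣ Fintype.card (Alt ⧸ K) := by
    rwa [← Nat.card_eq_fintype_card]
  let τ : Alt := ⟨t0, t0_mem⟩
  have hτ : τ * τ = 1 := Subtype.ext t0_sq
  have hσ : (MulAction.toPerm τ : Perm (Alt ⧸ K)) ^ 2 ^ 1 = 1 := by
    ext x
    rw [pow_one, pow_two]
    show τ • τ • x = x
    rw [smul_smul, hτ, one_smul]
  obtain ⟨x, hx⟩ := Perm.exists_fixed_point_of_prime h6 hσ
  obtain ⟨k, rfl⟩ := QuotientGroup.mk_surjective x
  have h7 : (QuotientGroup.mk (τ * k) : Alt ⧸ K) = QuotientGroup.mk k := hx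
  have h8 : k⁻¹ * (τ * k) ∈ K := QuotientGroup.eq.1 h7.symm
  refine ⟨(k : Perm Om), ?_⟩
  have h9 : ((k⁻¹ * (τ * k) : Alt) : Perm Om) ∈ H := h8
  have h10 : ((k⁻¹ * (τ * k) : Alt) : Perm Om) = (k : Perm Om)⁻¹ * t0 * k := by
    push_cast
    rw [mul_assoc]
  rwa [h10] at h9

/-- an element of order 13 -/
theorem exists_y (H : Subgroup (Perm Om)) (hT : TwoTrans H) :
    ∃ y ∈ H, orderOf y = 13 := by
  classical
  have hp : Fact (Nat.Prime 13) := ⟨by norm_num⟩
  have : Fintype H := Fintype.ofFinite _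
  have horb : (MulAction.orbit H ((0, 1) : Om × Om)) = {x : Om × Om | x.1 ≠ x.2} := by
    ext x
    rw [MulAction.mem_orbit_iff]
    constructor
    · rintro ⟨h, rfl⟩
      show (h : Perm Om) 0 ≠ (h : Perm Om) 1
      exact fun e => absurd ((h : Perm Om).injective e) (by decide)
    · intro hx
      obtain ⟨h, hh, h0, h1⟩ := hT 0 1 x.1 x.2 (by decide) hx
      exact ⟨⟨h, hh⟩, Prod.ext h0 h1⟩
  have : Fintype (MulAction.orbit H ((0, 1) : Om × Om)) := Fintype.ofFinite _
  have : Fintype (MulAction.stabilizer H ((0, 1) : Om × Om)) := Fintype.ofFinite _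
  have hc := MulAction.card_orbit_mul_card_stabilizer_eq_card_group H ((0, 1) : Om × Om)
  have hcard : Fintype.card (MulAction.orbit H ((0, 1) : Om × Om)) = 182 := by
    rw [← Nat.card_eq_fintype_card, horb, Nat.card_eq_fintype_card]
    rfl
  have h13 : 13 ∣ Fintype.card H := by
    rw [← hc, hcard]
    exact Dvd.dvd.mul_right (by norm_num) _
  obtain ⟨y, hy⟩ := exists_prime_orderOf_dvd_card 13 h13
  exact ⟨y, y.2, by rw [← hy, Subgroup.orderOf_coe]⟩

/-- the unique fixed point -/
theorem fixed (y : Perm Om) (hy : orderOf y = 13) : ∃ p, y p = p ∧ ∀ s, s ≠ p → y s ≠ s := by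
  classical
  have hp : Fact (Nat.Prime 13) := ⟨by norm_num⟩
  have h1 : y ^ 13 ^ 1 = 1 := by
    rw [pow_one, ← hy]
    exact pow_orderOf_eq_one y
  have h2 := Perm.card_compl_support_modEq h1
  have h3 : y ≠ 1 := by
    rintro rfl
    rw [orderOf_one] at hy
    norm_num at hy
  have h4 : y.supportᶜ.card < 14 := by
    have h5 : y.support.card ≠ 0 := by
      rw [Ne, Finset.card_eq_zero, Perm.support_eq_empty_iff]
      exact h3
    have h6 := Finset.card_compl_add_card y.support
    rw [Fintype.card_fin] at h6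
    omega
  have h5 : y.supportᶜ.card = 1 := by
    rw [Fintype.card_fin] at h2
    have h6 : y.supportᶜ.card % 13 = 1 := h2
    omega
  obtain ⟨p, hp'⟩ := Finset.card_eq_one.1 h5
  have hmem : ∀ s, y s = s ↔ s = p := by
    intro s
    rw [← Perm.notMem_support, ← Finset.mem_compl, hp', Finset.mem_singleton]
  exact ⟨p, (hmem p).2 rfl, fun s hs h => hs ((hmem s).1 h)⟩

/-- powers of `y` have no other fixed points -/
theorem pow_free {y : Perm Om} (hy : orderOf y = 13) {p : Om} (hfree : ∀ s, s ≠ p → y s ≠ s)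
    {s : Om} (hs : s ≠ p) {i j : ℕ} (hi : i < 13) (hj : j < 13) (hij : (y ^ i) s = (y ^ j) s) :
    i = j := by
  wlog hle : i ≤ j generalizing i j with Hw
  · exact (Hw hj hi hij.symm (by omega)).symm
  by_contra hne
  obtain ⟨e, rfl⟩ := Nat.exists_eq_add_of_le hle
  have h1 : (y ^ e) s = s := by
    rw [pow_add, Perm.mul_apply] at hij
    exact ((y ^ i).injective hij).symm
  have hco : Nat.Coprime e 13 := by
    rw [Nat.coprime_comm, Nat.Prime.coprime_iff_not_dvd (by norm_num)]
    intro h
    have := Nat.le_of_dvd (by omega) h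
    omega
  rw [← hy] at hco
  obtain ⟨m, hm⟩ := exists_pow_eq_self_of_coprime hco
  have h2 : y s = s := by
    have h3 : ((y ^ e) ^ m) s = s := by
      rw [← Perm.iterate_eq_pow]
      exact Function.iterate_fixed h1 m
    rwa [hm] at h3
  exact hfree s hs h2

/-- the commutator of two involutions whose supports meet in one point -/
theorem comm_three {g g' : Perm Om} (hg : g * g = 1) (hg' : g' * g' = 1) {p : Om} (hp : g p ≠ p)
    (hp' : g' p ≠ p) (hd : ∀ x, x ≠ p → g x ≠ x → g' x = x) :
    (g * g' * g * g').IsThreeCycle := by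
  have G : ∀ x, g (g x) = x := fun x => by
    have := congrArg (fun s : Perm Om => s x) hg
    exact this
  have G' : ∀ x, g' (g' x) = x := fun x => by
    have := congrArg (fun s : Perm Om => s x) hg'
    exact this
  have hd' : ∀ x, x ≠ p → g' x ≠ x → g x = x := fun x hx h => by
    by_contra h2
    exact h (hd x hx h2)
  have hgq : g (g p) ≠ g p := fun h => hp (g.injective h)
  have hgr : g' (g' p) ≠ g' p := fun h => hp' (g'.injective h)
  have hq : g' (g p) = g p := hd _ hp hgq
  have hr : g (g' p) = g' p := hd' _ hp' hgr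
  have hqr : g p ≠ g' p := by
    intro h
    apply hp'
    have h2 := G p
    rw [h, hr] at h2
    exact h2
  have e : g * g' * g * g' = swap p (g' p) * swap p (g p) := by
    ext1 x
    show g (g' (g (g' x))) = swap p (g' p) (swap p (g p) x)
    by_cases h1 : x = p
    · subst h1
      rw [swap_apply_left, hr, G', swap_apply_of_ne_of_ne hp hqr]
    · by_cases h2 : x = g p
      · subst h2
        rw [hq, G, hr, swap_apply_right, swap_apply_left]
      · by_cases h3 : x = g' p
        · subst h3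
          rw [G', hq, G, swap_apply_of_ne_of_ne hp' hqr.symm, swap_apply_right]
        · rw [swap_apply_of_ne_of_ne h1 h2, swap_apply_of_ne_of_ne h1 h3]
          by_cases h4 : g x = x
          · by_cases h5 : g' x = x
            · rw [h5, h4, h5, h4]
            · have h6 : g' x ≠ p := fun h => h3 (by rw [← h, G'])
              have h7 : g (g' x) = g' x := hd' _ h6 (fun h => h5 (g'.injective h))
              rw [h7, G', h4]
          · have h5 : g' x = x := hd x h1 h4
            have h6 : g x ≠ p := fun h => h2 (by rw [← h, G])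
            have h7 : g' (g x) = g x := hd _ h6 (fun h => h4 (g.injective h))
            rw [h5, h7, G]
  rw [e]
  exact Perm.isThreeCycle_swap_mul_swap_same hp'.symm hp.symm hqr.symm

end EVEN

open EVEN

theorem h_EVEN (hJ : S_JCYC) : S_EVEN := by
  classical
  intro H hT hA h1024
  obtain ⟨k, hk⟩ := exists_conj H hA h1024
  obtain ⟨y, hyH, hy⟩ := exists_y H hT
  obtain ⟨p, hp, hfree⟩ := fixed y hy
  -- a point moved by the conjugate
  obtain ⟨x, hx⟩ : ∃ x, (k⁻¹ * t0 * k) x ≠ x := by
    by_contra hno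
    push Not at hno
    have h1 : k⁻¹ * t0 * k = 1 := by
      ext1 x
      exact hno x
    have h2 : t0 = 1 := by
      have h3 : t0 = k * (k⁻¹ * t0 * k) * k⁻¹ := by group
      rw [h3, h1]
      group
    exact t0_ne h2
  obtain ⟨h, hh, hhx, -⟩ := hT x ((k⁻¹ * t0 * k) x) p (if p = 0 then 1 else 0) (Ne.symm hx) (by
    split_ifs with h0
    · rw [h0]
      decide
    · exact h0)
  set g : Perm Om := h * (k⁻¹ * t0 * k) * h⁻¹ with hgdef
  have hgH : g ∈ H := H.mul_mem (H.mul_mem hh hk) (H.inv_mem hh)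
  have hgsq : g * g = 1 := by
    have e : g * g = h * k⁻¹ * (t0 * t0) * k * h⁻¹ := by
      rw [hgdef]
      group
    rw [e, t0_sq]
    group
  have hgp : g p ≠ p := by
    have h1 : h⁻¹ p = x := by
      rw [Perm.inv_eq_iff_eq]
      exact hhx.symm
    intro h2
    have h3 : h ((k⁻¹ * t0 * k) (h⁻¹ p)) = p := h2
    rw [h1, ← hhx] at h3
    exact hx (h.injective h3)
  have hgc : g.support.card = 4 := by
    have e : g = (h * k⁻¹) * t0 * (h * k⁻¹)⁻¹ := by
      rw [hgdef]
      group
    rw [e, Perm.card_support_conj, t0_supp]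
  set S : Finset Om := g.support.erase p with hS
  have hSc : S.card = 3 := by
    rw [hS, Finset.card_erase_of_mem (Perm.mem_support.2 hgp), hgc]
  have hSm : ∀ s, s ∈ S ↔ s ≠ p ∧ g s ≠ s := fun s => by
    rw [hS, Finset.mem_erase, Perm.mem_support]
  -- a good power
  obtain ⟨i, hi0, hi13, hi⟩ : ∃ i : ℕ, 0 < i ∧ i < 13 ∧ ∀ s ∈ S, (y ^ i) s ∉ S := by
    by_contra hno
    push Not at hno
    choose! F hF using fun (i : ℕ) (hi0 : 0 < i) (hi13 : i < 13) => hno i hi0 hi13
    have hmaps : ∀ i ∈ Finset.Ico 1 13, (F i, (y ^ i) (F i)) ∈ S.offDiag := by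
      intro i hi
      rw [Finset.mem_Ico] at hi
      have h1 := hF i (by omega) hi.2
      rw [Finset.mem_offDiag]
      refine ⟨h1.1, h1.2, fun h2 => ?_⟩
      have h3 : (y ^ i) (F i) = (y ^ 0) (F i) := by
        have h4 : F i = (y ^ i) (F i) := h2
        rw [← h4]
        rfl
      have := pow_free hy hfree ((hSm _).1 h1.1).1 hi.2 (by norm_num) h3
      omega
    have hinj : Set.InjOn (fun i => (F i, (y ^ i) (F i))) (Finset.Ico 1 13 : Finset ℕ) := by
      intro i hi j hj hij
      rw [Finset.mem_coe, Finset.mem_Ico] at hi hj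
      have h1 : F i = F j := congrArg Prod.fst hij
      have h2 : (y ^ i) (F i) = (y ^ j) (F j) := congrArg Prod.snd hij
      rw [← h1] at h2
      exact pow_free hy hfree ((hSm _).1 (hF i (by omega) hi.2).1).1 hi.2 hj.2 h2
    have h1 := Finset.card_le_card_of_injOn _ hmaps hinj
    rw [Finset.offDiag_card, hSc, Nat.card_Ico] at h1
    omega
  set g' : Perm Om := y ^ i * g * (y ^ i)⁻¹ with hg'def
  have hg'H : g' ∈ H := H.mul_mem (H.mul_mem (H.pow_mem hyH i) hgH) (H.inv_mem (H.pow_mem hyH i))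
  have hg'sq : g' * g' = 1 := by
    have e : g' * g' = y ^ i * (g * g) * (y ^ i)⁻¹ := by
      rw [hg'def]
      group
    rw [e, hgsq]
    group
  have hyp : (y ^ i) p = p := by
    rw [← Perm.iterate_eq_pow]
    exact Function.iterate_fixed hp i
  have hyp' : (y ^ i)⁻¹ p = p := by
    rw [Perm.inv_eq_iff_eq, hyp]
  have hg'p : g' p ≠ p := by
    intro h1
    have h2 : (y ^ i) (g ((y ^ i)⁻¹ p)) = p := h1
    rw [hyp'] at h2
    have h3 : (y ^ i) (g p) = (y ^ i) p := by rw [h2, hyp]
    exact hgp ((y ^ i).injective h3)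
  have hd : ∀ x, x ≠ p → g x ≠ x → g' x = x := by
    intro x hx hgx
    by_contra h1
    have h2 : x ∈ S := (hSm x).2 ⟨hx, hgx⟩
    have h3 : (y ^ i)⁻¹ x ∈ S := by
      rw [hSm]
      refine ⟨fun h4 => ?_, fun h4 => ?_⟩
      · apply hx
        rw [Perm.inv_eq_iff_eq, hyp] at h4
        exact h4
      · apply h1
        show (y ^ i) (g ((y ^ i)⁻¹ x)) = x
        rw [h4, app_inv]
    have h4 := hi _ h3
    rw [app_inv] at h4
    exact h4 h2
  have h3c := comm_three hgsq hg'sq hgp hg'p hd
  refine hJ H hT ⟨g * g' * g * g', ?_, h3c.isCycle, Or.inl h3c.card_support⟩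
  exact H.mul_mem (H.mul_mem (H.mul_mem hgH hg'H) hgH) hg'H

end Pool.Agent.H330.A14
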