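import Pool.Agent.H330.A14.Spec

/-!
# FIVE: a doubly transitive group of degree 14 and order divisible by 5 (helper154, for helper330)
-/

set_option autoImplicit false

namespace Pool.Agent.H330.A14

open Equiv

namespace FIVE

theorem conj_sylow (p : ℕ) [Fact p.Prime] (S : Subgroup (Perm Om)) (g1 g2 : Perm Om) (h1 : g1 ∈ S)
    (h2 : g2 ∈ S) (o1 : orderOf g1 = p) (o2 : orderOf g2 = p) (hS : ¬ p ^ 2 ∣ Nat.card S) :
    ∃ s ∈ S, s * g2 * s⁻¹ ∈ Subgroup.zpowers g1 := by
  have hp : p.Prime := Fact.out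
  have hc : (Nat.card S).factorization p = 1 := by
    have hd : p ∣ Nat.card S := by
      have := orderOf_dvd_natCard (⟨g1, h1⟩ : S)
      rwa [Subgroup.orderOf_mk, o1] at this
    have hne : Nat.card S ≠ 0 := Nat.card_pos.ne'
    have ha : 1 ≤ (Nat.card S).factorization p :=
      (hp.pow_dvd_iff_le_factorization hne).1 (by rwa [pow_one])
    have hb : ¬ 2 ≤ (Nat.card S).factorization p := fun h =>
      hS ((hp.pow_dvd_iff_le_factorization hne).2 h)
    omega
  let P1 : Sylow p S := Sylow.ofCard (Subgroup.zpowers (⟨g1, h1⟩ : S))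
    (by rw [Nat.card_zpowers, Subgroup.orderOf_mk, o1, hc, pow_one])
  let P2 : Sylow p S := Sylow.ofCard (Subgroup.zpowers (⟨g2, h2⟩ : S))
    (by rw [Nat.card_zpowers, Subgroup.orderOf_mk, o2, hc, pow_one])
  obtain ⟨s, hs⟩ := MulAction.exists_smul_eq S P2 P1
  refine ⟨s, s.2, ?_⟩
  have hm : s * ⟨g2, h2⟩ * s⁻¹ ∈ Subgroup.zpowers (⟨g1, h1⟩ : S) := by
    have h3 : MulAut.conj s (⟨g2, h2⟩ : S) ∈ ((s • P2 : Sylow p S) : Subgroup S) := by
      rw [Sylow.coe_subgroup_smul]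
      exact Subgroup.smul_mem_pointwise_smul _ _ _ (Subgroup.mem_zpowers _)
    rw [hs] at h3
    exact h3
  obtain ⟨m, hm⟩ := Subgroup.mem_zpowers_iff.1 hm
  rw [Subgroup.mem_zpowers_iff]
  refine ⟨m, ?_⟩
  have := congrArg Subtype.val hm
  exact this

theorem dvd15 (d : ℕ) (h1 : d ∣ 15) (h2 : d ≤ 14) : d ∣ 3 ∨ d ∣ 5 := by
  interval_cases d <;> revert h1 <;> decide

theorem moves (g h : Perm Om) (hg : g ^ 5 = 1) (hh : h ^ 3 = 1) (hc : Commute h g) (x : Om)
    (hx : g x ≠ x) : h x = x := by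
  have hw15 : (h * g) ^ 15 = 1 := by
    rw [hc.mul_pow]
    have e1 : h ^ 15 = 1 := by rw [show 15 = 3 * 5 from rfl, pow_mul, hh, one_pow]
    have e2 : g ^ 15 = 1 := by rw [show 15 = 5 * 3 from rfl, pow_mul, hg, one_pow]
    rw [e1, e2, one_mul]
  have h14 : Function.minimalPeriod (h * g) x ≤ 14 := by
    have := Function.minimalPeriod_le_card (f := (h * g : Perm Om)) (x := x)
    rwa [Fintype.card_fin] at this
  have hdvd : Function.minimalPeriod (h * g) x ∣ 15 := by
    apply Function.IsPeriodicPt.minimalPeriod_dvd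
    show ((h * g : Perm Om))^[15] x = x
    rw [Equiv.Perm.iterate_eq_pow, hw15]
    rfl
  have hper : ∀ n, Function.minimalPeriod (h * g) x ∣ n → ((h * g) ^ n) x = x := by
    intro n hn
    rw [← Equiv.Perm.iterate_eq_pow]
    exact Function.isPeriodicPt_iff_minimalPeriod_dvd.2 hn
  rcases dvd15 _ hdvd h14 with h3 | h5
  · exfalso
    apply hx
    have h3' := hper 3 h3
    rw [hc.mul_pow, hh, one_mul] at h3'
    have h6 : (g ^ 6) x = x := by
      rw [show 6 = 3 + 3 from rfl, pow_add, Perm.mul_apply, h3', h3']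
    have h6' : g ^ 6 = g := by rw [show 6 = 5 + 1 from rfl, pow_add, hg, one_mul, pow_one]
    rw [h6'] at h6
    exact h6
  · have h5' := hper 5 h5
    rw [hc.mul_pow, hg, mul_one] at h5'
    have e5 : h ^ 5 = h ^ 2 := by rw [show 5 = 3 + 2 from rfl, pow_add, hh, one_mul]
    rw [e5] at h5'
    have h4 : (h ^ 4) x = x := by
      rw [show 4 = 2 + 2 from rfl, pow_add, Perm.mul_apply, h5', h5']
    have h4' : h ^ 4 = h := by rw [show 4 = 3 + 1 from rfl, pow_add, hh, one_mul, pow_one]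
    rw [h4'] at h4
    exact h4

theorem mod5 (r : ℕ) (h : 1 ≡ r * (r * r) [MOD 5]) : r % 5 = 1 := by
  have h1 : (r % 5) * ((r % 5) * (r % 5)) % 5 = 1 := by
    have h2 : (r % 5) * ((r % 5) * (r % 5)) ≡ r * (r * r) [MOD 5] :=
      (Nat.mod_modEq r 5).mul ((Nat.mod_modEq r 5).mul (Nat.mod_modEq r 5))
    exact (h2.trans h.symm)
  have h3 : r % 5 < 5 := Nat.mod_lt _ (by norm_num)
  generalize r % 5 = t at h1 h3
  interval_cases t <;> revert h1 <;> decide

theorem comm (g h : Perm Om) (ho : orderOf g = 5) (hh : h ^ 3 = 1)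
    (hn : h * g * h⁻¹ ∈ Subgroup.zpowers g) : Commute h g := by
  obtain ⟨r, hr⟩ : ∃ r : ℕ, g ^ r = h * g * h⁻¹ :=
    Submonoid.mem_powers_iff _ _ |>.1 (mem_powers_iff_mem_zpowers.2 hn)
  have key : ∀ m : ℕ, h * g ^ m * h⁻¹ = g ^ (r * m) := by
    intro m
    rw [pow_mul, hr, conj_pow]
  have h3 : h ^ 3 * g * (h ^ 3)⁻¹ = g ^ (r * (r * r)) := by
    rw [← key, ← key, hr, pow_succ, pow_two, mul_inv_rev, mul_inv_rev]
    simp only [mul_assoc]
  rw [hh, one_mul, inv_one, mul_one] at h3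
  have h4 : 1 ≡ r * (r * r) [MOD 5] := by
    have h5 : g ^ 1 = g ^ (r * (r * r)) := by rw [pow_one]; exact h3
    rw [pow_eq_pow_iff_modEq, ho] at h5
    exact h5
  have h6 : g ^ r = g := by
    rw [← pow_mod_orderOf, ho, mod5 r h4, pow_one]
  rw [h6] at hr
  show h * g = g * h
  nth_rewrite 2 [hr]
  group

theorem order_conj (g k : Perm Om) : orderOf (k * g * k⁻¹) = orderOf g :=
  orderOf_injective (MulAut.conj k).toMonoidHom (MulAut.conj k).injective g

instance : Fact (Nat.Prime 5) := ⟨by norm_num⟩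

instance : Fact (Nat.Prime 3) := ⟨by norm_num⟩

theorem witt (H : Subgroup (Perm Om)) (hT : TwoTrans H) (h25 : ¬ 25 ∣ Nat.card H) (g : Perm Om)
    (hgH : g ∈ H) (ho : orderOf g = 5) (a b c : Om) (ha : g a = a) (hb : g b = b) (hc : g c = c)
    (hab : a ≠ b) (hac : a ≠ c) :
    ∃ n ∈ H, n a = a ∧ n b = c ∧ n * g * n⁻¹ ∈ Subgroup.zpowers g := by
  obtain ⟨k, hkH, hka, hkb⟩ := hT a b a c hab hac
  have hka' : k⁻¹ a = a := by rw [Perm.inv_eq_iff_eq, hka]
  have hkb' : k⁻¹ c = b := by rw [Perm.inv_eq_iff_eq, hkb]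
  let S : Subgroup (Perm Om) :=
    H ⊓ MulAction.stabilizer (Perm Om) a ⊓ MulAction.stabilizer (Perm Om) c
  have hS1 : g ∈ S := ⟨⟨hgH, ha⟩, hc⟩
  have hS2 : k * g * k⁻¹ ∈ S := by
    refine ⟨⟨H.mul_mem (H.mul_mem hkH hgH) (H.inv_mem hkH), ?_⟩, ?_⟩
    · show (k * g * k⁻¹) a = a
      rw [Perm.mul_apply, Perm.mul_apply, hka', ha, hka]
    · show (k * g * k⁻¹) c = c
      rw [Perm.mul_apply, Perm.mul_apply, hkb', hb, hkb]
  have hS25 : ¬ 5 ^ 2 ∣ Nat.card S := fun h =>
    h25 (h.trans (Subgroup.card_dvd_of_le (inf_le_left.trans inf_le_left)))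
  obtain ⟨s, hs, hsg⟩ := conj_sylow 5 S g (k * g * k⁻¹) hS1 hS2 ho
    (by rw [order_conj, ho]) hS25
  have hsa : s a = a := hs.1.2
  have hsc : s c = c := hs.2
  refine ⟨s * k, H.mul_mem hs.1.1 hkH, ?_, ?_, ?_⟩
  · rw [Perm.mul_apply, hka, hsa]
  · rw [Perm.mul_apply, hkb, hsc]
  · have e : s * k * g * (s * k)⁻¹ = s * (k * g * k⁻¹) * s⁻¹ := by group
    rw [e]
    exact hsg

theorem zpowers_fix {g n : Perm Om} (hn : n ∈ Subgroup.zpowers g) {x : Om} (hx : g x = x) :
    n x = x := by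
  have h1 : Subgroup.zpowers g ≤ MulAction.stabilizer (Perm Om) x := by
    rw [Subgroup.zpowers_le]
    exact hx
  exact h1 hn

theorem caseB (hJ : S_JCYC) (H : Subgroup (Perm Om)) (hT : TwoTrans H) (h25 : ¬ 25 ∣ Nat.card H)
    (g : Perm Om) (hgH : g ∈ H) (ho : orderOf g = 5) : Alt ≤ H := by
  have hg5 : g ^ 5 = 1 := by rw [← ho]; exact pow_orderOf_eq_one g
  have hpr : (orderOf g).Prime := by rw [ho]; norm_num
  obtain ⟨n, hn⟩ := Equiv.Perm.cycleType_prime_order hpr
  have hsum : (n + 1) * 5 = g.support.card := by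
    rw [← g.sum_cycleType, hn, Multiset.sum_replicate, ho, smul_eq_mul]
  have hle : g.support.card ≤ 14 := by
    have := Finset.card_le_univ g.support
    rwa [Fintype.card_fin] at this
  rcases Nat.eq_zero_or_pos n with h0 | h0
  · subst h0
    have hcy : g.IsCycle := Equiv.Perm.isCycle_of_prime_order hpr (by rw [ho]; omega)
    exact hJ H hT ⟨g, hgH, hcy, Or.inr (Or.inl (by omega))⟩
  have h10 : g.support.card = 10 := by omega
  have hF : (Finset.univ.filter fun x : Om => g x = x).card = 4 := by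
    have e : (Finset.univ.filter fun x : Om => g x = x) = g.supportᶜ := by
      ext x
      simp
    rw [e, Finset.card_compl, h10, Fintype.card_fin]
  obtain ⟨a, ha⟩ : ∃ a, a ∈ Finset.univ.filter fun x : Om => g x = x :=
    Finset.card_pos.1 (by rw [hF]; norm_num)
  have ha' : g a = a := (Finset.mem_filter.1 ha).2
  have hT3 : ((Finset.univ.filter fun x : Om => g x = x).erase a).card = 3 := by
    rw [Finset.card_erase_of_mem ha, hF]
  obtain ⟨b, hb⟩ : ∃ b, b ∈ (Finset.univ.filter fun x : Om => g x = x).erase a :=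
    Finset.card_pos.1 (by rw [hT3]; norm_num)
  have hba : b ≠ a := (Finset.mem_erase.1 hb).1
  have hb' : g b = b := (Finset.mem_filter.1 (Finset.mem_erase.1 hb).2).2
  let N : Subgroup (Perm Om) := H ⊓ MulAction.stabilizer (Perm Om) a ⊓
    Subgroup.normalizer (Subgroup.zpowers g : Set (Perm Om))
  have horb : MulAction.orbit N b =
      (((Finset.univ.filter fun x : Om => g x = x).erase a : Finset Om) : Set Om) := by
    ext c
    rw [Finset.mem_coe, Finset.mem_erase, Finset.mem_filter]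
    constructor
    · rintro ⟨⟨m, hm⟩, hc⟩
      have hc' : m b = c := hc
      have hma : m a = a := hm.1.2
      refine ⟨fun h => hba ?_, Finset.mem_univ _, ?_⟩
      · rw [h, ← hma] at hc'
        exact m.injective hc'
      · have h1 : m⁻¹ * g * m ∈ Subgroup.zpowers g :=
          (Subgroup.mem_normalizer_iff''.1 hm.2 g).1 (Subgroup.mem_zpowers g)
        have h2 := zpowers_fix h1 hb'
        rw [Perm.mul_apply, Perm.mul_apply, Perm.inv_eq_iff_eq, hc'] at h2
        exact h2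
    · rintro ⟨hca, -, hcg⟩
      obtain ⟨m, hmH, hma, hmb, hmg⟩ := witt H hT h25 g hgH ho a b c ha' hb' hcg (Ne.symm hba)
        (Ne.symm hca)
      refine ⟨⟨m, ⟨⟨hmH, hma⟩, ?_⟩⟩, hmb⟩
      apply Subgroup.mem_normalizer_fintype
      intro y hy
      obtain ⟨i, rfl⟩ := Subgroup.mem_zpowers_iff.1 hy
      have e : m * g ^ i * m⁻¹ = (m * g * m⁻¹) ^ i := by
        rw [conj_zpow]
      rw [e]
      exact Subgroup.zpow_mem _ hmg i
  have h3 : 3 ∣ Nat.card N := by
    have h1 := MulAction.index_stabilizer N b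
    rw [horb, Set.ncard_coe_finset, hT3] at h1
    rw [← h1]
    exact Subgroup.index_dvd_card _
  obtain ⟨⟨h, hhN⟩, hoh⟩ := exists_prime_orderOf_dvd_card' 3 h3
  rw [Subgroup.orderOf_mk] at hoh
  have hh3 : h ^ 3 = 1 := by rw [← hoh]; exact pow_orderOf_eq_one h
  have hnorm : h * g * h⁻¹ ∈ Subgroup.zpowers g :=
    (Subgroup.mem_normalizer_iff.1 hhN.2 g).1 (Subgroup.mem_zpowers g)
  have hcomm := comm g h ho hh3 hnorm
  have hsup : h.support ⊆ Finset.univ.filter fun x : Om => g x = x := by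
    intro x hx
    rw [Perm.mem_support] at hx
    refine Finset.mem_filter.2 ⟨Finset.mem_univ _, ?_⟩
    by_contra hgx
    exact hx (moves g h hg5 hh3 hcomm x hgx)
  have hcard := Finset.card_le_card hsup
  rw [hF] at hcard
  have hcy : h.IsCycle := Equiv.Perm.isCycle_of_prime_order (by rw [hoh]; norm_num)
    (by rw [hoh]; omega)
  exact hJ H hT ⟨h, hhN.1.1, hcy, Or.inl (by rw [← hcy.orderOf, hoh])⟩

/-- the 5-cycle `(0 1 2 3 4)` -/
def c5 : Perm Om :=
  ⟨![1, 2, 3, 4, 0, 5, 6, 7, 8, 9, 10, 11, 12, 13],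
   ![4, 0, 1, 2, 3, 5, 6, 7, 8, 9, 10, 11, 12, 13], by decide, by decide⟩

theorem c5_order : orderOf c5 = 5 := orderOf_eq_prime (by decide) (by decide)

theorem c5_card : c5.support.card = 5 := by decide

theorem c5_cycle : c5.IsCycle := by
  apply Equiv.Perm.isCycle_of_prime_order
  · rw [c5_order]
    norm_num
  · rw [c5_order, c5_card]
    norm_num

theorem fac5 : (Nat.card (Perm Om)).factorization 5 = 2 := by
  have hp : (5 : ℕ).Prime := by norm_num
  have hne : Nat.card (Perm Om) ≠ 0 := Nat.card_pos.ne'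
  have hc : Nat.card (Perm Om) = 87178291200 := by
    rw [Nat.card_eq_fintype_card, Fintype.card_perm, Fintype.card_fin]
    rfl
  have h1 : 2 ≤ (Nat.card (Perm Om)).factorization 5 :=
    (hp.pow_dvd_iff_le_factorization hne).1 (by rw [hc]; norm_num)
  have h2 : ¬ 3 ≤ (Nat.card (Perm Om)).factorization 5 := fun h => by
    have := (hp.pow_dvd_iff_le_factorization hne).2 h
    rw [hc] at this
    norm_num at this
  omega

theorem caseA (hJ : S_JCYC) (H : Subgroup (Perm Om)) (hT : TwoTrans H) (h25 : 25 ∣ Nat.card H) :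
    Alt ≤ H := by
  obtain ⟨K, hK⟩ := Sylow.exists_subgroup_card_pow_prime (G := H) 5 (n := 2) h25
  have hK' : Nat.card (K.map H.subtype) = 5 ^ (Nat.card (Perm Om)).factorization 5 := by
    rw [fac5, ← hK]
    exact (Nat.card_congr (K.equivMapOfInjective _ H.subtype_injective).toEquiv).symm
  let P1 : Sylow 5 (Perm Om) := Sylow.ofCard (K.map H.subtype) hK'
  have hpg : IsPGroup 5 (Subgroup.zpowers c5) :=
    IsPGroup.of_card (n := 1) (by rw [Nat.card_zpowers, c5_order, pow_one])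
  obtain ⟨Q, hQ⟩ := hpg.exists_le_sylow
  obtain ⟨s, hs⟩ := MulAction.exists_smul_eq (Perm Om) Q P1
  have h3 : MulAut.conj s c5 ∈ ((s • Q : Sylow 5 (Perm Om)) : Subgroup (Perm Om)) := by
    rw [Sylow.coe_subgroup_smul]
    exact Subgroup.smul_mem_pointwise_smul _ _ _ (hQ (Subgroup.mem_zpowers _))
  rw [hs] at h3
  have h4 : s * c5 * s⁻¹ ∈ H := by
    have h5 : s * c5 * s⁻¹ ∈ K.map H.subtype := h3
    obtain ⟨⟨y, hy⟩, -, hy'⟩ := h5
    have hy'' : y = s * c5 * s⁻¹ := hy'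
    rw [← hy'']
    exact hy
  exact hJ H hT ⟨s * c5 * s⁻¹, h4, c5_cycle.conj, Or.inr (Or.inl (by
    rw [Equiv.Perm.card_support_conj, c5_card]))⟩

end FIVE

open FIVE in
theorem h_FIVE (hJ : S_JCYC) : S_FIVE := by
  intro H hT h5
  by_cases h25 : 25 ∣ Nat.card H
  · exact caseA hJ H hT h25
  · obtain ⟨⟨g, hg⟩, ho⟩ := exists_prime_orderOf_dvd_card' 5 h5
    rw [Subgroup.orderOf_mk] at ho
    exact caseB hJ H hT h25 g hg ho

end Pool.Agent.H330.A14
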