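import Pool.Agent.H330.A14.Spec

set_option autoImplicit false

/-!
# FOUR: four divides the order of a doubly transitive group of degree 14
-/

namespace Pool.Agent.H330.A14

open Equiv

namespace FOUR

/-- A nontrivial normal subgroup of a doubly transitive group is transitive. -/
theorem dvd_card (H : Subgroup (Perm Om)) (hH : TwoTrans H) (K : Subgroup H) (hK : K.Normal)
    (hne : K ≠ ⊥) : 14 ∣ Nat.card K := by
  obtain ⟨k, hk, hk1⟩ : ∃ k ∈ K, k ≠ 1 := by
    by_contra hcon
    push Not at hcon
    exact hne ((Subgroup.eq_bot_iff_forall K).2 hcon)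
  obtain ⟨x, hx⟩ : ∃ x : Om, (k : Perm Om) x ≠ x := by
    by_contra hcon
    push Not at hcon
    apply hk1
    apply Subtype.ext
    ext a
    rw [hcon a]
    rfl
  have horb : MulAction.orbit K x = Set.univ := by
    rw [Set.eq_univ_iff_forall]
    intro y
    by_cases hyx : y = x
    · rw [hyx]
      exact MulAction.mem_orbit_self x
    · obtain ⟨h, hh, h1, h2⟩ := hH x ((k : Perm Om) x) x y (Ne.symm hx) (Ne.symm hyx)
      refine ⟨⟨(⟨h, hh⟩ : H) * k * (⟨h, hh⟩ : H)⁻¹, hK.conj_mem k hk _⟩, ?_⟩
      show (h * (k : Perm Om) * h⁻¹) x = y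
      have h3 : h⁻¹ x = x := by
        rw [Perm.inv_eq_iff_eq, h1]
      rw [Perm.mul_apply, Perm.mul_apply, h3, h2]
  have h1 := MulAction.index_stabilizer K x
  rw [horb, Set.ncard_univ] at h1
  have h2 := (MulAction.stabilizer K x).index_dvd_card
  rw [h1] at h2
  simpa using h2

end FOUR

theorem h_FOUR : S_FOUR := by
  intro H hH
  by_contra h4
  have hnt : (⊤ : Subgroup H) ≠ ⊥ := by
    intro htop
    obtain ⟨h, hh, h1, -⟩ := hH 0 1 1 0 (by decide) (by decide)
    have h2 : (⟨h, hh⟩ : H) ∈ (⊥ : Subgroup H) := by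
      rw [← htop]
      exact Subgroup.mem_top _
    rw [Subgroup.mem_bot] at h2
    have h3 : h = 1 := congrArg Subtype.val h2
    rw [h3] at h1
    exact absurd h1 (by decide)
  have h14 : 14 ∣ Nat.card H := by
    have := FOUR.dvd_card H hH ⊤ inferInstance hnt
    rwa [Subgroup.card_top] at this
  have h2 : 2 ∣ Nat.card H := dvd_trans (by norm_num) h14
  have hmin : (Nat.card H).minFac = 2 := (Nat.minFac_eq_two_iff _).2 h2
  have hpos : Nat.card H ≠ 0 := Nat.card_pos.ne'
  have hfac : (Nat.card H).factorization 2 = 1 := by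
    have a1 : 1 ≤ (Nat.card H).factorization 2 :=
      (Nat.Prime.pow_dvd_iff_le_factorization Nat.prime_two hpos).1 (by simpa using h2)
    have a2 : ¬ 2 ≤ (Nat.card H).factorization 2 := fun h =>
      h4 (by simpa using (Nat.Prime.pow_dvd_iff_le_factorization Nat.prime_two hpos).2 h)
    omega
  have : Fact (Nat.Prime 2) := ⟨Nat.prime_two⟩
  let P : Sylow 2 H := default
  have hPc : Nat.card P = 2 := by
    rw [P.card_eq_multiplicity, hfac, pow_one]
  have hcyc : IsCyclic P := isCyclic_of_prime_card hPc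
  have hcompl := IsCyclic.isComplement' hmin hcyc
  have hmul := hcompl.card_mul_card
  set K := (MonoidHom.transferSylow P (hcyc.normalizer_le_centralizer hmin)).ker with hKdef
  have hmul2 : Nat.card K * 2 = Nat.card H := by
    rw [← hmul]
    congr 1
    exact hPc.symm
  have hKne : K ≠ ⊥ := by
    intro hb
    rw [hb, Subgroup.card_bot] at hmul2
    omega
  have hK14 := FOUR.dvd_card H hH K inferInstance hKne
  apply h4
  rw [← hmul2]
  obtain ⟨c, hc⟩ := hK14
  rw [hc]
  exact ⟨7 * c, by ring⟩

end Pool.Agent.H330.A14
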