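import Pool.Agent.H330.A14.Main

/-!
# Uniform domination number of `A_14`: the two bounds
-/

namespace Pool.Agent.H330.A14

open Equiv

lemma closure_top {x s : alternatingGroup (Fin 14)}
    (h : Subgroup.closure {(x : Perm Om), (s : Perm Om)} = Alt) :
    Subgroup.closure {x, s} = ⊤ := by
  have h1 : (Subgroup.closure {x, s}).map (alternatingGroup (Fin 14)).subtype =
      (⊤ : Subgroup (alternatingGroup (Fin 14))).map (alternatingGroup (Fin 14)).subtype := by
    rw [MonoidHom.map_closure, Set.image_pair, ← MonoidHom.range_eq_map, Subgroup.range_subtype]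
    exact h
  exact Subgroup.map_injective (Subgroup.subtype_injective _) h1

/-- the uniform domination number of `A_14` is at most four -/
theorem gamma_le (hd : ∀ x ∈ Alt, x ≠ 1 → ∃ i, Subgroup.closure {x, ss i} = Alt) :
    gammaU (alternatingGroup (Fin 14)) ≤ 4 := by
  classical
  let S : Finset (alternatingGroup (Fin 14)) :=
    Finset.univ.image (fun i : Fin 4 => (⟨ss i, ss_alt i⟩ : alternatingGroup (Fin 14)))
  have hcard : S.card ≤ 4 := (Finset.card_image_le).trans (by simp)
  refine le_trans (Nat.sInf_le ⟨S, rfl, ⟨?_, ?_⟩, ?_⟩) hcard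
  · intro s hs
    obtain ⟨i, -, rfl⟩ := Finset.mem_image.1 hs
    intro h
    have h1 : ss i = 1 := congrArg Subtype.val h
    have h2 : s0 = 1 := by
      have := congrArg (fun z => (lab i)⁻¹ * z * lab i) h1
      simpa [ss, mul_assoc] using this
    exact absurd h2 (by decide)
  · intro x hx
    obtain ⟨i, hi⟩ := hd x.1 x.2 (fun h => hx (Subtype.ext h))
    exact ⟨⟨ss i, ss_alt i⟩, Finset.mem_image.2 ⟨i, Finset.mem_univ _, rfl⟩, closure_top hi⟩
  · intro s hs t ht
    obtain ⟨i, -, rfl⟩ := Finset.mem_image.1 hs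
    obtain ⟨j, -, rfl⟩ := Finset.mem_image.1 ht
    rw [isConj_iff]
    refine ⟨⟨lab j, lab_alt j⟩ * ⟨lab i, lab_alt i⟩⁻¹, Subtype.ext ?_⟩
    simp only [ss, Subgroup.coe_mul, Subgroup.coe_inv, mul_inv_rev, inv_inv]
    group

lemma isBase_all : IsBase 14 5 (Finset.univ.powersetCard 5) := by
  refine ⟨fun b hb => (Finset.mem_powersetCard.1 hb).2, fun g _ hfix => ?_⟩
  by_contra hne
  obtain ⟨a, ha⟩ : ∃ a, g a ≠ a := by
    by_contra h; push Not at h; exact hne (Equiv.ext h)
  obtain ⟨b, hb1, hb2, hb3⟩ := Finset.exists_subsuperset_card_eq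
    (s := {a}) (t := Finset.univ \ {g a}) (n := 5)
    (by simpa using fun h => ha h.symm) (by simp)
    (by rw [Finset.card_sdiff_of_subset (by simp)]; simp)
  have := hfix b (Finset.mem_powersetCard.2 ⟨Finset.subset_univ _, hb3⟩)
  have h1 : g a ∈ b := by
    rw [← this]
    exact Finset.mem_map.2 ⟨a, hb1 (by simp), rfl⟩
  have h2 := hb2 h1
  simp at h2

/-- the base size of `A_14` on 5-subsets is at least five -/
theorem base_ge (hB : S_BASE) : 5 ≤ baseSize 14 5 := by
  refine le_csInf ⟨_, _, rfl, isBase_all⟩ ?_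
  rintro c ⟨B, rfl, hB1, hB2⟩
  by_contra hlt
  obtain ⟨g, hg, hg1, hfix⟩ := hB B hB1 (by omega)
  exact hg1 (hB2 g hg hfix)

/-- final form, from the two bounds -/
theorem final (h1 : gammaU (alternatingGroup (Fin 14)) ≤ 4) (h2 : 5 ≤ baseSize 14 5) :
    (gammaU (alternatingGroup (Fin 14)) ≤ 4 ∧ 5 ≤ baseSize 14 5) ∧
    ¬ ∀ m k : ℕ, 4 ≤ m → IsGreatest {j | Odd j ∧ j < m} k →
      gammaU (alternatingGroup (Fin (2 * m))) = baseSize (2 * m) k := by
  refine ⟨⟨h1, h2⟩, fun h => ?_⟩
  have := h 7 5 (by norm_num) ⟨⟨by decide, by norm_num⟩, ?_⟩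
  · have h3 : gammaU (alternatingGroup (Fin 14)) = baseSize 14 5 := this
    omega
  · rintro j ⟨hj1, hj2⟩
    by_contra hlt
    have : j = 6 := by omega
    subst this
    exact absurd hj1 (by decide)

end Pool.Agent.H330.A14
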