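import Pool.Agent.H330.A14.Spec

/-!
# Uniform domination number of `A_14`: GRAPH (by helper23)

`idx a b < 13` is the class of the pair `{a, b}` under `s0`; an invariant graph is a 13-bit pattern.
A pattern `p` is refuted if it is not regular, or if it or its complement is disconnected (level 0), or
if the graph of the pairs with the same edge bit and the same number of common neighbours is refuted
(two levels suffice for all 8190 nontrivial patterns).
-/

namespace Pool.Agent.H330.A14

open Equiv

namespace GRAPH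

/-- index of the class of a pair -/
def idx (a b : Om) : ℕ :=
  if a.val < 7 then
    (if b.val < 7 then min ((b.val + 7 - a.val) % 7) (7 - (b.val + 7 - a.val) % 7) - 1
      else 6 + (b.val - a.val) % 7)
  else if b.val < 7 then 6 + (a.val - b.val) % 7
    else 3 + (min ((b.val + 7 - a.val) % 7) (7 - (b.val + 7 - a.val) % 7) - 1)

/-- representatives of the classes -/
def rep : ℕ → Om × Om
  | 0 => (0, 1)
  | 1 => (0, 2)
  | 2 => (0, 3)
  | 3 => (7, 8)
  | 4 => (7, 9)
  | 5 => (7, 10)
  | 6 => (0, 7)
  | 7 => (0, 8)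
  | 8 => (0, 9)
  | 9 => (0, 10)
  | 10 => (0, 11)
  | 11 => (0, 12)
  | _ => (0, 13)

/-- the intermediate points of the classes -/
def TT : List (List ℕ) := [
  [3, 6, 4, 6, 3, 4160, 192, 384, 768, 1536, 3072, 6144],
  [1, 5, 6, 6, 5, 2112, 4224, 320, 640, 1280, 2560, 5120],
  [3, 3, 5, 2, 5, 1088, 2176, 4352, 576, 1152, 2304, 4608],
  [192, 4160, 6144, 3072, 1536, 768, 384, 24, 48, 32, 48, 24],
  [320, 4224, 2112, 5120, 2560, 1280, 640, 8, 40, 48, 48, 40],
  [576, 4352, 2176, 1088, 4608, 2304, 1152, 24, 24, 40, 16, 40],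
  [4097, 2050, 1028, 516, 258, 129, 136, 272, 544, 1056, 2064, 4104],
  [65, 4098, 2052, 1028, 514, 257, 72, 264, 528, 1056, 2080, 4112],
  [129, 66, 4100, 2052, 1026, 513, 80, 136, 520, 1040, 2080, 4128],
  [257, 130, 68, 4100, 2050, 1025, 96, 144, 264, 1032, 2064, 4128],
  [513, 258, 132, 68, 4098, 2049, 96, 160, 272, 520, 2056, 4112],
  [1025, 514, 260, 132, 66, 4097, 80, 160, 288, 528, 1032, 4104],
  [2049, 1026, 516, 260, 130, 65, 72, 144, 288, 544, 1040, 2056]]

/-- number of common neighbours of the representative of a class, from a list of intermediate points -/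
def cnt (p : ℕ) : List ℕ → ℕ
  | [] => 0
  | x :: l => bif Nat.beq (Nat.land p x) x then Nat.succ (cnt p l) else cnt p l

/-- colours of the classes: twice the number of common neighbours plus the bit -/
def col (p : ℕ) : ℕ → List (List ℕ) → List ℕ
  | _, [] => []
  | k, l :: L => (2 * cnt p l + (p.testBit k).toNat) :: col p (k + 1) L

/-- the classes of colour `c` -/
def asm (c : ℕ) : List ℕ → ℕ
  | [] => 0
  | x :: l => (bif Nat.beq x c then 1 else 0) + 2 * asm c l

/-- obvious contradictions -/
def fails (p : ℕ) : Bool :=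
  !(Nat.beq ((p.testBit 0).toNat + (p.testBit 1).toNat + (p.testBit 2).toNat)
    ((p.testBit 3).toNat + (p.testBit 4).toNat + (p.testBit 5).toNat)) ||
  (!(Nat.beq p 0) &&
    [63, 64, 128, 256, 512, 1024, 2048, 4096].any (fun A => Nat.beq (p &&& A) p))

/-- the recursive check -/
def bad : ℕ → ℕ → Bool
  | 0, p => fails p || fails (8191 ^^^ p)
  | n + 1, p => fails p || fails (8191 ^^^ p) ||
      (col p 0 TT).any (fun c => bad n (asm c (col p 0 TT)))

/-- check `2 ^ k` consecutive patterns -/
def chk : ℕ → ℕ → Bool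
  | 0, p => Nat.beq p 0 || Nat.beq p 8191 || bad 1 p || bad 2 p
  | k + 1, p => chk k p && chk k (p + 2 ^ k)

theorem c00 : chk 9 0 = true := by decide +kernel

theorem c01 : chk 9 512 = true := by decide +kernel

theorem c02 : chk 9 1024 = true := by decide +kernel

theorem c03 : chk 9 1536 = true := by decide +kernel

theorem c04 : chk 9 2048 = true := by decide +kernel

theorem c05 : chk 9 2560 = true := by decide +kernel

theorem c06 : chk 9 3072 = true := by decide +kernel

theorem c07 : chk 9 3584 = true := by decide +kernel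

theorem c08 : chk 9 4096 = true := by decide +kernel

theorem c09 : chk 9 4608 = true := by decide +kernel

theorem c10 : chk 9 5120 = true := by decide +kernel

theorem c11 : chk 9 5632 = true := by decide +kernel

theorem c12 : chk 9 6144 = true := by decide +kernel

theorem c13 : chk 9 6656 = true := by decide +kernel

theorem c14 : chk 9 7168 = true := by decide +kernel

theorem c15 : chk 9 7680 = true := by decide +kernel

theorem chk_and (k p : ℕ) (h1 : chk k p = true) (h2 : chk k (p + 2 ^ k) = true) :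
    chk (k + 1) p = true := by
  rw [chk, h1, h2]; rfl

theorem chk_all : chk 13 0 = true :=
  chk_and 12 0
    (chk_and 11 0
      (chk_and 10 0 (chk_and 9 0 c00 c01) (chk_and 9 1024 c02 c03))
      (chk_and 10 2048 (chk_and 9 2048 c04 c05) (chk_and 9 3072 c06 c07)))
    (chk_and 11 4096
      (chk_and 10 4096 (chk_and 9 4096 c08 c09) (chk_and 9 5120 c10 c11))
      (chk_and 10 6144 (chk_and 9 6144 c12 c13) (chk_and 9 7168 c14 c15)))

theorem chk_sound : ∀ k p, chk k p = true → ∀ q, p ≤ q → q < p + 2 ^ k →
    q = 0 ∨ q = 8191 ∨ bad 1 q = true ∨ bad 2 q = true := by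
  intro k
  induction k with
  | zero =>
    intro p h q h1 h2
    obtain rfl : q = p := by
      have : q < p + 1 := by simpa using h2
      omega
    simp only [chk, Bool.or_eq_true, Nat.beq_eq] at h
    tauto
  | succ k ih =>
    intro p h q h1 h2
    simp only [chk, Bool.and_eq_true] at h
    rw [pow_succ] at h2
    by_cases hq : q < p + 2 ^ k
    · exact ih p h.1 q h1 hq
    · exact ih _ h.2 q (by omega) (by omega)

/-- invariant symmetric relations -/
structure Inv (H : Subgroup (Perm Om)) (R : Om → Om → Prop) : Prop where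
  symm : ∀ a b, R a b → R b a
  inv : ∀ h ∈ H, ∀ a b, R a b → R (h a) (h b)

theorem Inv.iff {H : Subgroup (Perm Om)} {R : Om → Om → Prop} (hR : Inv H R) {h : Perm Om}
    (hh : h ∈ H) (a b : Om) : R (h a) (h b) ↔ R a b :=
  ⟨fun k => by simpa using hR.inv h⁻¹ (H.inv_mem hh) _ _ k, hR.inv h hh a b⟩

theorem Inv.comm {H : Subgroup (Perm Om)} {R : Om → Om → Prop} (hR : Inv H R) (a b : Om) :
    R a b ↔ R b a := ⟨hR.symm a b, hR.symm b a⟩

/-- `p` is the bit pattern of `R` -/
def IsPat (p : ℕ) (R : Om → Om → Prop) : Prop :=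
  ∀ a b, a ≠ b → (R a b ↔ p.testBit (idx a b) = true)

theorem to_rep : ∀ a b : Om, a ≠ b → ∃ n : Fin 7,
    ((s0 ^ n.val) a = (rep (idx a b)).1 ∧ (s0 ^ n.val) b = (rep (idx a b)).2) ∨
    ((s0 ^ n.val) b = (rep (idx a b)).1 ∧ (s0 ^ n.val) a = (rep (idx a b)).2) := by
  decide +kernel

theorem Inv.rep {H : Subgroup (Perm Om)} {R : Om → Om → Prop} (hR : Inv H R) (hs : s0 ∈ H)
    (a b : Om) (hab : a ≠ b) : R a b ↔ R (rep (idx a b)).1 (rep (idx a b)).2 := by
  obtain ⟨n, h | h⟩ := to_rep a b hab
  · rw [← h.1, ← h.2, hR.iff (H.pow_mem hs _)]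
  · rw [← h.1, ← h.2, hR.iff (H.pow_mem hs _)]
    exact hR.comm a b

theorem idx_lt : ∀ a b : Om, a ≠ b → idx a b < 13 := by decide +kernel

theorem idx_rep : ∀ k < 13, idx (rep k).1 (rep k).2 = k ∧ (rep k).1 ≠ (rep k).2 := by
  decide +kernel

open Classical in
theorem exists_pat {H : Subgroup (Perm Om)} {R : Om → Om → Prop} (hR : Inv H R) (hs : s0 ∈ H) :
    ∃ p < 8192, IsPat p R := by
  refine ⟨Nat.ofBits (fun k : Fin 13 => decide (R (GRAPH.rep k.val).1 (GRAPH.rep k.val).2)),
    Nat.ofBits_lt_two_pow _, ?_⟩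
  intro a b hab
  rw [Nat.testBit_ofBits_lt _ _ (idx_lt a b hab), hR.rep hs a b hab]
  simp

open Classical in
/-- number of common neighbours -/
noncomputable def NN (R : Om → Om → Prop) (a b : Om) : ℕ :=
  (Finset.univ.filter (fun x => (x ≠ a ∧ x ≠ b) ∧ R a x ∧ R x b)).card

open Classical in
/-- colour of a pair -/
noncomputable def cc (R : Om → Om → Prop) (a b : Om) : ℕ :=
  2 * NN R a b + (decide (R a b)).toNat

theorem NN_inv {H : Subgroup (Perm Om)} {R : Om → Om → Prop} (hR : Inv H R) {h : Perm Om}
    (hh : h ∈ H) (a b : Om) : NN R (h a) (h b) = NN R a b := by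
  classical
  unfold NN
  symm
  refine Finset.card_equiv h ?_
  intro x
  simp only [Finset.mem_filter, Finset.mem_univ, true_and]
  rw [hR.iff hh, hR.iff hh]
  simp

theorem NN_comm {H : Subgroup (Perm Om)} {R : Om → Om → Prop} (hR : Inv H R) (a b : Om) :
    NN R b a = NN R a b := by
  classical
  unfold NN
  congr 1
  ext x
  simp only [Finset.mem_filter, Finset.mem_univ, true_and]
  rw [hR.comm b x, hR.comm x a]
  tauto

theorem cc_inv {H : Subgroup (Perm Om)} {R : Om → Om → Prop} (hR : Inv H R) {h : Perm Om}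
    (hh : h ∈ H) (a b : Om) : cc R (h a) (h b) = cc R a b := by
  classical
  unfold cc
  rw [NN_inv hR hh]
  congr 2
  simp only [decide_eq_decide]
  exact hR.iff hh a b

theorem cc_comm {H : Subgroup (Perm Om)} {R : Om → Om → Prop} (hR : Inv H R) (a b : Om) :
    cc R b a = cc R a b := by
  classical
  unfold cc
  rw [NN_comm hR]
  congr 2
  simp only [decide_eq_decide]
  exact hR.comm b a

theorem Inv.cc {H : Subgroup (Perm Om)} {R : Om → Om → Prop} (hR : Inv H R) (c : ℕ) :
    Inv H (fun a b => cc R a b = c) :=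
  ⟨fun a b h => by rw [cc_comm hR]; exact h, fun h hh a b k => by rw [cc_inv hR hh]; exact k⟩

theorem Inv.compl {H : Subgroup (Perm Om)} {R : Om → Om → Prop} (hR : Inv H R) :
    Inv H (fun a b => ¬ R a b) :=
  ⟨fun a b h k => h (hR.symm _ _ k), fun h hh a b k => by rw [hR.iff hh]; exact k⟩

theorem IsPat.compl {p : ℕ} {R : Om → Om → Prop} (hp : IsPat p R) :
    IsPat (8191 ^^^ p) (fun a b => ¬ R a b) := by
  intro a b hab
  have h1 : (8191 : ℕ).testBit (idx a b) = true := by
    rw [show 8191 = 2 ^ 13 - 1 by norm_num, Nat.testBit_two_pow_sub_one]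
    simpa using idx_lt a b hab
  show ¬ R a b ↔ _
  rw [Nat.testBit_xor, h1, hp a b hab]
  simp

theorem asm_testBit (c : ℕ) : ∀ (l : List ℕ) (k : ℕ) (hk : k < l.length),
    ((asm c l).testBit k = true ↔ l[k] = c) := by
  intro l
  induction l with
  | nil => intro k hk; simp at hk
  | cons x l ih =>
    intro k hk
    cases k with
    | zero =>
      simp only [asm, Nat.testBit_zero, List.getElem_cons_zero]
      by_cases hx : x = c
      · simp [hx]
      · have : Nat.beq x c = false := by
          rw [Bool.eq_false_iff]; intro h; exact hx (Nat.eq_of_beq_eq_true h)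
        simp [this, hx]
    | succ k =>
      have h1 : ((bif Nat.beq x c then 1 else 0) + 2 * asm c l) / 2 = asm c l := by
        cases Nat.beq x c <;> simp <;> omega
      simp only [asm, Nat.testBit_succ, List.getElem_cons_succ]
      rw [h1]
      exact ih k (by simpa using hk)

theorem col_length (p : ℕ) : ∀ (L : List (List ℕ)) (j : ℕ), (col p j L).length = L.length := by
  intro L
  induction L with
  | nil => intro j; rfl
  | cons l L ih => intro j; simp [col, ih]

theorem col_get (p : ℕ) : ∀ (L : List (List ℕ)) (j k : ℕ) (hk : k < L.length),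
    (col p j L)[k]'(by rw [col_length]; exact hk) = 2 * cnt p L[k] + (p.testBit (j + k)).toNat := by
  intro L
  induction L with
  | nil => intro j k hk; simp at hk
  | cons l L ih =>
    intro j k hk
    cases k with
    | zero => simp [col]
    | succ k =>
      simp only [col, List.getElem_cons_succ]
      rw [ih (j + 1) k (by simpa using hk), show j + 1 + k = j + (k + 1) by omega]

theorem TT_eq : ∀ k : Fin 13, TT[k.val]'(by have := k.isLt; simp [TT]) =
    ((List.finRange 14).filter (fun x => decide (x ≠ (rep k.val).1 ∧ x ≠ (rep k.val).2))).map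
      (fun x => 2 ^ idx (rep k.val).1 x ||| 2 ^ idx x (rep k.val).2) := by
  decide +kernel

theorem mask (p i j : ℕ) : Nat.beq (Nat.land p (2 ^ i ||| 2 ^ j)) (2 ^ i ||| 2 ^ j) =
    (p.testBit i && p.testBit j) := by
  rw [Bool.eq_iff_iff, Nat.beq_eq, Bool.and_eq_true]
  constructor
  · intro h
    have h1 := congrArg (fun n => n.testBit i) h
    have h2 := congrArg (fun n => n.testBit j) h
    change (p &&& (2 ^ i ||| 2 ^ j)).testBit i = _ at h1
    change (p &&& (2 ^ i ||| 2 ^ j)).testBit j = _ at h2
    simp only [Nat.testBit_and, Nat.testBit_or, Nat.testBit_two_pow] at h1 h2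
    exact ⟨by simpa using h1, by simpa using h2⟩
  · rintro ⟨h1, h2⟩
    change p &&& (2 ^ i ||| 2 ^ j) = _
    apply Nat.eq_of_testBit_eq
    intro k
    simp only [Nat.testBit_and, Nat.testBit_or, Nat.testBit_two_pow]
    by_cases hi : i = k
    · subst hi; simp [h1]
    · by_cases hj : j = k
      · subst hj; simp [h2]
      · simp [hi, hj]

open Classical in
theorem cnt_eq (p : ℕ) (R : Om → Om → Prop) (hp : IsPat p R) (a b : Om) : ∀ l : List Om,
    cnt p ((l.filter (fun x => decide (x ≠ a ∧ x ≠ b))).map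
      (fun x => 2 ^ idx a x ||| 2 ^ idx x b)) =
      (l.filter (fun x => decide ((x ≠ a ∧ x ≠ b) ∧ R a x ∧ R x b))).length := by
  intro l
  induction l with
  | nil => rfl
  | cons x l ih =>
    by_cases hx : x ≠ a ∧ x ≠ b
    · rw [List.filter_cons_of_pos (by simpa using hx), List.map_cons, cnt, ih, mask]
      by_cases h : R a x ∧ R x b
      · rw [List.filter_cons_of_pos (by simpa using ⟨hx, h⟩)]
        have h1 := (hp a x (Ne.symm hx.1)).1 h.1
        have h2 := (hp x b hx.2).1 h.2
        simp [h1, h2]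
      · rw [List.filter_cons_of_neg (by
          simp only [decide_eq_true_eq]
          exact fun k => h k.2)]
        have : (p.testBit (idx a x) && p.testBit (idx x b)) = false := by
          rw [Bool.eq_false_iff]
          intro k
          rw [Bool.and_eq_true] at k
          exact h ⟨(hp a x (Ne.symm hx.1)).2 k.1, (hp x b hx.2).2 k.2⟩
        simp [this]
    · rw [List.filter_cons_of_neg (by simpa using hx), ih, List.filter_cons_of_neg (by
          simp only [decide_eq_true_eq]
          exact fun k => hx k.1)]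

theorem NN_eq (p : ℕ) (R : Om → Om → Prop) (hp : IsPat p R) (k : ℕ) (hk : k < 13) :
    NN R (rep k).1 (rep k).2 = cnt p (TT[k]'(by simpa [TT] using hk)) := by
  classical
  rw [TT_eq ⟨k, hk⟩, cnt_eq p R hp]
  rfl

theorem IsPat.cc {H : Subgroup (Perm Om)} {p : ℕ} {R : Om → Om → Prop} (hR : Inv H R)
    (hs : s0 ∈ H) (hp : IsPat p R) (c : ℕ) :
    IsPat (asm c (col p 0 TT)) (fun a b => cc R a b = c) := by
  classical
  intro a b hab
  have hk := idx_lt a b hab
  show GRAPH.cc R a b = c ↔ _
  have h0 := (Inv.cc hR c).rep hs a b hab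
  rw [h0]
  set k := idx a b with hkd
  rw [asm_testBit c _ k (by rw [col_length]; simpa [TT] using hk),
    col_get p TT 0 k (by simpa [TT] using hk)]
  unfold GRAPH.cc
  rw [NN_eq p R hp k hk]
  have h1 := hp (GRAPH.rep k).1 (GRAPH.rep k).2 (idx_rep k hk).2
  rw [(idx_rep k hk).1] at h1
  have h2 : decide (R (GRAPH.rep k).1 (GRAPH.rep k).2) = p.testBit (0 + k) := by
    rw [zero_add]
    rw [Bool.eq_iff_iff, decide_eq_true_eq]
    exact h1
  rw [h2]

/-! soundness of the level 0 checks -/

theorem deg_eq {H : Subgroup (Perm Om)} (hT : Trans H) {R : Om → Om → Prop} (hR : Inv H R) :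
    ∀ (p : ℕ), IsPat p R →
    (((List.finRange 14).filter (fun x => decide (x ≠ 0))).map (fun x => (p.testBit (idx 0 x)).toNat)).sum =
    (((List.finRange 14).filter (fun x => decide (x ≠ 7))).map (fun x => (p.testBit (idx 7 x)).toNat)).sum := by
  classical
  intro p hp
  have key : ∀ (a : Om) (l : List Om),
      ((l.filter (fun x => decide (x ≠ a))).map (fun x => (p.testBit (idx a x)).toNat)).sum =
        (l.filter (fun x => decide (x ≠ a ∧ R a x))).length := by
    intro a l
    induction l with
    | nil => rfl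
    | cons x l ih =>
      by_cases hx : x ≠ a
      · rw [List.filter_cons_of_pos (by simpa using hx), List.map_cons, List.sum_cons, ih]
        by_cases h : R a x
        · rw [List.filter_cons_of_pos (by simpa using ⟨hx, h⟩), (hp a x (Ne.symm hx)).1 h]
          simp
          omega
        · rw [List.filter_cons_of_neg (by
            simp only [decide_eq_true_eq]
            exact fun k => h k.2)]
          have : p.testBit (idx a x) = false := by
            rw [Bool.eq_false_iff]
            intro k
            exact h ((hp a x (Ne.symm hx)).2 k)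
          simp [this]
      · rw [List.filter_cons_of_neg (by simpa using hx), ih, List.filter_cons_of_neg (by
            simp only [decide_eq_true_eq]
            exact fun k => hx k.1)]
  rw [key, key]
  obtain ⟨h, hh, h07⟩ := hT 0 7
  have e1 : ∀ a : Om, ((List.finRange 14).filter (fun x => decide (x ≠ a ∧ R a x))).length =
      (Finset.univ.filter (fun x : Om => x ≠ a ∧ R a x)).card := fun a => rfl
  rw [e1, e1]
  refine Finset.card_equiv h ?_
  intro x
  simp only [Finset.mem_filter, Finset.mem_univ, true_and]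
  rw [← h07, hR.iff hh]
  simp

theorem l0 : ((List.finRange 14).filter (fun x => decide (x ≠ 0))).map (fun x => idx 0 x) =
    [0, 1, 2, 2, 1, 0, 6, 7, 8, 9, 10, 11, 12] := by decide +kernel

theorem l7 : ((List.finRange 14).filter (fun x => decide (x ≠ 7))).map (fun x => idx 7 x) =
    [6, 12, 11, 10, 9, 8, 7, 3, 4, 5, 5, 4, 3] := by decide +kernel

theorem reg {H : Subgroup (Perm Om)} (hT : Trans H) {R : Om → Om → Prop} (hR : Inv H R)
    (p : ℕ) (hp : IsPat p R) :
    (p.testBit 0).toNat + (p.testBit 1).toNat + (p.testBit 2).toNat =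
    (p.testBit 3).toNat + (p.testBit 4).toNat + (p.testBit 5).toNat := by
  have h := deg_eq hT hR p hp
  have e : ∀ (a : Om) (l : List Om), l.map (fun x => (p.testBit (idx a x)).toNat) =
      (l.map (fun x => idx a x)).map (fun k => (p.testBit k).toNat) := by
    intro a l; rw [List.map_map]; rfl
  rw [e, e, l0, l7] at h
  simp only [List.map_cons, List.map_nil, List.sum_cons, List.sum_nil] at h
  omega

theorem part : ∀ A ∈ [63, 64, 128, 256, 512, 1024, 2048, 4096], A < 8192 ∧
    ∃ j : Fin 8, ∀ a b : Om, a ≠ b → A.testBit (idx a b) = true →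
      (if j.val = 7 then side a else decide (a.val = 0 ∨ a.val = 7 + j.val)) =
      (if j.val = 7 then side b else decide (b.val = 0 ∨ b.val = 7 + j.val)) := by
  decide +kernel

theorem nonconst : ∀ j : Fin 8, ∃ a b : Om,
      (if j.val = 7 then side a else decide (a.val = 0 ∨ a.val = 7 + j.val)) ≠
      (if j.val = 7 then side b else decide (b.val = 0 ∨ b.val = 7 + j.val)) := by
  decide +kernel

theorem conn (hB : S_BLOCK) {H : Subgroup (Perm Om)} (hs : s0 ∈ H) (hT : Trans H)
    (hP : ¬ ∀ h ∈ H, PresP h) (hQ : ∀ j, ¬ ∀ h ∈ H, PresT j h)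
    {R : Om → Om → Prop} (hR : Inv H R) (hne : ∃ a b, a ≠ b ∧ R a b)
    (f : Om → Bool) (hf : ∀ a b, a ≠ b → R a b → f a = f b) : ∀ a b, f a = f b := by
  have hE := hB H hs hT hP hQ (Relation.ReflTransGen (fun a b => a ≠ b ∧ R a b))
    (fun a => Relation.ReflTransGen.refl)
    (by
      intro a b h
      induction h with
      | refl => exact Relation.ReflTransGen.refl
      | tail _ h ih => exact ih.head ⟨h.1.symm, hR.symm _ _ h.2⟩)
    (fun a b c h1 h2 => h1.trans h2)
    (by
      intro h hh a b hab
      induction hab with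
      | refl => exact Relation.ReflTransGen.refl
      | tail _ k ih => exact ih.tail ⟨fun e => k.1 (h.injective e), hR.inv h hh _ _ k.2⟩)
    (by
      obtain ⟨a, b, hab, h⟩ := hne
      exact ⟨a, b, hab, Relation.ReflTransGen.single ⟨hab, h⟩⟩)
  intro a b
  have h := hE a b
  induction h with
  | refl => rfl
  | tail _ h ih => rw [ih]; exact hf _ _ h.1 h.2

theorem fails_sound (hB : S_BLOCK) {H : Subgroup (Perm Om)} (hs : s0 ∈ H) (hT : Trans H)
    (hP : ¬ ∀ h ∈ H, PresP h) (hQ : ∀ j, ¬ ∀ h ∈ H, PresT j h)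
    {R : Om → Om → Prop} (hR : Inv H R) (p : ℕ) (hp : IsPat p R) : fails p = false := by
  rw [Bool.eq_false_iff]
  intro h
  unfold fails at h
  rw [Bool.or_eq_true] at h
  rcases h with h | h
  · rw [reg hT hR p hp] at h
    simp at h
  · rw [Bool.and_eq_true, List.any_eq_true] at h
    obtain ⟨h0, A, hA, hpA⟩ := h
    have hp0 : p ≠ 0 := by
      rintro rfl
      simp at h0
    have hpA' : p &&& A = p := Nat.eq_of_beq_eq_true hpA
    obtain ⟨hA1, j, hj⟩ := part A hA
    have hsub : ∀ k, p.testBit k = true → A.testBit k = true := by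
      intro k hk
      rw [← hpA', Nat.testBit_and, Bool.and_eq_true] at hk
      exact hk.2
    obtain ⟨k, hk⟩ := Nat.exists_testBit_of_ne_zero hp0
    have hk13 : k < 13 := by
      by_contra hc
      have := Nat.testBit_lt_two_pow (x := A) (i := k)
        (lt_of_lt_of_le hA1 (by
          calc 8192 = 2 ^ 13 := by norm_num
            _ ≤ 2 ^ k := Nat.pow_le_pow_right (by norm_num) (by omega)))
      rw [hsub k hk] at this
      exact absurd this (by simp)
    obtain ⟨a, b, hab⟩ := nonconst j
    apply hab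
    refine conn hB hs hT hP hQ hR ⟨(rep k).1, (rep k).2, (idx_rep k hk13).2, ?_⟩
      (fun a => if j.val = 7 then side a else decide (a.val = 0 ∨ a.val = 7 + j.val)) ?_ a b
    · rw [hp _ _ (idx_rep k hk13).2, (idx_rep k hk13).1]
      exact hk
    · intro a b hab' hRab
      exact hj a b hab' (hsub _ ((hp a b hab').1 hRab))

theorem bad_sound (hB : S_BLOCK) {H : Subgroup (Perm Om)} (hs : s0 ∈ H) (hT : Trans H)
    (hP : ¬ ∀ h ∈ H, PresP h) (hQ : ∀ j, ¬ ∀ h ∈ H, PresT j h) : ∀ (n p : ℕ)
    (R : Om → Om → Prop), Inv H R → IsPat p R → bad n p = false := by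
  intro n
  induction n with
  | zero =>
    intro p R hR hp
    rw [bad, fails_sound hB hs hT hP hQ hR p hp,
      fails_sound hB hs hT hP hQ hR.compl _ hp.compl]
    rfl
  | succ n ih =>
    intro p R hR hp
    rw [bad, fails_sound hB hs hT hP hQ hR p hp,
      fails_sound hB hs hT hP hQ hR.compl _ hp.compl]
    rw [Bool.false_or, Bool.false_or, List.any_eq_false]
    intro c _
    rw [ih _ _ (hR.cc c) (hp.cc hR hs c)]
    simp

end GRAPH

theorem h_GRAPH (hB : S_BLOCK) : S_GRAPH := by
  intro H hs hT hP hQ R hsymm hinv hne a b hab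
  have hR : GRAPH.Inv H R := ⟨hsymm, hinv⟩
  obtain ⟨p, hp1, hp⟩ := GRAPH.exists_pat hR hs
  have hb1 := GRAPH.bad_sound hB hs hT hP hQ 1 p R hR hp
  have hb2 := GRAPH.bad_sound hB hs hT hP hQ 2 p R hR hp
  rcases GRAPH.chk_sound 13 0 GRAPH.chk_all p (Nat.zero_le _) (by simpa using hp1)
    with h | h | h | h
  · exfalso
    obtain ⟨x, y, hxy, h'⟩ := hne
    rw [hp x y hxy, h] at h'
    simp at h'
  · rw [hp a b hab, h]
    rw [show 8191 = 2 ^ 13 - 1 by norm_num, Nat.testBit_two_pow_sub_one]
    simpa using GRAPH.idx_lt a b hab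
  · rw [h] at hb1
    exact absurd hb1 (by simp)
  · rw [h] at hb2
    exact absurd hb2 (by simp)

end Pool.Agent.H330.A14
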