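import Pool.Agent.H330.A14.Spec

/-!
# JCYC: a Jordan theorem for 3-, 5- and 7-cycles in a doubly transitive group of degree 14
(helper230)
-/

set_option autoImplicit false

namespace Pool.Agent.H330.A14

open Equiv Equiv.Perm MulAction

namespace JCYC

theorem aps {α : Type*} (f : Perm α) (y : α) : f (f⁻¹ y) = y := f.apply_symm_apply y

theorem ips {α : Type*} (f : Perm α) (y : α) : f⁻¹ (f y) = y := f.symm_apply_apply y

/-- The commutator of two permutations whose supports meet in one point is a 3-cycle. -/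
theorem comm3 {α : Type*} [Fintype α] [DecidableEq α] (g g' : Perm α) (x : α) (hx : g x ≠ x)
    (hx' : g' x ≠ x) (hd : ∀ y, g y ≠ y → g' y ≠ y → y = x) :
    (g * g' * g⁻¹ * g'⁻¹).IsThreeCycle := by
  -- membership in the supports is preserved
  have inj : ∀ (f : Perm α) (u v : α), f u = f v → u = v := fun f u v h => f.injective h
  have m1 : ∀ (f : Perm α) (y : α), f y ≠ y → f (f y) ≠ f y := fun f y h h' => h (inj f _ _ h')
  have m2 : ∀ (f : Perm α) (y : α), f y ≠ y → f (f⁻¹ y) ≠ f⁻¹ y := by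
    intro f y h h'
    rw [aps] at h'
    apply h
    have h3 : f y = f (f⁻¹ y) := by rw [← h']
    rw [aps] at h3
    exact h3
  have fixg : ∀ (f : Perm α) (y : α), f y = y → f⁻¹ y = y := by
    intro f y h
    rw [inv_eq_iff_eq]
    exact h.symm
  have ev : ∀ y, (g * g' * g⁻¹ * g'⁻¹) y = g (g' (g⁻¹ (g'⁻¹ y))) := fun y => rfl
  -- the points g x, g' x
  have a1 : g (g x) ≠ g x := m1 g x hx
  have a2 : g' (g x) = g x := by
    by_contra h
    exact hx (hd _ a1 h)
  have b1 : g' (g' x) ≠ g' x := m1 g' x hx'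
  have b2 : g (g' x) = g' x := by
    by_contra h
    exact hx' (hd _ h b1)
  have hne : g x ≠ g' x := fun h => a1 (by rw [h]; exact b2)
  -- the commutator on the three points
  have c1 : (g * g' * g⁻¹ * g'⁻¹) x = g x := by
    rw [ev]
    have h1 : g' (g'⁻¹ x) ≠ g'⁻¹ x := m2 g' x hx'
    have h2 : g'⁻¹ x ≠ x := by
      intro h
      rw [h] at h1
      exact hx' (by rw [inv_eq_iff_eq] at h; exact h.symm)
    have h3 : g (g'⁻¹ x) = g'⁻¹ x := by
      by_contra h
      exact h2 (hd _ h h1)
    rw [fixg g _ h3, aps]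
  have c2 : (g * g' * g⁻¹ * g'⁻¹) (g x) = g' x := by
    rw [ev, fixg g' _ a2, ips, b2]
  have c3 : (g * g' * g⁻¹ * g'⁻¹) (g' x) = x := by
    rw [ev, ips]
    have h1 : g (g⁻¹ x) ≠ g⁻¹ x := m2 g x hx
    have h2 : g⁻¹ x ≠ x := by
      intro h
      exact hx (by rw [inv_eq_iff_eq] at h; exact h.symm)
    have h3 : g' (g⁻¹ x) = g⁻¹ x := by
      by_contra h
      exact h2 (hd _ h1 h)
    rw [h3, aps]
  have c4 : ∀ y, y ≠ x → y ≠ g x → y ≠ g' x → (g * g' * g⁻¹ * g'⁻¹) y = y := by
    intro y h1 h2 h3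
    rw [ev]
    by_cases h4 : g' y = y
    · rw [fixg g' y h4]
      by_cases h5 : g y = y
      · rw [fixg g y h5, h4, h5]
      · have h6 : g (g⁻¹ y) ≠ g⁻¹ y := m2 g y h5
        have h7 : g⁻¹ y ≠ x := by
          intro h
          rw [inv_eq_iff_eq] at h
          exact h2 h
        have h8 : g' (g⁻¹ y) = g⁻¹ y := by
          by_contra h
          exact h7 (hd _ h6 h)
        rw [h8, aps]
    · have h5 : g y = y := by
        by_contra h
        exact h1 (hd _ h h4)
      have h6 : g' (g'⁻¹ y) ≠ g'⁻¹ y := m2 g' y h4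
      have h7 : g'⁻¹ y ≠ x := by
        intro h
        rw [inv_eq_iff_eq] at h
        exact h3 h
      have h8 : g (g'⁻¹ y) = g'⁻¹ y := by
        by_contra h
        exact h7 (hd _ h h6)
      rw [fixg g _ h8, aps, h5]
  rw [← card_support_eq_three_iff]
  have hs : (g * g' * g⁻¹ * g'⁻¹).support = {x, g x, g' x} := by
    ext y
    simp only [mem_support, Finset.mem_insert, Finset.mem_singleton]
    constructor
    · intro h
      by_contra h'
      push Not at h'
      exact h (c4 y h'.1 h'.2.1 h'.2.2)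
    · rintro (rfl | rfl | rfl)
      · rw [c1]; exact hx
      · rw [c2]; exact hne.symm
      · rw [c3]; exact hx'.symm
  rw [hs, Finset.card_eq_three]
  exact ⟨x, g x, g' x, hx.symm, hx'.symm, hne, rfl⟩

theorem two_pre (H : Subgroup (Perm Om)) (h2 : TwoTrans H) : IsPreprimitive H Om := by
  apply isPreprimitive_of_is_two_pretransitive
  rw [is_two_pretransitive_iff]
  intro a b c d hab hcd
  obtain ⟨h, hh, h1, h2⟩ := h2 a b c d hab hcd
  exact ⟨⟨h, hh⟩, h1, h2⟩

/-- Multiple primitivity from a cycle of prime length. -/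
theorem multi (H : Subgroup (Perm Om)) (hH : IsPreprimitive H Om) (g : Perm Om) (hg : g ∈ H)
    (hc : g.IsCycle) (k : ℕ) (hk : g.support.card = k + 1) (hp : (k + 1).Prime)
    (hk1 : 1 ≤ k) (hk12 : k ≤ 12) : IsMultiplyPreprimitive H Om (12 - k + 2) := by
  apply hH.isMultiplyPreprimitive (s := (g.supportᶜ : Set Om))
  · apply Nat.add_left_cancel (n := (g.support : Set Om).ncard)
    rw [Set.ncard_add_ncard_compl, Set.ncard_coe_finset, hk, Nat.card_fin]
    omega
  · rw [Nat.card_fin]
    omega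
  have := isPretransitive_of_isCycle_mem hc hg
  apply IsPreprimitive.of_prime_card
  have hcard : Nat.card (SubMulAction.ofFixingSubgroup H ((g.support : Set Om)ᶜ)) = k + 1 := by
    rw [← hk]
    refine Nat.subtype_card g.support fun x => ?_
    rw [mem_support, SubMulAction.mem_ofFixingSubgroup_iff]
    simp
  rw [hcard]
  exact hp

/-- The case of a cycle of length `k + 1`, `2 ≤ k ≤ 6`. -/
theorem long (H : Subgroup (Perm Om)) (hH : IsPreprimitive H Om) (g : Perm Om) (hg : g ∈ H)
    (hc : g.IsCycle) (k : ℕ) (hk : g.support.card = k + 1) (hp : (k + 1).Prime)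
    (hk1 : 1 ≤ k) (hk6 : k ≤ 6) : Alt ≤ H := by
  have hm := multi H hH g hg hc k hk hp hk1 (by omega)
  have ht : IsMultiplyPretransitive H Om (12 - k + 2) :=
    IsMultiplyPreprimitive.isMultiplyPretransitive ..
  have ht2 : IsMultiplyPretransitive H Om (k + 1) := by
    refine isMultiplyPretransitive_of_le' (n := 12 - k + 2) (by omega) ?_
    rw [ENat.card_eq_coe_fintype_card, Fintype.card_fin]
    exact_mod_cast (by omega : 12 - k + 2 ≤ 14)
  -- the support
  let e : Fin (k + 1) ↪ Om := (g.support.orderEmbOfFin hk).toEmbedding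
  have he : ∀ y, g y ≠ y → ∃ i, e i = y := by
    intro y hy
    have h1 : y ∈ Set.range (g.support.orderEmbOfFin hk) := by
      rw [Finset.range_orderEmbOfFin]
      exact_mod_cast mem_support.2 hy
    exact h1
  have he' : ∀ i, g (e i) ≠ e i := fun i => mem_support.1 (g.support.orderEmbOfFin_mem hk i)
  -- points outside of the support
  have hcompl : k ≤ (g.supportᶜ).card := by
    rw [Finset.card_compl, hk, Fintype.card_fin]
    omega
  obtain ⟨T, hT, hTk⟩ := Finset.exists_subset_card_eq hcompl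
  let f : Fin k ↪ Om := (T.orderEmbOfFin hTk).toEmbedding
  have hf : ∀ i, g (f i) = f i := by
    intro i
    have h1 : f i ∈ g.supportᶜ := hT (T.orderEmbOfFin_mem hTk i)
    rw [Finset.mem_compl, mem_support, not_not] at h1
    exact h1
  have hx : e 0 ∉ Set.range f := by
    rintro ⟨i, hi⟩
    have := hf i
    rw [hi] at this
    exact he' 0 this
  obtain ⟨h, hh⟩ := isMultiplyPretransitive_iff.1 ht2 e (Fin.Embedding.cons f hx)
  have hh0 : (h : Perm Om) (e 0) = e 0 := by
    have := DFunLike.congr_fun hh 0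
    exact this
  have hhs : ∀ i : Fin k, (h : Perm Om) (e i.succ) = f i := by
    intro i
    have := DFunLike.congr_fun hh i.succ
    exact this
  obtain ⟨g', hg'⟩ : ∃ g' : Perm Om, g' = (h : Perm Om) * g * (h : Perm Om)⁻¹ := ⟨_, rfl⟩
  have hg'H : g' ∈ H := by
    rw [hg']
    exact H.mul_mem (H.mul_mem h.2 hg) (H.inv_mem h.2)
  have hmoved : ∀ y, g' y ≠ y → g y ≠ y → y = e 0 := by
    intro y h1 h2
    have h3 : g ((h : Perm Om)⁻¹ y) ≠ (h : Perm Om)⁻¹ y := by
      intro h4
      apply h1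
      rw [hg', mul_apply, mul_apply, h4, aps]
    obtain ⟨i, hi⟩ := he _ h3
    have hy : y = (h : Perm Om) (e i) := by
      rw [hi, aps]
    rcases Fin.eq_zero_or_eq_succ i with h5 | ⟨j, h5⟩
    · rw [hy, h5, hh0]
    · exfalso
      apply h2
      rw [hy, h5, hhs]
      exact hf j
  have hx1 : g (e 0) ≠ e 0 := he' 0
  have hx2 : g' (e 0) ≠ e 0 := by
    intro h4
    rw [hg', mul_apply, mul_apply] at h4
    have h5 : (h : Perm Om)⁻¹ (e 0) = e 0 := by
      rw [inv_eq_iff_eq]
      exact hh0.symm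
    rw [h5] at h4
    have h6 : g (e 0) = (h : Perm Om)⁻¹ (e 0) := by
      rw [eq_inv_iff_eq]
      exact h4
    rw [h5] at h6
    exact hx1 h6
  have h3c := comm3 g g' (e 0) hx1 hx2 (fun y h1 h2 => hmoved y h2 h1)
  exact alternatingGroup_le_of_isPreprimitive_of_isThreeCycle_mem hH h3c
    (H.mul_mem (H.mul_mem (H.mul_mem hg hg'H) (H.inv_mem hg)) (H.inv_mem hg'H))

end JCYC

theorem h_JCYC : S_JCYC := by
  intro H h2 hcy
  obtain ⟨g, hg, hc, hcard⟩ := hcy
  have hH := JCYC.two_pre H h2
  rcases hcard with h | h | h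
  · exact JCYC.long H hH g hg hc 2 h (by norm_num) (by norm_num) (by norm_num)
  · exact JCYC.long H hH g hg hc 4 h (by norm_num) (by norm_num) (by norm_num)
  · exact JCYC.long H hH g hg hc 6 h (by norm_num) (by norm_num) (by norm_num)

end Pool.Agent.H330.A14
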