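import Pool.Agent.H330.A14.Spec

/-!
# Uniform domination number of `A_14`: assembly from the intermediate statements
-/

namespace Pool.Agent.H330.A14

open Equiv

/-- total dominating set of a group -/
def IsTDS (G : Type) [Group G] (S : Finset G) : Prop :=
  (∀ s ∈ S, s ≠ 1) ∧ ∀ x : G, x ≠ 1 → ∃ s ∈ S, Subgroup.closure {x, s} = ⊤

/-- uniform domination number -/
noncomputable def gammaU (G : Type) [Group G] : ℕ :=
  sInf {c | ∃ S : Finset G, S.card = c ∧ IsTDS G S ∧ ∀ s ∈ S, ∀ t ∈ S, IsConj s t}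

/-- `B` is a base for the action of `A_n` on the `k`-subsets of the `n` points -/
def IsBase (n k : ℕ) (B : Finset (Finset (Fin n))) : Prop :=
  (∀ b ∈ B, b.card = k) ∧
    ∀ g ∈ alternatingGroup (Fin n), (∀ b ∈ B, b.map g.toEmbedding = b) → g = 1

/-- base size of the action of `A_n` on the `k`-subsets of the `n` points -/
noncomputable def baseSize (n k : ℕ) : ℕ :=
  sInf {c | ∃ B : Finset (Finset (Fin n)), B.card = c ∧ IsBase n k B}

/-! ## the order of a doubly transitive group -/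

lemma arith : ∀ (a : Fin 11) (b : Fin 6) (c d : Fin 3) (e g : Fin 2),
    ∀ N, N = 2 ^ a.val * 3 ^ b.val * 5 ^ c.val * 7 ^ d.val * 11 ^ e.val * 13 ^ g.val →
    4 ∣ N → ¬ 5 ∣ N → ¬ 11 ∣ N → ¬ 49 ∣ N → ¬ 243 ∣ N → ¬ 1024 ∣ N →
    (∃ f ∈ [2, 3, 6], 13 * f ∣ N ∧ N / (13 * f) % 13 = 1) →
    (∃ f ∈ [2, 3, 6], 7 * f ∣ N ∧ N / (7 * f) % 7 = 1) → N = 1092 := by
  simp only [forall_eq]
  decide +kernel

lemma card_alt : Nat.card Alt = 2 ^ 10 * 3 ^ 5 * 5 ^ 2 * 7 ^ 2 * 11 ^ 1 * 13 ^ 1 := by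
  rw [nat_card_alternatingGroup]
  simp [Nat.factorial]

lemma card_pows {N : ℕ} (h : N ∣ 2 ^ 10 * 3 ^ 5 * 5 ^ 2 * 7 ^ 2 * 11 ^ 1 * 13 ^ 1) :
    ∃ (a : Fin 11) (b : Fin 6) (c d : Fin 3) (e g : Fin 2),
      N = 2 ^ a.val * 3 ^ b.val * 5 ^ c.val * 7 ^ d.val * 11 ^ e.val * 13 ^ g.val := by
  obtain ⟨x5, y6, h5, h6, rfl⟩ := (Nat.dvd_mul).1 h
  obtain ⟨x4, y5, h4, h5', rfl⟩ := (Nat.dvd_mul).1 h5
  obtain ⟨x3, y4, h3, h4', rfl⟩ := (Nat.dvd_mul).1 h4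
  obtain ⟨x2, y3, h2, h3', rfl⟩ := (Nat.dvd_mul).1 h3
  obtain ⟨x1, y2, h1, h2', rfl⟩ := (Nat.dvd_mul).1 h2
  obtain ⟨a, ha, rfl⟩ := (Nat.dvd_prime_pow Nat.prime_two).1 h1
  obtain ⟨b, hb, rfl⟩ := (Nat.dvd_prime_pow Nat.prime_three).1 h2'
  obtain ⟨c, hc, rfl⟩ := (Nat.dvd_prime_pow Nat.prime_five).1 h3'
  obtain ⟨d, hd, rfl⟩ := (Nat.dvd_prime_pow (by norm_num : Nat.Prime 7)).1 h4'
  obtain ⟨e, he, rfl⟩ := (Nat.dvd_prime_pow (by norm_num : Nat.Prime 11)).1 h5'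
  obtain ⟨g, hg, rfl⟩ := (Nat.dvd_prime_pow (by norm_num : Nat.Prime 13)).1 h6
  exact ⟨⟨a, by omega⟩, ⟨b, by omega⟩, ⟨c, by omega⟩, ⟨d, by omega⟩, ⟨e, by omega⟩, ⟨g, by omega⟩, rfl⟩

/-- the order of a proper doubly transitive subgroup of `A_14` containing `s0` is 1092 -/
theorem ord (h5 : S_FIVE) (h11 : S_ELEVEN) (hsyl : S_SYL) (hev : S_EVEN) (h4 : S_FOUR)
    (h13 : S_THIRTEEN) (h7 : S_SEVEN) (H : Subgroup (Perm Om)) (hle : H ≤ Alt) (hs : s0 ∈ H)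
    (h2 : TwoTrans H) (hn : ¬ Alt ≤ H) : Nat.card H = 1092 := by
  have hd : Nat.card H ∣ 2 ^ 10 * 3 ^ 5 * 5 ^ 2 * 7 ^ 2 * 11 ^ 1 * 13 ^ 1 := by
    rw [← card_alt]; exact Subgroup.card_dvd_of_le hle
  have k4 := h4 H h2
  have k5 : ¬ 5 ∣ Nat.card H := fun h => hn (h5 H h2 h)
  have k11 : ¬ 11 ∣ Nat.card H := fun h => hn (h11 H h2 h)
  have k49 : ¬ 49 ∣ Nat.card H := fun h => hn (hsyl H h2 (Or.inl h))
  have k243 : ¬ 243 ∣ Nat.card H := fun h => hn (hsyl H h2 (Or.inr h))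
  have k1024 : ¬ 1024 ∣ Nat.card H := fun h => hn (hev H h2 hle h)
  have k13 : ∃ f ∈ [2, 3, 6], 13 * f ∣ Nat.card H ∧ Nat.card H / (13 * f) % 13 = 1 := by
    rcases h13 H h2 hle with h | ⟨f, n, hf, h, hn'⟩
    · exfalso; rw [h] at k4; norm_num at k4
    · refine ⟨f, by simpa using hf, ⟨n, h⟩, ?_⟩
      rw [h, Nat.mul_div_cancel_left _ (by rcases hf with rfl | rfl | rfl <;> norm_num)]
      exact hn'
  have k7 : ∃ f ∈ [2, 3, 6], 7 * f ∣ Nat.card H ∧ Nat.card H / (7 * f) % 7 = 1 := by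
    obtain ⟨f, n, hf, h, hn'⟩ := h7 H h2 hle hs k49
    refine ⟨f, by simpa using hf, ⟨n, h⟩, ?_⟩
    rw [h, Nat.mul_div_cancel_left _ (by rcases hf with rfl | rfl | rfl <;> norm_num)]
    exact hn'
  obtain ⟨a, b, c, d, e, g, hN⟩ := card_pows hd
  exact arith a b c d e g _ hN k4 k5 k11 k49 k243 k1024 k13 k7

/-! ## trichotomy -/

/-- conjugate subgroup `g H g⁻¹` described by membership of `g⁻¹ h g` -/
def cj (g : Perm Om) (H : Subgroup (Perm Om)) : Subgroup (Perm Om) :=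
  H.comap (MulAut.conj g⁻¹).toMonoidHom

lemma mem_cj {g : Perm Om} {H : Subgroup (Perm Om)} {h : Perm Om} :
    h ∈ cj g H ↔ g⁻¹ * h * g ∈ H := by
  simp [cj, Subgroup.mem_comap]

lemma card_cj (g : Perm Om) (H : Subgroup (Perm Om)) : Nat.card (cj g H) = Nat.card H := by
  refine Nat.card_congr ⟨fun h => ⟨g⁻¹ * h.1 * g, mem_cj.1 h.2⟩,
    fun h => ⟨g * h.1 * g⁻¹, mem_cj.2 (by have := h.2; group; simpa using this)⟩, ?_, ?_⟩
  · intro h; ext1; simp only; group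
  · intro h; ext1; simp only; group

lemma alt_conj {g h : Perm Om} : g⁻¹ * h * g ∈ Alt ↔ h ∈ Alt := by
  simp only [Alt, Equiv.Perm.mem_alternatingGroup, map_mul, map_inv]
  rw [mul_right_comm, inv_mul_cancel, one_mul]

lemma cj_le_alt {g : Perm Om} {H : Subgroup (Perm Om)} : cj g H ≤ Alt ↔ H ≤ Alt := by
  constructor
  · intro h x hx
    have : g * x * g⁻¹ ∈ cj g H := mem_cj.2 (by simpa [mul_assoc] using hx)
    have h2 := h this
    rw [← alt_conj (g := g)] at h2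
    simpa [mul_assoc] using h2
  · intro h x hx
    exact alt_conj.1 (h (mem_cj.1 hx))

lemma alt_le_cj {g : Perm Om} {H : Subgroup (Perm Om)} : Alt ≤ cj g H ↔ Alt ≤ H := by
  constructor
  · intro h x hx
    have h1 : g * x * g⁻¹ ∈ Alt := by rw [← alt_conj (g := g)]; simpa [mul_assoc] using hx
    have := mem_cj.1 (h h1)
    simpa [mul_assoc] using this
  · intro h x hx
    exact mem_cj.2 (h (alt_conj.2 hx))

lemma twoTrans_cj {g : Perm Om} {H : Subgroup (Perm Om)} (h2 : TwoTrans H) : TwoTrans (cj g H) := by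
  intro a b c d hab hcd
  obtain ⟨h, hh, h1, h3⟩ := h2 (g⁻¹ a) (g⁻¹ b) (g⁻¹ c) (g⁻¹ d)
    (fun e => hab (g⁻¹.injective e)) (fun e => hcd (g⁻¹.injective e))
  refine ⟨g * h * g⁻¹, mem_cj.2 (by simpa [mul_assoc] using hh), ?_, ?_⟩
  · show g (h (g⁻¹ a)) = c
    rw [h1]; exact g.apply_symm_apply c
  · show g (h (g⁻¹ b)) = d
    rw [h3]; exact g.apply_symm_apply d

/-- structure of a proper doubly transitive subgroup containing `s0` -/
theorem struct (h5 : S_FIVE) (h11 : S_ELEVEN) (hsyl : S_SYL) (hev : S_EVEN) (h4 : S_FOUR)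
    (h13 : S_THIRTEEN) (h7 : S_SEVEN) (ha : S_STRA) (hb : S_STRB) (hc : S_CONJ)
    (H : Subgroup (Perm Om)) (hle : H ≤ Alt) (hs : s0 ∈ H)
    (h2 : TwoTrans H) (hn : ¬ Alt ≤ H) :
    Nat.card H = 1092 ∧ ∃ u j, ∀ h ∈ H, InL0 ((nn u j * k1)⁻¹ * h * (nn u j * k1)) := by
  have hcard := ord h5 h11 hsyl hev h4 h13 h7 H hle hs h2 hn
  refine ⟨hcard, hc H hs hcard ?_⟩
  obtain ⟨k, hk1, hk2⟩ := ha H h2 hle hcard
  refine ⟨k, fun h hh => ?_⟩
  refine hb (cj k⁻¹ H) (twoTrans_cj h2) (cj_le_alt.2 hle) (by rw [card_cj, hcard])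
    (mem_cj.2 (by simpa using hk1)) (mem_cj.2 (by simpa using hk2)) _ (mem_cj.2 ?_)
  simpa [mul_assoc] using hh

/-- trichotomy for subgroups of `A_14` containing `s0` -/
theorem tri (htr : S_TRANS) (htwo : S_TWO)
    (h5 : S_FIVE) (h11 : S_ELEVEN) (hsyl : S_SYL) (hev : S_EVEN) (h4 : S_FOUR)
    (h13 : S_THIRTEEN) (h7 : S_SEVEN) (ha : S_STRA) (hb : S_STRB) (hc : S_CONJ)
    (H : Subgroup (Perm Om)) (hle : H ≤ Alt) (hs : s0 ∈ H) (hn : ¬ Alt ≤ H) :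
    (∀ h ∈ H, PresP h) ∨ (∃ j, ∀ h ∈ H, PresT j h) ∨
      (Nat.card H = 1092 ∧ ∃ u j, ∀ h ∈ H, InL0 ((nn u j * k1)⁻¹ * h * (nn u j * k1))) := by
  by_cases hP : ∀ h ∈ H, PresP h
  · exact Or.inl hP
  by_cases hT : ∃ j, ∀ h ∈ H, PresT j h
  · exact Or.inr (Or.inl hT)
  right; right
  have hT' : ∀ j, ¬ ∀ h ∈ H, PresT j h := fun j hj => hT ⟨j, hj⟩
  exact struct h5 h11 hsyl hev h4 h13 h7 ha hb hc H hle hs
    (htwo H hs (htr H hs hP) hP hT') hn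

/-! ## the total dominating set -/

lemma s0_alt : s0 ∈ Alt := by
  rw [Equiv.Perm.mem_alternatingGroup]; decide +kernel

lemma lab_alt (i : Fin 4) : lab i ∈ Alt := by
  rw [Equiv.Perm.mem_alternatingGroup]; revert i; decide +kernel

lemma ss_alt (i : Fin 4) : ss i ∈ Alt :=
  Alt.mul_mem (Alt.mul_mem (lab_alt i) s0_alt) (Alt.inv_mem (lab_alt i))

/-- the four elements `ss i` dominate `A_14` -/
theorem dominate (htri : ∀ (H : Subgroup (Perm Om)), H ≤ Alt → s0 ∈ H → ¬ Alt ≤ H →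
    (∀ h ∈ H, PresP h) ∨ (∃ j, ∀ h ∈ H, PresT j h) ∨
      (Nat.card H = 1092 ∧ ∃ u j, ∀ h ∈ H, InL0 ((nn u j * k1)⁻¹ * h * (nn u j * k1))))
    (hc1 : S_CHECK1) (hc2 : S_CHECK2)
    (x : Perm Om) (hx : x ∈ Alt) (hx1 : x ≠ 1) : ∃ i, Subgroup.closure {x, ss i} = Alt := by
  by_contra hno
  push Not at hno
  have hle : ∀ i, Subgroup.closure {x, ss i} ≤ Alt := by
    intro i
    rw [Subgroup.closure_le]
    intro y hy
    rcases hy with rfl | hy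
    · exact hx
    · rw [Set.mem_singleton_iff] at hy; rw [hy]; exact ss_alt i
  have key : ∀ i, (∀ h ∈ cj (lab i)⁻¹ (Subgroup.closure {x, ss i}), PresP h) ∨
      (∃ j, ∀ h ∈ cj (lab i)⁻¹ (Subgroup.closure {x, ss i}), PresT j h) ∨
      (Nat.card (cj (lab i)⁻¹ (Subgroup.closure {x, ss i})) = 1092 ∧ ∃ u j,
        ∀ h ∈ cj (lab i)⁻¹ (Subgroup.closure {x, ss i}),
          InL0 ((nn u j * k1)⁻¹ * h * (nn u j * k1))) := by
    intro i
    refine htri _ (cj_le_alt.2 (hle i)) (mem_cj.2 ?_) ?_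
    · rw [inv_inv]; exact Subgroup.subset_closure (Set.mem_insert_of_mem _ rfl)
    · rw [alt_le_cj]; intro h; exact hno i (le_antisymm (hle i) h)
  have hxm : ∀ i, (lab i)⁻¹ * x * lab i ∈ cj (lab i)⁻¹ (Subgroup.closure {x, ss i}) := by
    intro i
    refine mem_cj.2 ?_
    have : (lab i)⁻¹⁻¹ * ((lab i)⁻¹ * x * lab i) * (lab i)⁻¹ = x := by group
    rw [this]
    exact Subgroup.subset_closure (Set.mem_insert _ _)
  by_cases hL : ∃ i, ∃ u j, ∀ h ∈ cj (lab i)⁻¹ (Subgroup.closure {x, ss i}),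
      InL0 ((nn u j * k1)⁻¹ * h * (nn u j * k1))
  · obtain ⟨i, u, j, hi⟩ := hL
    have hl := hi _ (hxm i)
    obtain ⟨i', hP, hT, w, hw, hw1⟩ := hc2 i u j _ hl (by
      intro h
      apply hx1
      have h1 : (lab i)⁻¹ * x * lab i = 1 := by
        have := congrArg (fun z => (nn u j * k1) * z * (nn u j * k1)⁻¹) h
        simpa [mul_assoc] using this
      have := congrArg (fun z => lab i * z * (lab i)⁻¹) h1
      simpa [mul_assoc] using this) x (by group)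
    rcases key i' with h | ⟨j', h⟩ | ⟨hcard, -⟩
    · exact hP (h _ (hxm i'))
    · exact hT j' (h _ (hxm i'))
    · apply hw1
      have hw' : (lab i')⁻¹ * w * lab i' ∈ cj (lab i')⁻¹ (Subgroup.closure {x, ss i'}) := by
        refine mem_cj.2 ?_
        have : (lab i')⁻¹⁻¹ * ((lab i')⁻¹ * w * lab i') * (lab i')⁻¹ = w := by group
        rw [this]; exact hw
      have h1 : ((lab i')⁻¹ * w * lab i') ^ 1092 = 1 := by
        have := pow_card_eq_one' (x := (⟨_, hw'⟩ : cj (lab i')⁻¹ (Subgroup.closure {x, ss i'})))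
        rw [hcard] at this
        have := congrArg Subtype.val this
        simpa using this
      have h2 : ((lab i')⁻¹ * w * lab i') ^ 1092 = (lab i')⁻¹ * w ^ 1092 * lab i' := by
        have := conj_pow (i := 1092) (a := (lab i')⁻¹) (b := w)
        simpa using this
      rw [h2] at h1
      have := congrArg (fun z => lab i' * z * (lab i')⁻¹) h1
      simpa [mul_assoc] using this
  · apply hx1
    refine hc1 x hx (fun i => ?_)
    rcases key i with h | ⟨j, h⟩ | ⟨-, u, j, h⟩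
    · exact Or.inl (h _ (hxm i))
    · exact Or.inr ⟨j, h _ (hxm i)⟩
    · exact absurd ⟨i, u, j, h⟩ hL

end Pool.Agent.H330.A14
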