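import Pool.Agent.H330.A14.Spec

/-!
# The normaliser of the Sylow 7-subgroup generated by `s0`
-/

namespace Pool.Agent.H330.A14

open Equiv

namespace SEVEN

/-- the swap of the two cycles -/
def w : Perm Om := ⟨fun a => a + 7, fun a => a + 7, by decide, by decide⟩

theorem w_eq : w = swap 0 7 * (swap 1 8 * (swap 2 9 * (swap 3 10 * (swap 4 11 *
    (swap 5 12 * swap 6 13))))) := by decide +kernel

theorem sign_w : Perm.sign w = -1 := by
  rw [w_eq]
  simp only [Perm.sign_mul]
  rw [Perm.sign_swap (by decide), Perm.sign_swap (by decide), Perm.sign_swap (by decide),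
    Perm.sign_swap (by decide), Perm.sign_swap (by decide), Perm.sign_swap (by decide),
    Perm.sign_swap (by decide)]
  decide

theorem w_comm : w * s0 = s0 * w := by decide +kernel

theorem s0_pow : s0 ^ 7 = 1 := by decide +kernel

theorem low (a : Om) (ha : a.val < 7) : ∃ k : Fin 7, (s0 ^ k.val) 0 = a := by
  revert ha
  revert a
  decide +kernel

theorem high (a : Om) (ha : ¬ a.val < 7) : ∃ k : Fin 7, (s0 ^ k.val) 7 = a := by
  revert ha
  revert a
  decide +kernel

theorem low' (k : Fin 7) : ((s0 ^ k.val) 0).val < 7 := by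
  revert k
  decide +kernel

theorem s0_side (a : Om) : (s0 a).val < 7 ↔ a.val < 7 := by
  revert a
  decide +kernel

theorem s0_pow_side (k : ℕ) (a : Om) : ((s0 ^ k) a).val < 7 ↔ a.val < 7 := by
  induction k with
  | zero => simp
  | succ k ih =>
    rw [pow_succ', Perm.mul_apply, s0_side, ih]

/-- on the orbit of `p` -/
theorem fix_of {g : Perm Om} (hg : Commute g s0) (p a : Om) (k x : ℕ) (ha : (s0 ^ k) p = a)
    (hx : (s0 ^ x) p = g p) : (g ^ 7) a = a := by
  have h1 : g a = (s0 ^ x) a := by
    rw [← ha, ← Perm.mul_apply, (hg.pow_right k).eq, Perm.mul_apply, ← hx, ← Perm.mul_apply,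
      ← Perm.mul_apply, (Commute.refl s0).pow_pow k x]
  have hc : Commute g (s0 ^ x)⁻¹ := (hg.pow_right x).inv_right
  have h2 : (g * (s0 ^ x)⁻¹) a = a := by
    rw [hc.eq, Perm.mul_apply, h1]
    exact (s0 ^ x).symm_apply_apply a
  have h3 : ((g * (s0 ^ x)⁻¹) ^ 7) a = a := Perm.pow_apply_eq_self_of_apply_eq_self h2 7
  rw [hc.mul_pow, inv_pow, ← pow_mul, mul_comm x 7, pow_mul, s0_pow, one_pow, inv_one,
    mul_one] at h3
  exact h3

theorem caseA {g : Perm Om} (hg : Commute g s0) (h0 : (g 0).val < 7) : g ^ 7 = 1 := by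
  obtain ⟨x, hx⟩ := low _ h0
  have h7 : ¬ (g 7).val < 7 := by
    intro h7
    obtain ⟨y, hy⟩ := low _ h7
    -- g 7 = s0 ^ y 0, and g 0 = s0 ^ x 0, so g (s0 ^ y 7) = ...
    have h1 : g ((s0 ^ x.val) 7) = g ((s0 ^ y.val) 0) := by
      rw [← Perm.mul_apply, (hg.pow_right x.val).eq, Perm.mul_apply, ← hy, ← Perm.mul_apply,
        ← Perm.mul_apply g, (hg.pow_right y.val).eq, Perm.mul_apply, Perm.mul_apply, ← hx,
        ← Perm.mul_apply, ← Perm.mul_apply, (Commute.refl s0).pow_pow]
    have h2 := g.injective h1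
    have h3 : ((s0 ^ x.val) 7).val < 7 := by
      rw [h2]
      exact low' y
    rw [s0_pow_side] at h3
    exact absurd h3 (by decide)
  obtain ⟨y, hy⟩ := high _ h7
  ext a
  by_cases ha : a.val < 7
  · obtain ⟨k, hk⟩ := low a ha
    rw [fix_of hg 0 a k.val x.val hk hx]
    rfl
  · obtain ⟨k, hk⟩ := high a ha
    rw [fix_of hg 7 a k.val y.val hk hy]
    rfl

theorem cent {g : Perm Om} (hg : Commute g s0) (hs : Perm.sign g = 1) : g ^ 7 = 1 := by
  by_cases h0 : (g 0).val < 7
  · exact caseA hg h0
  · exfalso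
    have hw : Commute w s0 := w_comm
    have hwg : Commute (w * g) s0 := hw.mul_left hg
    have h1 : ((w * g) 0).val < 7 := by
      rw [Perm.mul_apply]
      have : ∀ a : Om, ¬ a.val < 7 → (w a).val < 7 := by decide +kernel
      exact this _ h0
    have h2 := caseA hwg h1
    have h3 := congrArg Perm.sign h2
    rw [map_pow, map_mul, sign_w, hs, map_one] at h3
    exact absurd h3 (by decide)

theorem card_dvd {G : Type} [Group G] [MulAction G Om] [MulAction.IsPretransitive G Om] :
    14 ∣ Nat.card G := by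
  have h := MulAction.index_stabilizer_of_transitive (G := G) (0 : Om)
  have h14 : Nat.card Om = 14 := by simp
  rw [h14] at h
  rw [← h]
  exact Subgroup.index_dvd_card _

end SEVEN

open SEVEN in
theorem h_SEVEN : S_SEVEN := by
  intro H h2 hA hs h49
  have hprime : Fact (Nat.Prime 7) := ⟨by norm_num⟩
  have htrH : MulAction.IsPretransitive H Om := by
    constructor
    intro a b
    by_cases hab : a = b
    · exact ⟨1, by rw [one_smul, hab]⟩
    · obtain ⟨h, hh, h1, -⟩ := h2 a b b a hab (Ne.symm hab)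
      exact ⟨⟨h, hh⟩, h1⟩
  have h14 : 14 ∣ Nat.card H := card_dvd
  set s : H := ⟨s0, hs⟩ with hsdef
  have hspow : s ^ 7 = 1 := Subtype.ext s0_pow
  have hs1 : s ≠ 1 := by
    intro h
    have : s0 = 1 := congrArg Subtype.val h
    exact absurd this (by decide +kernel)
  have hos : orderOf s = 7 := orderOf_eq_prime hspow hs1
  have hPcard : Nat.card (Subgroup.zpowers s) = 7 := by rw [Nat.card_zpowers, hos]
  have hpos : Nat.card H ≠ 0 := Nat.card_pos.ne'
  have hfac : (Nat.card H).factorization 7 = 1 := by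
    have h7 : 7 ∣ Nat.card H := (by norm_num : 7 ∣ 14).trans h14
    have h1 : 1 ≤ (Nat.card H).factorization 7 :=
      (Nat.Prime.dvd_iff_one_le_factorization (by norm_num) hpos).1 h7
    have h3 : ¬ 2 ≤ (Nat.card H).factorization 7 := by
      intro h3
      apply h49
      have := (Nat.Prime.pow_dvd_iff_le_factorization (p := 7) (by norm_num) hpos).2 h3
      simpa using this
    omega
  set P : Sylow 7 H := Sylow.ofCard (Subgroup.zpowers s) (by rw [hPcard, hfac, pow_one]) with hP
  have hPs : (P : Subgroup H) = Subgroup.zpowers s := rfl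
  have hPc : Nat.card (P : Subgroup H) = 7 := by rw [hPs, hPcard]
  -- the centraliser
  have hcent : ∀ g ∈ Subgroup.centralizer ((P : Subgroup H) : Set H), g ^ 7 = 1 := by
    intro g hg
    have h1 : s * g = g * s := hg s (Subgroup.mem_zpowers s)
    apply Subtype.ext
    have h3 : Commute g.1 s0 := (congrArg Subtype.val h1).symm
    have h4 : Perm.sign g.1 = 1 := Perm.mem_alternatingGroup.1 (hA g.2)
    exact cent h3 h4
  have hCP : Subgroup.centralizer ((P : Subgroup H) : Set H) = P := by
    refine P.is_maximal' (Q := Subgroup.centralizer ((P : Subgroup H) : Set H)) ?_ ?_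
    · intro g
      refine ⟨1, ?_⟩
      apply Subtype.ext
      rw [pow_one]
      exact hcent g.1 g.2
    · rw [hPs]
      intro x hx
      rw [Subgroup.mem_centralizer_iff]
      intro y hy
      obtain ⟨m, rfl⟩ := Subgroup.mem_zpowers_iff.1 hx
      obtain ⟨n, rfl⟩ := Subgroup.mem_zpowers_iff.1 hy
      rw [← zpow_add, ← zpow_add, add_comm]
  -- the normaliser
  set N : Subgroup H := Subgroup.normalizer ((P : Subgroup H) : Set H) with hN
  set φ := (P : Subgroup H).normalizerMonoidHom with hφ
  have hker : φ.ker = (P : Subgroup H).subgroupOf N := by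
    rw [hφ, Subgroup.normalizerMonoidHom_ker, hCP]
  have hkc : Nat.card φ.ker = 7 := by
    rw [hker, Nat.card_congr (Subgroup.subgroupOfEquivOfLe Subgroup.le_normalizer).toEquiv, hPc]
  have hNc : Nat.card N = 7 * Nat.card φ.range := by
    rw [← Subgroup.card_mul_index φ.ker, hkc, Subgroup.index_ker]
  have hcyc : IsCyclic (P : Subgroup H) := isCyclic_of_prime_card hPc
  have hf6 : Nat.card φ.range ∣ 6 := by
    have h1 := Subgroup.card_subgroup_dvd_card φ.range
    rw [IsCyclic.card_mulAut, hPc] at h1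
    exact h1
  have hn := card_sylow_modEq_one 7 H
  rw [P.card_eq_index_normalizer] at hn
  have hH : Nat.card H = 7 * Nat.card φ.range * N.index := by
    rw [← hNc, Subgroup.card_mul_index]
  refine ⟨Nat.card φ.range, N.index, ?_, hH, hn⟩
  have hle : Nat.card φ.range ≤ 6 := Nat.le_of_dvd (by norm_num) hf6
  have hf0 : 0 < Nat.card φ.range := Nat.card_pos
  by_cases hf1 : Nat.card φ.range = 1
  · exfalso
    have h1 : φ.ker.index = 1 := by rw [Subgroup.index_ker, hf1]
    rw [Subgroup.index_eq_one, hφ, Subgroup.normalizerMonoidHom_ker,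
      Subgroup.subgroupOf_eq_top] at h1
    set K := (MonoidHom.transferSylow P h1).ker with hK
    have hK7 : ¬ 7 ∣ Nat.card K := MonoidHom.not_dvd_card_ker_transferSylow P h1
    have hcompl := MonoidHom.ker_transferSylow_isComplement' P h1
    have hKP : Nat.card K * Nat.card (P : Subgroup H) = Nat.card H := hcompl.card_mul_card
    have hK1 : K ≠ ⊥ := by
      intro h0
      rw [h0, Subgroup.card_bot, one_mul, hPc] at hKP
      rw [← hKP] at h14
      revert h14
      decide
    obtain ⟨k, hk, hk1⟩ : ∃ k : H, k ∈ K ∧ k ≠ 1 := by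
      obtain ⟨k, hk⟩ := Subgroup.ne_bot_iff_exists_ne_one.1 hK1
      exact ⟨k, k.2, fun h => hk (Subtype.ext h)⟩
    obtain ⟨x, hx⟩ : ∃ x, k.1 x ≠ x := by
      by_contra hcon
      push Not at hcon
      apply hk1
      apply Subtype.ext
      ext a
      rw [hcon a]
      rfl
    have htrK : MulAction.IsPretransitive K Om := by
      constructor
      intro a b
      by_cases hab : a = b
      · exact ⟨1, by rw [one_smul, hab]⟩
      · obtain ⟨h, hh, e1, e2⟩ := h2 x (k.1 x) a b (Ne.symm hx) hab
        have hn : (⟨h, hh⟩ : H) * k * (⟨h, hh⟩ : H)⁻¹ ∈ K :=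
          (inferInstance : K.Normal).conj_mem k hk _
        refine ⟨⟨_, hn⟩, ?_⟩
        change (h * k.1 * h⁻¹) a = b
        have e3 : h⁻¹ a = x := by
          rw [← e1]
          exact h.symm_apply_apply x
        rw [Perm.mul_apply, Perm.mul_apply, e3, e2]
    have h14K : 14 ∣ Nat.card K := card_dvd
    exact hK7 ((by norm_num : 7 ∣ 14).trans h14K)
  · interval_cases h : Nat.card φ.range
    · exact absurd rfl hf1
    · left; rfl
    · right; left; rfl
    · revert hf6; decide
    · revert hf6; decide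
    · right; right; rfl

end Pool.Agent.H330.A14
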