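import Pool.Agent.H330.A14.Spec

namespace Pool.Agent.H330.A14

open Equiv

namespace STRA

/-- the point `j mod 13` -/
def pos (j : ℕ) : Om := ⟨j % 13, by omega⟩

theorem y13_pos (j : ℕ) : y13 (pos j) = pos (j + 1) := by
  have h : ∀ z : Fin 13, y13 (pos z.val) = pos (z.val + 1) := by decide
  have h1 := h ⟨j % 13, Nat.mod_lt _ (by norm_num)⟩
  have h2 : pos (j % 13) = pos j := by simp [pos]
  have h3 : pos (j % 13 + 1) = pos (j + 1) := by simp [pos, Nat.add_mod]
  rw [← h2, ← h3]
  exact h1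

theorem y13_pow (n j : ℕ) : (y13 ^ n) (pos j) = pos (j + n) := by
  induction n with
  | zero => simp
  | succ n ih => rw [pow_succ', Perm.mul_apply, ih, y13_pos]; rfl

theorem m4_pos (j : ℕ) : m4 (pos j) = pos (4 * j) := by
  have h : ∀ z : Fin 13, m4 (pos z.val) = pos (4 * z.val) := by decide
  have h1 := h ⟨j % 13, Nat.mod_lt _ (by norm_num)⟩
  have h2 : pos (j % 13) = pos j := by simp [pos]
  have h3 : pos (4 * (j % 13)) = pos (4 * j) := by simp [pos, Nat.mul_mod]
  rw [← h2, ← h3]
  exact h1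

theorem m4_13 : m4 13 = 13 := by decide

theorem y13_13 : y13 13 = 13 := by decide

theorem y13_order : orderOf y13 = 13 := by
  have : Fact (Nat.Prime 13) := ⟨by norm_num⟩
  apply orderOf_eq_prime
  · decide +kernel
  · decide

theorem eq_pos (z : Om) : z = 13 ∨ z = pos z.val := by
  revert z; decide

/-- an element of the stabiliser of `13` and `0` which normalises `⟨y13⟩` -/
theorem struct {h : Perm Om} (h0 : h 0 = 0) {e : ℤ} (he : y13 ^ e = h * y13 * h⁻¹) :
    ∃ e : ℕ, e < 13 ∧ ∀ j, h (pos j) = pos (e * j) := by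
  set e' : ℕ := (e % 13).toNat with he'
  have h1 : (e' : ℤ) = e % 13 := Int.toNat_of_nonneg (Int.emod_nonneg _ (by norm_num))
  have h2 : y13 ^ e' = h * y13 * h⁻¹ := by
    rw [← he, ← zpow_natCast, h1]
    have := zpow_mod_orderOf y13 e
    rw [y13_order] at this
    exact_mod_cast this
  refine ⟨e', ?_, ?_⟩
  · have : e % 13 < 13 := Int.emod_lt_of_pos _ (by norm_num)
    omega
  · intro j
    have h3 : (h * y13 * h⁻¹) ^ j = h * y13 ^ j * h⁻¹ := conj_pow
    rw [← h2, ← pow_mul] at h3
    have h4 : h * y13 ^ j = y13 ^ (e' * j) * h := by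
      rw [h3]; group
    have h5 := congrArg (fun p : Perm Om => p (pos 0)) h4
    simp only [Perm.mul_apply] at h5
    have h6 : pos 0 = (0 : Om) := rfl
    rw [y13_pow, h6, h0, ← h6, y13_pow] at h5
    simpa using h5

theorem core (H : Subgroup (Perm Om)) (hT : TwoTrans H) (hc : Nat.card H = 1092) (hy : y13 ∈ H) :
    m4 ∈ H := by
  classical
  -- the stabiliser of 13
  set S : Subgroup H := MulAction.stabilizer H (13 : Om) with hS
  have hS13 : ∀ g : H, g ∈ S ↔ g.1 13 = 13 := fun g => Iff.rfl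
  have horb : MulAction.orbit H (13 : Om) = Set.univ := by
    apply Set.eq_univ_of_forall
    intro a
    by_cases h : a = 0
    · obtain ⟨g, hg, h1, _⟩ := hT 13 0 a 1 (by decide) (by rw [h]; decide)
      exact ⟨⟨g, hg⟩, h1⟩
    · obtain ⟨g, hg, h1, _⟩ := hT 13 0 a 0 (by decide) h
      exact ⟨⟨g, hg⟩, h1⟩
  have hScard : Nat.card S = 78 := by
    have h1 := MulAction.card_orbit_mul_card_stabilizer_eq_card_group H (13 : Om)
    rw [← Nat.card_eq_fintype_card, ← Nat.card_eq_fintype_card, ← Nat.card_eq_fintype_card,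
      horb, hc] at h1
    have h2 : Nat.card (Set.univ : Set Om) = 14 := by simp
    rw [h2] at h1
    have h3 : Nat.card (MulAction.stabilizer H (13 : Om)) = Nat.card S := rfl
    omega
  -- y13 in S
  set y : S := ⟨⟨y13, hy⟩, (hS13 _).2 y13_13⟩ with hyd
  have hyo : orderOf y = 13 := by
    rw [← y13_order, ← Subgroup.orderOf_coe y, ← Subgroup.orderOf_coe (y : H)]
  set Y : Subgroup S := Subgroup.zpowers y with hY
  have hYcard : Nat.card Y = 13 := by
    rw [hY, Nat.card_zpowers, hyo]
  have hidx : Nat.card (S ⧸ Y) = 6 := by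
    have h1 := Subgroup.card_eq_card_quotient_mul_card_subgroup Y
    rw [hScard, hYcard] at h1
    omega
  have htriv : MulAction.toPermHom S (S ⧸ Y) y = 1 := by
    rw [← orderOf_eq_one_iff]
    have h1 : orderOf (MulAction.toPermHom S (S ⧸ Y) y) ∣ 13 := by
      rw [← hyo]; exact orderOf_map_dvd _ _
    have h2 : orderOf (MulAction.toPermHom S (S ⧸ Y) y) ∣ 720 := by
      have h3 := orderOf_dvd_natCard (MulAction.toPermHom S (S ⧸ Y) y)
      rw [Nat.card_perm, hidx] at h3
      exact h3
    have h4 := Nat.dvd_gcd h1 h2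
    have h5 : Nat.gcd 13 720 = 1 := by norm_num
    rw [h5] at h4
    exact Nat.dvd_one.1 h4
  have hnorm : ∀ g : S, ∃ e : ℤ, y ^ e = g * y * g⁻¹ := by
    intro g
    have h1 : MulAction.toPermHom S (S ⧸ Y) y ((g⁻¹ : S) : S ⧸ Y) = ((g⁻¹ : S) : S ⧸ Y) := by
      rw [htriv]; rfl
    have h2 : ((y * g⁻¹ : S) : S ⧸ Y) = ((g⁻¹ : S) : S ⧸ Y) := h1
    have h3 := QuotientGroup.eq.1 h2.symm
    rw [inv_inv, ← mul_assoc] at h3
    exact Subgroup.mem_zpowers_iff.1 h3
  -- the stabiliser of 13 and 0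
  set K : Subgroup H := MulAction.stabilizer H ((13, 0) : Om × Om) with hK
  have hKmem : ∀ g : H, g ∈ K ↔ g.1 13 = 13 ∧ g.1 0 = 0 := fun g => by
    rw [hK, MulAction.mem_stabilizer_iff, Prod.ext_iff]; rfl
  have horb2 : MulAction.orbit H ((13, 0) : Om × Om) = {p | p.1 ≠ p.2} := by
    ext ⟨a, b⟩
    constructor
    · rintro ⟨g, hg⟩
      have h1 : g.1 13 = a := congrArg Prod.fst hg
      have h2 : g.1 0 = b := congrArg Prod.snd hg
      intro h
      have h3 : g.1 13 = g.1 0 := by rw [h1, h2]; exact h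
      exact absurd (g.1.injective h3) (by decide)
    · intro h
      obtain ⟨g, hg, h1, h2⟩ := hT 13 0 a b (by decide) h
      exact ⟨⟨g, hg⟩, Prod.ext h1 h2⟩
  have hKcard : Nat.card K = 6 := by
    have h1 := MulAction.card_orbit_mul_card_stabilizer_eq_card_group H ((13, 0) : Om × Om)
    rw [← Nat.card_eq_fintype_card, ← Nat.card_eq_fintype_card, ← Nat.card_eq_fintype_card,
      horb2, hc] at h1
    have h2 : Nat.card {p : Om × Om | p.1 ≠ p.2} = 182 := by
      rw [Nat.card_eq_fintype_card]; decide +kernel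
    rw [h2] at h1
    have h3 : Nat.card (MulAction.stabilizer H ((13, 0) : Om × Om)) = Nat.card K := rfl
    omega
  have hstr : ∀ g : K, ∃ e : ℕ, e < 13 ∧ ∀ j, g.1.1 (pos j) = pos (e * j) := by
    intro g
    obtain ⟨e, he⟩ := hnorm ⟨g.1, (hS13 _).2 ((hKmem _).1 g.2).1⟩
    apply struct ((hKmem _).1 g.2).2 (e := e)
    have h1 := congrArg (fun s : S => (s.1.1 : Perm Om)) he
    simpa using h1
  have hval : ∀ g : K, g.1.1 1 ∈ ({1, 3, 4, 9, 10, 12} : Finset Om) := by
    intro g
    obtain ⟨e, he, h⟩ := hstr g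
    have hpow : ∀ n j, (g.1.1 ^ n) (pos j) = pos (e ^ n * j) := by
      intro n
      induction n with
      | zero => intro j; simp
      | succ n ih =>
        intro j
        rw [pow_succ, Perm.mul_apply, h, ih, pow_succ, mul_assoc]
    have h6 : g.1.1 ^ 6 = 1 := by
      have h1 : g ^ Nat.card K = 1 := pow_card_eq_one'
      rw [hKcard] at h1
      have h2 := congrArg (fun s : K => (s.1.1 : Perm Om)) h1
      simpa using h2
    have h7 := hpow 6 1
    rw [h6] at h7
    have h8 : (pos 1) = pos (e ^ 6 * 1) := h7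
    have h9 : e ^ 6 % 13 = 1 := by
      have := congrArg Fin.val h8
      simp [pos] at this
      omega
    have h10 : g.1.1 1 = pos (e * 1) := h 1
    rw [h10, mul_one]
    clear h10 h8 h7 hpow h
    interval_cases e <;> simp at h9 <;> decide
  have hinj : Function.Injective (fun g : K => g.1.1 1) := by
    intro g g' hgg
    obtain ⟨e, he, h⟩ := hstr g
    obtain ⟨e', he', h'⟩ := hstr g'
    have h1 : g.1.1 1 = pos (e * 1) := h 1
    have h2 : g'.1.1 1 = pos (e' * 1) := h' 1
    have h3 : pos (e * 1) = pos (e' * 1) := by rw [← h1, ← h2]; exact hgg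
    have h4 : e = e' := by
      have := congrArg Fin.val h3
      simp [pos] at this
      omega
    apply Subtype.ext
    apply Subtype.ext
    apply Equiv.ext
    intro z
    rcases eq_pos z with hz | hz
    · rw [hz, ((hKmem _).1 g.2).1, ((hKmem _).1 g'.2).1]
    · rw [hz, h, h', h4]
  have hsurj : ∃ g : K, g.1.1 1 = 4 := by
    have h1 : Finset.univ.image (fun g : K => g.1.1 1) = ({1, 3, 4, 9, 10, 12} : Finset Om) := by
      apply Finset.eq_of_subset_of_card_le
      · intro x hx
        obtain ⟨g, _, rfl⟩ := Finset.mem_image.1 hx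
        exact hval g
      · rw [Finset.card_image_of_injective _ hinj, Finset.card_univ, ← Nat.card_eq_fintype_card, hKcard]
        decide
    have h2 : (4 : Om) ∈ Finset.univ.image (fun g : K => g.1.1 1) := by
      rw [h1]; decide
    obtain ⟨g, _, hg⟩ := Finset.mem_image.1 h2
    exact ⟨g, hg⟩
  obtain ⟨g, hg⟩ := hsurj
  obtain ⟨e, he, h⟩ := hstr g
  have h1 : g.1.1 1 = pos (e * 1) := h 1
  have he4 : e = 4 := by
    rw [hg] at h1
    have := congrArg Fin.val h1
    simp [pos] at this
    omega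
  have h2 : m4 = g.1.1 := by
    apply Equiv.ext
    intro z
    rcases eq_pos z with hz | hz
    · rw [hz, ((hKmem _).1 g.2).1, m4_13]
    · rw [hz, h, he4, m4_pos]
  rw [h2]
  exact g.1.2

end STRA

theorem h_STRA : S_STRA := by
  intro H hT _ hc
  -- an element of order 13
  have h13 : (13 : ℕ) ∣ Nat.card H := by rw [hc]; norm_num
  have : Fact (Nat.Prime 13) := ⟨by norm_num⟩
  obtain ⟨y, hy⟩ := exists_prime_orderOf_dvd_card' 13 h13
  have hyo : orderOf (y : Perm Om) = 13 := by rw [Subgroup.orderOf_coe]; exact hy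
  have hct : ∀ p : Perm Om, orderOf p = 13 → p.cycleType = {13} := by
    intro p hp
    have hprime : (orderOf p).Prime := by rw [hp]; norm_num
    obtain ⟨n, hn⟩ := Perm.cycleType_prime_order hprime
    have h1 : p.cycleType.sum ≤ 14 := by
      rw [Perm.sum_cycleType]
      exact (Finset.card_le_univ _).trans (by simp)
    rw [hn, Multiset.sum_replicate, hp, smul_eq_mul] at h1
    have h2 : n = 0 := by omega
    rw [hn, hp, h2]
    rfl
  have hconj : IsConj y13 (y : Perm Om) := by
    rw [Perm.isConj_iff_cycleType_eq, hct _ hyo, hct _ STRA.y13_order]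
  obtain ⟨k, hk⟩ := isConj_iff.1 hconj
  refine ⟨k, by rw [hk]; exact y.2, ?_⟩
  set H' : Subgroup (Perm Om) := H.map (MulAut.conj k⁻¹).toMonoidHom with hH'
  have hmem : ∀ x, x ∈ H' ↔ k * x * k⁻¹ ∈ H := by
    intro x
    rw [hH', Subgroup.mem_map_equiv]
    simp
  have hcard : Nat.card H' = 1092 := by
    rw [← hc]
    exact Nat.card_congr ((MulAut.conj k⁻¹).subgroupMap H).symm.toEquiv
  have hT' : TwoTrans H' := by
    intro a b c d hab hcd
    obtain ⟨h, hh, h1, h2⟩ := hT (k a) (k b) (k c) (k d) (fun h => hab (k.injective h))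
      (fun h => hcd (k.injective h))
    refine ⟨k⁻¹ * h * k, ?_, ?_, ?_⟩
    · rw [hmem]
      have : k * (k⁻¹ * h * k) * k⁻¹ = h := by group
      rw [this]; exact hh
    · simp [Perm.mul_apply, h1]
    · simp [Perm.mul_apply, h2]
  rw [← hmem]
  apply STRA.core H' hT' hcard
  rw [hmem, hk]
  exact y.2

end Pool.Agent.H330.A14
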