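import Pool.Agent.H330.A14.Spec

/-!
# A group of order 1092 which contains `z + 1` and `4 z` is contained in the list `L0`
-/

namespace Pool.Agent.H330.A14

namespace STRB

open Equiv

/-- `z ↦ k z` -/
def mu (k : ℕ) (z : Om) : Om := if z.val = 13 then 13 else ⟨(k * z.val) % 13, by omega⟩

/-- `z ↦ z + b` -/
def ad (b : ℕ) (z : Om) : Om := if z.val = 13 then 13 else ⟨(z.val + b) % 13, by omega⟩

/-- `z ↦ 4 ^ j z + b` -/
def af (j b : ℕ) (z : Om) : Om :=
  if z.val = 13 then 13 else ⟨(4 ^ j * z.val + b) % 13, by omega⟩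

lemma aff_eq (i : Fin 6) (b : Fin 13) (z : Om) : aff i b z = af i.val b.val z := rfl

lemma ad_inf (b : ℕ) : ad b 13 = 13 := rfl

lemma mu_inf (k : ℕ) : mu k 13 = 13 := rfl

lemma ad_ad (a b : ℕ) (z : Om) : ad a (ad b z) = ad (b + a) z := by
  unfold ad
  by_cases hz : z.val = 13
  · simp [hz]
  · have h1 : (z.val + b) % 13 ≠ 13 := by omega
    rw [if_neg hz, if_neg hz]
    simp only [h1, if_false]
    apply Fin.ext
    simp only
    omega

lemma mu_mu (a b : ℕ) (z : Om) : mu a (mu b z) = mu (b * a) z := by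
  unfold mu
  by_cases hz : z.val = 13
  · simp [hz]
  · have h1 : (b * z.val) % 13 ≠ 13 := by omega
    rw [if_neg hz, if_neg hz]
    simp only [h1, if_false]
    apply Fin.ext
    simp only
    rw [Nat.mul_mod, Nat.mod_mod, ← Nat.mul_mod]
    congr 1
    ring

lemma y13_apply (z : Om) : y13 z = ad 1 z := by
  revert z
  decide

lemma m4_apply (z : Om) : m4 z = mu 4 z := by
  revert z
  decide

lemma ad_zero (z : Om) : ad 0 z = z := by
  revert z
  decide

lemma mu_one (z : Om) : mu 1 z = z := by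
  revert z
  decide

lemma y13_pow (b : ℕ) (z : Om) : (y13 ^ b) z = ad b z := by
  induction b generalizing z with
  | zero => rw [pow_zero, Perm.one_apply, ad_zero]
  | succ b ih => rw [pow_succ', Perm.mul_apply, ih, y13_apply, ad_ad]

lemma m4_pow (i : ℕ) (z : Om) : (m4 ^ i) z = mu (4 ^ i) z := by
  induction i generalizing z with
  | zero => rw [pow_zero, Perm.one_apply, pow_zero, mu_one]
  | succ i ih => rw [pow_succ', Perm.mul_apply, ih, m4_apply, mu_mu, pow_succ]

lemma ad_mu (i b : ℕ) (z : Om) : ad b (mu (4 ^ i) z) = af i b z := by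
  unfold ad mu af
  by_cases hz : z.val = 13
  · simp [hz]
  · have h1 : (4 ^ i * z.val) % 13 ≠ 13 := by omega
    rw [if_neg hz, if_neg hz]
    simp only [h1, if_false]
    apply Fin.ext
    simp only
    omega

lemma aff_inj : ∀ (i : Fin 6) (b : Fin 13) (i' : Fin 6) (b' : Fin 13),
    aff i b 0 = aff i' b' 0 → aff i b 1 = aff i' b' 1 → i = i' ∧ b = b' := by
  decide +kernel

/-- the stabiliser of infinity -/
lemma stab (H : Subgroup (Perm Om)) (h2 : TwoTrans H) (hc : Nat.card H = 1092) (hy : y13 ∈ H)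
    (hm : m4 ∈ H) (h : Perm Om) (hh : h ∈ H) (h13 : h 13 = 13) :
    ∃ i b, ∀ z, h z = aff i b z := by
  classical
  have horb : MulAction.orbit H (13 : Om) = Set.univ := by
    apply Set.eq_univ_of_forall
    intro z
    by_cases hz : z = 13
    · rw [hz]
      exact MulAction.mem_orbit_self _
    · obtain ⟨g, hg, hg1, _⟩ := h2 13 0 z 13 (by decide) hz
      exact ⟨⟨g, hg⟩, hg1⟩
  have hcard : Nat.card (MulAction.stabilizer H (13 : Om)) = 78 := by
    have h3 := Subgroup.card_mul_index (MulAction.stabilizer H (13 : Om))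
    rw [MulAction.index_stabilizer, horb, Set.ncard_univ, hc, Nat.card_eq_fintype_card,
      Nat.card_eq_fintype_card, Fintype.card_fin] at h3
    rw [Nat.card_eq_fintype_card]
    omega
  let F : Fin 6 × Fin 13 → MulAction.stabilizer H (13 : Om) := fun p =>
    ⟨⟨y13 ^ p.2.val * m4 ^ p.1.val, H.mul_mem (H.pow_mem hy _) (H.pow_mem hm _)⟩, by
      rw [MulAction.mem_stabilizer_iff]
      show (y13 ^ p.2.val * m4 ^ p.1.val) 13 = 13
      rw [Perm.mul_apply, m4_pow, y13_pow, mu_inf, ad_inf]⟩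
  have hF : ∀ (p : Fin 6 × Fin 13) (z : Om), ((F p).1.1 : Perm Om) z = aff p.1 p.2 z := by
    intro p z
    show (y13 ^ p.2.val * m4 ^ p.1.val) z = _
    rw [Perm.mul_apply, m4_pow, y13_pow, ad_mu, aff_eq]
  have hinj : Function.Injective F := by
    intro p q hpq
    have e : ∀ z, aff p.1 p.2 z = aff q.1 q.2 z := by
      intro z
      rw [← hF, ← hF, hpq]
    obtain ⟨e1, e2⟩ := aff_inj _ _ _ _ (e 0) (e 1)
    exact Prod.ext e1 e2
  have hbij : Function.Bijective F := by
    rw [Nat.bijective_iff_injective_and_card]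
    refine ⟨hinj, ?_⟩
    rw [hcard]
    simp
  have hst : (⟨h, hh⟩ : H) ∈ MulAction.stabilizer H (13 : Om) := by
    rw [MulAction.mem_stabilizer_iff]
    exact h13
  obtain ⟨p, hp⟩ := hbij.2 ⟨⟨h, hh⟩, hst⟩
  refine ⟨p.1, p.2, ?_⟩
  intro z
  rw [← hF, hp]

/-- the candidates -/
def cand (i : ℕ) (u v : Om) : Om → Om :=
  ![13, u, v, mu (4 ^ (2 * i)) u, mu (4 ^ (1 * i)) u, mu (4 ^ (4 * i)) v, mu (4 ^ (2 * i)) v,
    mu (4 ^ (5 * i)) v, mu (4 ^ (1 * i)) v, mu (4 ^ (4 * i)) u, mu (4 ^ (5 * i)) u,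
    mu (4 ^ (3 * i)) v, mu (4 ^ (3 * i)) u, 0]

/-- a word which fixes infinity -/
def wv (f : Om → Om) (z : Om) : Om := f (ad (13 - (f 1).val) (f (ad 1 (f z))))

/-- the pairs used to recognise that a candidate is not injective -/
def prs : List (Om × Om) :=
  [(0, 1), (13, 1), (0, 2), (13, 2), (1, 4), (1, 3), (1, 12), (2, 1), (2, 3), (2, 4), (2, 9),
    (2, 10), (2, 12)]

/-- the check of one candidate -/
def Chk (f : Om → Om) : Prop :=
  (∃ p ∈ prs, f p.1 = f p.2) ∨ (∃ j : Fin 6, ∀ z, f z = tt (mu (4 ^ j.val) z)) ∨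
    (∀ j : Fin 6, ∃ z, wv f z ≠ af j.val (wv f 0).val z)

instance (f : Om → Om) : Decidable (Chk f) := by unfold Chk; infer_instance

lemma prs_ne : ∀ p ∈ prs, p.1 ≠ p.2 := by decide +kernel

lemma aff_zero_val : ∀ (i : Fin 6) (b : Fin 13), (aff i b 0).val = b.val := by
  decide +kernel

theorem chk_all : ∀ (i : Fin 6) (u v : Om), Chk (cand i.val u v) := by
  decide +kernel

/-- the element which swaps zero and infinity -/
lemma swap (H : Subgroup (Perm Om)) (h2 : TwoTrans H) (hc : Nat.card H = 1092) (hy : y13 ∈ H)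
    (hm : m4 ∈ H) : ∃ t ∈ H, t 13 = 0 ∧ ∃ j : Fin 6, ∀ z, t z = tt (mu (4 ^ j.val) z) := by
  obtain ⟨t, ht, ht0, ht13⟩ := h2 0 13 13 0 (by decide) (by decide)
  refine ⟨t, ht, ht13, ?_⟩
  have hi0 : t⁻¹ 13 = 0 := by rw [Perm.inv_eq_iff_eq, ht0]
  have hi13 : t⁻¹ 0 = 13 := by rw [Perm.inv_eq_iff_eq, ht13]
  have m40 : m4 0 = 0 := by decide
  have m413 : m4 13 = 13 := by decide
  have hconj : t * m4 * t⁻¹ ∈ H := H.mul_mem (H.mul_mem ht hm) (H.inv_mem ht)
  obtain ⟨i, b, hib⟩ := stab H h2 hc hy hm _ hconj (by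
    rw [Perm.mul_apply, Perm.mul_apply, hi0, m40, ht0])
  have hb : b = 0 := by
    have h3 := hib 0
    rw [Perm.mul_apply, Perm.mul_apply, hi13, m413, ht13] at h3
    apply Fin.ext
    rw [← aff_zero_val i b, ← h3]
    rfl
  subst hb
  have hstep : ∀ z, t (m4 z) = mu (4 ^ i.val) (t z) := by
    intro z
    have h3 := hib (t z)
    have h4 : t⁻¹ (t z) = z := t.symm_apply_apply z
    rw [Perm.mul_apply, Perm.mul_apply, h4] at h3
    rw [h3]
    rfl
  have hpow : ∀ (k : ℕ) (z : Om), t (mu (4 ^ k) z) = mu (4 ^ (k * i.val)) (t z) := by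
    intro k
    induction k with
    | zero => intro z; rw [pow_zero, mu_one, zero_mul, pow_zero, mu_one]
    | succ k ih =>
      intro z
      have e : mu (4 ^ (k + 1)) z = m4 (mu (4 ^ k) z) := by
        rw [m4_apply, mu_mu, pow_succ]
      rw [e, hstep, ih, mu_mu, ← pow_add]
      congr 2
      ring
  have hcand : ∀ z, t z = cand i.val (t 1) (t 2) z := by
    have p1 : ∀ k : ℕ, t (mu (4 ^ k) 1) = mu (4 ^ (k * i.val)) (t 1) := fun k => hpow k 1
    have p2 : ∀ k : ℕ, t (mu (4 ^ k) 2) = mu (4 ^ (k * i.val)) (t 2) := fun k => hpow k 2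
    intro z
    fin_cases z
    · exact ht0
    · rfl
    · rfl
    · exact p1 2
    · exact p1 1
    · exact p2 4
    · exact p2 2
    · exact p2 5
    · exact p2 1
    · exact p1 4
    · exact p1 5
    · exact p2 3
    · exact p1 3
    · exact ht13
  have hc1 := chk_all i (t 1) (t 2)
  have hfun : cand i.val (t 1) (t 2) = (t : Om → Om) := by
    funext z
    exact (hcand z).symm
  rw [hfun] at hc1
  rcases hc1 with ⟨p, hp, hpe⟩ | hj | hw
  · exact absurd (t.injective hpe) (prs_ne p hp)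
  · exact hj
  · exfalso
    -- the word
    set c : ℕ := 13 - (t 1).val with hcdef
    have hw' : t * y13 ^ c * t * y13 * t ∈ H :=
      H.mul_mem (H.mul_mem (H.mul_mem (H.mul_mem ht (H.pow_mem hy _)) ht) hy) ht
    have hval : ∀ z, (t * y13 ^ c * t * y13 * t) z = wv (t : Om → Om) z := by
      intro z
      rw [Perm.mul_apply, Perm.mul_apply, Perm.mul_apply, Perm.mul_apply, y13_pow, y13_apply]
      rfl
    have hfix : (t * y13 ^ c * t * y13 * t) 13 = 13 := by
      rw [hval]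
      unfold wv
      rw [ht13]
      have e1 : ad 1 0 = 1 := rfl
      rw [e1]
      have e2 : ad (13 - (t 1).val) (t 1) = 0 := by
        have hne : t 1 ≠ 13 := by
          rw [← ht0]
          intro he
          exact absurd (t.injective he) (by decide)
        revert hne
        generalize t 1 = x
        revert x
        decide
      rw [e2, ht0]
    obtain ⟨j, b', hjb⟩ := stab H h2 hc hy hm _ hw' hfix
    have hb' : (wv (t : Om → Om) 0).val = b'.val := by
      rw [← hval, hjb, aff_zero_val]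
    obtain ⟨z, hz⟩ := hw j
    apply hz
    rw [hb', ← hval, hjb, aff_eq]

lemma mu_af : ∀ (i j : Fin 6) (b : Fin 13) (z : Om), mu (4 ^ j.val) (aff i b z) =
    aff ⟨(i.val + j.val) % 6, by omega⟩ ⟨(4 ^ j.val * b.val) % 13, by omega⟩ z := by
  decide +kernel

lemma ad_aff : ∀ (a : Fin 13) (z : Om), ad a.val z = aff 0 a z := by
  decide +kernel

end STRB

open STRB in
theorem h_STRB : S_STRB := by
  intro H h2 _ hc hy hm h hh
  by_cases h13 : h 13 = 13
  · exact Or.inl (stab H h2 hc hy hm h hh h13)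
  · right
    obtain ⟨t, ht, ht13, j, hj⟩ := swap H h2 hc hy hm
    have hlt : (h 13).val < 13 := by
      have h1 := (h 13).isLt
      have h3 : (h 13).val ≠ 13 := by
        intro he
        exact h13 (Fin.ext he)
      omega
    set a : Fin 13 := ⟨(h 13).val, hlt⟩ with ha
    have hg : t⁻¹ * (y13 ^ a.val)⁻¹ * h ∈ H :=
      H.mul_mem (H.mul_mem (H.inv_mem ht) (H.inv_mem (H.pow_mem hy _))) hh
    have hy0 : (y13 ^ a.val) 0 = h 13 := by
      rw [y13_pow]
      apply Fin.ext
      show (0 + a.val) % 13 = (h 13).val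
      rw [zero_add, Nat.mod_eq_of_lt a.isLt]
    have hfix : (t⁻¹ * (y13 ^ a.val)⁻¹ * h) 13 = 13 := by
      rw [Equiv.Perm.mul_apply, Equiv.Perm.mul_apply, Equiv.Perm.inv_eq_iff_eq,
        Equiv.Perm.inv_eq_iff_eq, ht13, hy0]
    obtain ⟨i, b, hib⟩ := stab H h2 hc hy hm _ hg hfix
    refine ⟨⟨(i.val + j.val) % 6, by omega⟩, ⟨(4 ^ j.val * b.val) % 13, by omega⟩, a, ?_⟩
    intro z
    have h3 := hib z
    rw [Equiv.Perm.mul_apply, Equiv.Perm.mul_apply, Equiv.Perm.inv_eq_iff_eq,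
      Equiv.Perm.inv_eq_iff_eq, y13_pow, hj, mu_af, ad_aff] at h3
    exact h3

end Pool.Agent.H330.A14
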