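import Pool.Agent.H330.A14.Spec

/-!
# SYL (by helper967 for helper330)
-/

namespace Pool.Agent.H330.A14

open Equiv

namespace SYL

theorem conj_mem (p n : ℕ) [hp : Fact p.Prime] (H : Subgroup (Perm Om))
    (hd : p ^ n ∣ Nat.card H) (hf : ¬ p ^ (n + 1) ∣ Nat.card (Perm Om)) (c : Perm Om)
    (hc : c ^ p = 1) : ∃ g : Perm Om, g * c * g⁻¹ ∈ H := by
  obtain ⟨K, hK⟩ := Sylow.exists_subgroup_card_pow_prime p hd
  have hK' : Nat.card (K.map H.subtype) = p ^ n := by
    rw [← hK]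
    exact (Nat.card_congr (K.equivMapOfInjective H.subtype H.subtype_injective).toEquiv).symm
  have hKp : IsPGroup p (K.map H.subtype) := IsPGroup.of_card hK'
  obtain ⟨Q, hQ⟩ := hKp.exists_le_sylow
  obtain ⟨k, hk⟩ := (IsPGroup.iff_card.1 Q.isPGroup')
  have hkn : k ≤ n := by
    by_contra hlt
    apply hf
    refine (pow_dvd_pow p (by omega : n + 1 ≤ k)).trans ?_
    rw [← hk]
    exact Subgroup.card_subgroup_dvd_card _
  have hQK : K.map H.subtype = (Q : Subgroup (Perm Om)) := by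
    apply Subgroup.eq_of_le_of_card_ge hQ
    rw [hK', hk]
    exact Nat.pow_le_pow_right hp.out.pos hkn
  have hcp : IsPGroup p (Subgroup.zpowers c) := by
    rintro ⟨x, m, rfl⟩
    refine ⟨1, ?_⟩
    apply Subtype.ext
    show (c ^ m) ^ p ^ 1 = 1
    rw [pow_one, ← zpow_natCast, ← zpow_mul, mul_comm, zpow_mul, zpow_natCast, hc, one_zpow]
  obtain ⟨P, hP⟩ := hcp.exists_le_sylow
  obtain ⟨g, hg⟩ := MulAction.exists_smul_eq (Perm Om) P Q
  refine ⟨g, ?_⟩
  have h1 : c ∈ (P : Subgroup (Perm Om)) := hP (Subgroup.mem_zpowers c)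
  have h2 : g * c * g⁻¹ ∈ ((g • P : Sylow p (Perm Om)) : Subgroup (Perm Om)) := by
    rw [Sylow.coe_subgroup_smul]
    exact ⟨c, h1, rfl⟩
  rw [hg, ← hQK] at h2
  obtain ⟨x, -, hx⟩ := h2
  rw [← hx]
  exact x.2

theorem card_perm : Nat.card (Perm Om) = 87178291200 := by
  rw [Nat.card_perm, Nat.card_fin]
  rfl

theorem cyc (H : Subgroup (Perm Om)) (l : List Om) (hl : l.Nodup) (h2 : 2 ≤ l.length) (n : ℕ)
    [hp : Fact (l.length).Prime] (hd : l.length ^ n ∣ Nat.card H)
    (hf : ¬ l.length ^ (n + 1) ∣ Nat.card (Perm Om)) :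
    ∃ g ∈ H, g.IsCycle ∧ g.support.card = l.length := by
  obtain ⟨g, hg⟩ := conj_mem l.length n H hd hf l.formPerm
    (List.formPerm_pow_length_eq_one_of_nodup l hl)
  refine ⟨_, hg, (List.isCycle_formPerm hl h2).conj, ?_⟩
  rw [Equiv.Perm.card_support_conj, List.support_formPerm_of_nodup l hl, List.toFinset_card_of_nodup hl]
  intro x hx
  rw [hx, List.length_singleton] at h2
  omega

end SYL

theorem h_SYL (hJ : S_JCYC) : S_SYL := by
  intro H hH h
  apply hJ H hH
  rcases h with h | h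
  · have hp : Fact (([0, 1, 2, 3, 4, 5, 6] : List Om).length).Prime := ⟨by norm_num⟩
    obtain ⟨g, hg, h1, h2⟩ := SYL.cyc H [0, 1, 2, 3, 4, 5, 6] (by decide) (by norm_num) 2
      (by
        show 7 ^ 2 ∣ Nat.card H
        norm_num
        exact h)
      (by
        show ¬ 7 ^ (2 + 1) ∣ Nat.card (Perm Om)
        rw [SYL.card_perm]
        norm_num)
    exact ⟨g, hg, h1, Or.inr (Or.inr h2)⟩
  · have hp : Fact (([0, 1, 2] : List Om).length).Prime := ⟨by norm_num⟩
    obtain ⟨g, hg, h1, h2⟩ := SYL.cyc H [0, 1, 2] (by decide) (by norm_num) 5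
      (by
        show 3 ^ 5 ∣ Nat.card H
        norm_num
        exact h)
      (by
        show ¬ 3 ^ (5 + 1) ∣ Nat.card (Perm Om)
        rw [SYL.card_perm]
        norm_num)
    exact ⟨g, hg, h1, Or.inl h2⟩

end Pool.Agent.H330.A14
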