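import Pool.Agent.H330.A14.Defs

/-!
# Uniform domination number of `A_14`: the intermediate statements

Every `S_X : Prop` below is true; the docstring contains a proof.  `Alt` is `alternatingGroup (Fin 14)`,
a subgroup of `Perm (Fin 14)`.
-/

namespace Pool.Agent.H330.A14

open Equiv

/-- `A_14` inside `S_14` -/
abbrev Alt : Subgroup (Perm Om) := alternatingGroup Om

/-- BLOCK.  A nontrivial invariant equivalence relation of a transitive group containing `s0` is the
partition into the two cycles or one of the seven matchings.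
Proof.  All classes have the same size `c`, `c ∣ 14`, `c ≠ 1, 14`, so `c = 2` or `7`.  If `c = 7`, `s0` (of
order 7) fixes both classes, so the class of `0` contains `0,...,6`, so it is `{0..6}` and every `h` permutes
the two classes.  If `c = 2`, let `{0, b}` be the class of `0`; `b < 7` is impossible (`s0 ^ b` maps `{0,b}` to
`{b, 2b}`, which meets `{0,b}` in `b`, so `2 b = 0` mod 7); so `b = 7 + j`, and applying powers of `s0` the
classes are `{a, tau j a}`; hence every `h` commutes with `tau j`.
(Alternatively: no counting, only `E`-invariance under `s0` and transitivity.) -/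
def S_BLOCK : Prop :=
  ∀ H : Subgroup (Perm Om), s0 ∈ H → Trans H → (¬ ∀ h ∈ H, PresP h) → (∀ j, ¬ ∀ h ∈ H, PresT j h) →
  ∀ E : Om → Om → Prop, (∀ a, E a a) → (∀ a b, E a b → E b a) → (∀ a b c, E a b → E b c → E a c) →
    (∀ h ∈ H, ∀ a b, E a b → E (h a) (h b)) → (∃ a b, a ≠ b ∧ E a b) → ∀ a b, E a b

/-- TRANS.  If `H ∋ s0` is not transitive then its orbits are `{0..6}` and `{7..13}` (they are unions of
orbits of `s0`), so every element of `H` preserves the partition. -/
def S_TRANS : Prop :=
  ∀ H : Subgroup (Perm Om), s0 ∈ H → (¬ ∀ h ∈ H, PresP h) → Trans H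

/-- GRAPH.  No nontrivial undirected graph on the 14 points is invariant under a transitive group `H ∋ s0`
without the invariant partitions above.
Proof (finite check, verified by computer).  `R` (restricted to `a ≠ b`) is determined by the 13 bits
`R 0 1, R 0 2, R 0 3, R 7 8, R 7 9, R 7 10, R 0 7, ..., R 0 13` (it is symmetric and `s0`-invariant).
For each of the 8192 bit patterns other than all zero and all one one of the following happens:
 level 0: the graph is not regular (contradiction to `Trans H`), or the graph `R` or its complement is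
   disconnected (then its components are an invariant equivalence relation: contradiction by BLOCK)
   [5632 + 52 patterns];
 level 1: for `e ∈ {edge, non-edge}` and `c ∈ ℕ` the graph `R' a b := (a ≠ b) ∧ (R a b = e) ∧ (number of common
   neighbours of a, b = c)` is also `H`-invariant and symmetric, and for some `(e, c)` it is nonempty and
   disconnected or not regular [2422 patterns];
 level 2: for the 84 remaining patterns colour the pairs by `(e, c)` as above, and then refine once more by
   the multiset of the unordered pairs `{colour (a, x), colour (x, b)}`, `x ≠ a, b`; one of the colour graphs is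
   not regular.
So write a boolean checker on 14-bit adjacency masks, prove its soundness (every graph it looks at is
`H`-invariant) and run it on all 8192 patterns with `decide +kernel` (or in chunks). -/
def S_GRAPH : Prop :=
  ∀ H : Subgroup (Perm Om), s0 ∈ H → Trans H → (¬ ∀ h ∈ H, PresP h) → (∀ j, ¬ ∀ h ∈ H, PresT j h) →
  ∀ R : Om → Om → Prop, (∀ a b, R a b → R b a) → (∀ h ∈ H, ∀ a b, R a b → R (h a) (h b)) →
    (∃ a b, a ≠ b ∧ R a b) → ∀ a b, a ≠ b → R a b

/-- TWO.  From GRAPH: `H` is doubly transitive.
Proof.  `14 ∣ |H|`, so by Cauchy there is an involution `t ∈ H`; choose `x` with `t x ≠ x`.  Let `R a b` say that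
some `h ∈ H` maps `{x, t x}` onto `{a, b}` (as a set).  By GRAPH `R a b` holds for all `a ≠ b`; composing with `t`,
for all `a ≠ b` some `h ∈ H` has `h x = a`, `h (t x) = b`. -/
def S_TWO : Prop :=
  ∀ H : Subgroup (Perm Om), s0 ∈ H → Trans H → (¬ ∀ h ∈ H, PresP h) → (∀ j, ¬ ∀ h ∈ H, PresT j h) →
    TwoTrans H

/-- JCYC.  A doubly transitive group containing a 3-, 5- or 7-cycle contains `A_14`.
Proof.  `H` is primitive.  3-cycle: `Equiv.Perm.alternatingGroup_le_of_isPreprimitive_of_isThreeCycle_mem`.
`p`-cycle `g`, `p = 5, 7`: as in the proof of that theorem, `MulAction.IsPreprimitive.isMultiplyPreprimitive` with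
`s = g.supportᶜ` (`14 - p` points; the pointwise stabiliser of `s` is transitive on the `p` points of the support,
`isPretransitive_of_isCycle_mem`, hence preprimitive by `IsPreprimitive.of_prime_card`) shows that `H` is
`(15 - p)`-fold primitive, so at least `p`-fold transitive (`15 - 7 = 8`).  Let `x` be in the support of `g`; choose
`h ∈ H` with `h x = x` which maps the other `p - 1` points of the support of `g` to points outside the support
(there are `14 - p ≥ p - 1` of them).  Then `g` and `g' = h g h⁻¹` have supports meeting only in `x`, and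
`g⁻¹ g'⁻¹ g g'` is a 3-cycle (the commutator of two permutations whose supports meet in one point). -/
def S_JCYC : Prop :=
  ∀ H : Subgroup (Perm Om), TwoTrans H →
    (∃ g ∈ H, g.IsCycle ∧ (g.support.card = 3 ∨ g.support.card = 5 ∨ g.support.card = 7)) → Alt ≤ H

/-- SYL.  `49 ∣ |H|` or `243 ∣ |H|` implies `A_14 ≤ H` (`H` doubly transitive).
Proof.  `14! = 2^11 3^5 5^2 7^2 11 13`.  If `49 ∣ |H|`, a Sylow 7-subgroup of `H` has order 49, so it is a Sylow
7-subgroup of `S_14`; Sylow subgroups of `S_14` are conjugate and some of them contain a 7-cycle, so `H` contains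
a 7-cycle: JCYC.  The same with 243 and a 3-cycle.  (May use JCYC as a hypothesis.) -/
def S_SYL : Prop :=
  ∀ H : Subgroup (Perm Om), TwoTrans H → (49 ∣ Nat.card H ∨ 243 ∣ Nat.card H) → Alt ≤ H

/-- FIVE.  A doubly transitive `H` with `5 ∣ |H|` contains `A_14`.
Proof.  If `25 ∣ |H|`, a Sylow 5-subgroup of `H` is one of `S_14` and so `H` contains a 5-cycle: JCYC.  Otherwise let
`Q = ⟨g⟩` be a Sylow 5-subgroup of `H` (order 5).  If `g` is a 5-cycle: JCYC.  Otherwise `g` is a product of two
5-cycles and has exactly 4 fixed points, `F` the set of them.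
Witt's lemma: `N_H(Q)` is transitive on ordered pairs of distinct points of `F`: given `(a,b), (c,d)`, take `k ∈ H`
with `k a = c, k b = d`; `Q` and `k Q k⁻¹` are Sylow 5-subgroups of the subgroup `H_{c,d}` of elements of `H` fixing
`c` and `d`, so `k' k Q k⁻¹ k'⁻¹ = Q` for some `k' ∈ H_{c,d}`, and `k' k ∈ N_H(Q)` maps `(a,b)` to `(c,d)`.
Hence `12 ∣ |N_H(Q)|`; let `h ∈ N_H(Q)` have order 3.  `h g h⁻¹ = g ^ r` with `r ^ 3 = 1` mod 5, so `r = 1` and `h`
commutes with `g`.  `h` permutes the two nontrivial `g`-cycles, hence (order 3) fixes both, acts on each as a power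
of `g` and so (order 3) trivially.  So `h` moves at most the four points of `F`, and has order 3: it is a 3-cycle.
JCYC. -/
def S_FIVE : Prop :=
  ∀ H : Subgroup (Perm Om), TwoTrans H → 5 ∣ Nat.card H → Alt ≤ H

/-- ELEVEN.  A doubly transitive `H` with `11 ∣ |H|` contains `A_14`.
Proof.  As FIVE: `Q = ⟨g⟩` a Sylow 11-subgroup (order 11, as `11^2 ∤ 14!`), `g` is an 11-cycle, `F` its 3 fixed
points; `N_H(Q)` is transitive on the 6 ordered pairs of distinct points of `F`, so it contains `h` of order 3, which
commutes with `g` (`r ^ 3 = 1` mod 11 implies `r = 1`), so acts on the support of `g` as a power of `g`, hence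
trivially; so `h` is a 3-cycle.  JCYC. -/
def S_ELEVEN : Prop :=
  ∀ H : Subgroup (Perm Om), TwoTrans H → 11 ∣ Nat.card H → Alt ≤ H

/-- EVEN.  A doubly transitive `H ≤ A_14` with `2^10 ∣ |H|` is `A_14`.
Proof.  `|A_14|_2 = 2^10`, so a Sylow 2-subgroup of `H` is one of `A_14`; as they are conjugate in `A_14`, `H` contains a
double transposition `g = (a b)(c d)`.  `13 ∣ |H|`, so `H` contains a 13-cycle `y` with one fixed point `p`.
Conjugating `g` by an element of `H` we may assume `g p ≠ p`; let `g p = a` so `g = (p a)(b c)`.  Identify the other 13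
points with `Z/13` such that `y z = z + 1`.  At most 6 of the 12 nonzero residues are differences of two elements of
`{a, b, c}`, so for some `k ≠ 0` the sets `{a,b,c}` and `{a+k, b+k, c+k}` are disjoint, and the supports of `g` and
`g' = y^k g y^-k` meet only in `p`; their commutator is a 3-cycle.  JCYC. -/
def S_EVEN : Prop :=
  ∀ H : Subgroup (Perm Om), TwoTrans H → H ≤ Alt → 1024 ∣ Nat.card H → Alt ≤ H

/-- FOUR.  `4 ∣ |H|` if `H` is doubly transitive.
Proof.  `182 = 14 * 13 ∣ |H|`.  If `|H| = 2 m`, `m` odd, a Sylow 2-subgroup `P` has order 2, so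
`N_H(P) = C_H(P)` and by Burnside's transfer theorem (`MonoidHom.ker_transferSylow_isComplement'`) `H` has a normal
subgroup `K` of odd order `m > 1`.  A nontrivial normal subgroup of a doubly transitive group is transitive (let
`k x ≠ x`, `k ∈ K`; for `y ≠ x` some `h ∈ H` has `h x = x`, `h (k x) = y`, so `h k h⁻¹ x = y`).  So `14 ∣ |K|`: contradiction. -/
def S_FOUR : Prop :=
  ∀ H : Subgroup (Perm Om), TwoTrans H → 4 ∣ Nat.card H

/-- THIRTEEN.  Let `Y = ⟨y⟩` be a Sylow 13-subgroup of `H` (order 13; `y` is a 13-cycle with one fixed point `p`),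
`N = N_H(Y)`.  `C_H(Y) = Y` (only powers of `y` commute with `y` in `S_14`), and `N/Y` embeds in `Aut(Y)`, cyclic of
order 12; so `|N| = 13 f`, `f ∣ 12`, and `|H : N| = 1` mod 13.  If `4 ∣ f`, some `h ∈ N` has `h y h⁻¹ = y ^ 5` (the
image of `N` in `(Z/13)^*` contains the subgroup of order 4); identify the points with `Z/13 ∪ {p}` so that
`y z = z + 1`; then `h z = 5 z + c`, which is an odd permutation: contradiction to `H ≤ A_14`.  If `f = 1`,
Burnside's transfer theorem (`MonoidHom.ker_transferSylow_isComplement'`) gives a normal subgroup `K` of `H` with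
`|K| = |H|/13`, `13 ∤ |K|`.  `K ≠ 1` is transitive (see FOUR); `K_p = K ∩ H_p` is normal in `H_p`, which is transitive on
the 13 other points, so all orbits of `K_p` there have the same size, dividing 13; it is not 13 as `13 ∤ |K|`; so
`K_p = 1`, `|K| = 14` and `|H| = 182`. -/
def S_THIRTEEN : Prop :=
  ∀ H : Subgroup (Perm Om), TwoTrans H → H ≤ Alt →
    Nat.card H = 182 ∨ ∃ f n, (f = 2 ∨ f = 3 ∨ f = 6) ∧ Nat.card H = 13 * f * n ∧ n % 13 = 1

/-- SEVEN.  Let `P = ⟨s0⟩`, a Sylow 7-subgroup of `H` (as `49 ∤ |H|`).  A permutation commuting with `s0` either acts as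
a power of `s0` on each of the two cycles, or swaps the cycles; in the second case it is an odd permutation
(`a ↦ 7 + (a + i)`, `7 + b ↦ b + j` is a product of the odd `a ↔ 7 + a` and even ones).  So `C_H(P)` is contained in a
group of order 49, `C_H(P) = P`.  `N_H(P)/P` embeds in `Aut(P)`, cyclic of order 6, so `|N_H(P)| = 7 f`, `f ∣ 6`, and
`|H : N_H(P)| = 1` mod 7.  If `f = 1`, Burnside's transfer theorem gives a normal subgroup `K` with `|K| = |H|/7`,
`7 ∤ |K|`, `K ≠ 1`; it is transitive (see FOUR), so `7 ∣ |K|`: contradiction. -/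
def S_SEVEN : Prop :=
  ∀ H : Subgroup (Perm Om), TwoTrans H → H ≤ Alt → s0 ∈ H → ¬ 49 ∣ Nat.card H →
    ∃ f n, (f = 2 ∨ f = 3 ∨ f = 6) ∧ Nat.card H = 7 * f * n ∧ n % 7 = 1

/-- STRA.  If `|H| = 1092 = 84 * 13`, a Sylow 13-subgroup `Y = ⟨y⟩` has order 13 and is not normal (it fixes a point and
`H` is transitive), so the number of Sylow 13-subgroups (`= 1` mod 13, divides 84) is 14 and `|N_H(Y)| = 78`.
`C_H(Y) = Y`, so `N_H(Y)/Y` has order 6 and its image in the cyclic group `(Z/13)^*` of order 12 is the group of
squares, which contains 4: some `n ∈ N_H(Y)` has `n y n⁻¹ = y ^ 4`.  Choose `k` with `y = k y13 k⁻¹` (both are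
13-cycles).  `n' = k⁻¹ n k` satisfies `n' y13 n'⁻¹ = y13 ^ 4`, so it fixes 13 and `n' z = 4 z + c`; so
`y13 ^ (-c) n' = m4`. -/
def S_STRA : Prop :=
  ∀ H : Subgroup (Perm Om), TwoTrans H → H ≤ Alt → Nat.card H = 1092 →
    ∃ k : Perm Om, k * y13 * k⁻¹ ∈ H ∧ k * m4 * k⁻¹ ∈ H

/-- STRB.  `H` is contained in the list `L0`.
Proof.  `|H| = 1092 = 14 * 78`, so the stabiliser of `∞ = 13` has order 78 and consists of the 78 elements
`y13 ^ b * m4 ^ i` (`= aff i b`), the stabiliser of `0` and `∞` is `⟨m4⟩` of order 6.  Let `t ∈ H` swap `0` and `∞`.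
`t m4 t⁻¹` generates the stabiliser of `0` and `∞`, so it is `m4` or `m4⁻¹`.  So `t` is one of the 144 permutations
with `t (4 z) = 4^{±1} t z`, determined by the sign, `t 1` and `t 2` (finite check, verified by computer): 72 of them
are odd (excluded by `H ≤ A_14`), 6 are `tt ∘ m4 ^ i` and for the other 66 some word `t * y13^a * t * y13^b` has an order
not dividing 1092 or is `≠ 1` and has at least 3 fixed points (impossible: a conjugate of it in `H` would fix `0`,
`∞` and another point, but the elements `≠ 1` of `⟨m4⟩` have exactly two fixed points).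
So `tt ∈ H` (as a permutation).  If `h ∈ H` fixes `∞` it is some `aff i b`; otherwise `a := h ∞ ≠ ∞` and
`tt⁻¹ * y13 ^ (-a) * h` fixes `∞`, so `h = y13 ^ a * tt * aff i b`. -/
def S_STRB : Prop :=
  ∀ H : Subgroup (Perm Om), TwoTrans H → H ≤ Alt → Nat.card H = 1092 → y13 ∈ H → m4 ∈ H →
    ∀ h ∈ H, InL0 h

/-- CONJ.  If `H ∋ s0` has order 1092 and is conjugate into `L0`, then it is one of 21 explicit groups.
Proof.  `K = k⁻¹ H k` is a group of order 1092 contained in the set `L0` of at most `78 + 13 * 78 = 1092` permutations,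
so `K = L0` (so `L0` is a group).  Let `c = k1⁻¹ s0 k1 ∈ L0` and `l = k⁻¹ s0 k ∈ L0`, both of order 7.  By Sylow in `K`
(`49 ∤ 1092`), or by a finite check, there are `v ∈ L0`, `e ∈ {1..6}` with `v⁻¹ l v = c ^ e`.  Then
`w := k v k1⁻¹` satisfies `w s0^e w⁻¹ = s0`, so `w` is one of `98` explicit permutations for each `e` (`w 0` and `w 7`
in different cycles of `s0`, `w (a + e) = w a + 1` in each cycle), and `H = k L0 k⁻¹ = (w k1) L0 (w k1)⁻¹`.
For each of these 588 `w` (finite check) there are `u, j` such that `k1⁻¹ (nn u j)⁻¹ w k1` is an element of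
`PGL_2(13)` (a map `z ↦ g z + b` or `z ↦ g * (-1/(4^i z + b)) + a`, `g ∈ {1, 2}` suffices together with the other
parameters; i.e. an element of `L0` or `m2 *` an element of `L0`, with `m2 z = 2 z`), and `m2 L0 m2⁻¹ = L0`
(finite check); so `H = (nn u j * k1) L0 (nn u j * k1)⁻¹`.  (Verified by computer: the 588 `w k1` give exactly the 21
groups `(nn u j * k1) L0 (nn u j * k1)⁻¹`.) -/
def S_CONJ : Prop :=
  ∀ H : Subgroup (Perm Om), s0 ∈ H → Nat.card H = 1092 → (∃ k : Perm Om, ∀ h ∈ H, InL0 (k⁻¹ * h * k)) →
    ∃ u j, ∀ h ∈ H, InL0 ((nn u j * k1)⁻¹ * h * (nn u j * k1))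

/-- CHECK1 (finite, verified by computer): the only even permutation `x` which for every `i = 0..3` preserves
(after conjugation by `lab i`) the partition into two 7-sets or one of the seven matchings is `1`.
(There are exactly 101 such permutations of the 14 points: `1`, the 91 transpositions, 9 other odd ones.)
Efficient search: for points `p ≠ p'` let the 32-bit mask `C p p'` have in its `i`-th byte: bit 7 set iff
`p, p'` are on different sides of the partition `i`, bit `j < 7` set iff `p'` is the partner of `p` in the `j`-th matching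
of system `i` (i.e. `p' = lab i (tau j ((lab i)⁻¹ p))`); `x` violates exactly those of the 32 structures whose bits are
set in the OR over all pairs `p < p'` of `C p p' XOR C (x p) (x p')`.  So do a depth first search over `x 0, x 1, ...`
with the OR mask as state, cut when some byte is `0xFF` (about 76,000 - 146,000 nodes: the order of the points
9 7 4 5 0 10 1 11 2 3 13 12 8 6 gives 76,256 nodes, the natural order 146,101); prove the
soundness of the search and evaluate it with `decide +kernel` in pieces (for instance one piece per value of `x` at the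
first point).  Encode everything by `Nat` literals with `Nat.lor, Nat.xor, Nat.land, Nat.shiftRight, Nat.testBit`. -/
def S_CHECK1 : Prop :=
  ∀ x : Perm Om, x ∈ Alt →
    (∀ i, PresP ((lab i)⁻¹ * x * lab i) ∨ ∃ j, PresT j ((lab i)⁻¹ * x * lab i)) → x = 1

/-- CHECK2 (finite, verified by computer): for every `i`, every one of the 21 groups and every `l ≠ 1` in `L0`, the element
`x` of the corresponding subgroup containing `ss i` is good for another `i'`: it preserves none of the 8 structures of
system `i'`, and `⟨x, ss i'⟩` contains an element whose order does not divide 1092.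
It suffices to look at one generator `l` of each subgroup of prime order of `L0` (274 of them: 91 of order 2, 91 of
order 3, 78 of order 7, 14 of order 13), since all conclusions pass from a power of `x` to `x`.  For these
`4 * 21 * 274 = 23016` elements `x`, `w = x * (ss i') ^ a` with some `a ∈ {1..6}`, `i' ≠ i` and a cycle of length 5, 8, 9,
10 or 11 works in all but 7 cases, mostly with `i' = i + 1`, `a = 1, 2, 3`; in the 7 remaining cases take
`w = x * (ss i') ^ a * x * (ss i') ^ b`.  To show `w ^ 1092 ≠ 1` it is enough to find a point whose cycle under `w` has a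
length not dividing 1092.  Encode permutations as 56-bit numbers (4 bits per point). -/
def S_CHECK2 : Prop :=
  ∀ (i : Fin 4) (u : Fin 3) (j : Fin 7) (l : Perm Om), InL0 l → l ≠ 1 →
    ∀ x, x = lab i * (nn u j * k1) * l * (nn u j * k1)⁻¹ * (lab i)⁻¹ →
    ∃ i', (¬ PresP ((lab i')⁻¹ * x * lab i')) ∧ (∀ j', ¬ PresT j' ((lab i')⁻¹ * x * lab i')) ∧
      ∃ w ∈ Subgroup.closure {x, ss i'}, w ^ 1092 ≠ 1

/-- BASE.  At most four 5-subsets of the 14 points are all fixed by some even permutation `g ≠ 1`.
Proof.  Let `v a ⊆ B` be the set of members of `B` containing the point `a`.  `∑_a |v a| = ∑_b |b| ≤ 20`.  If the 14 sets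
`v a` took at least 13 values, the sum would be at least the sum of the 13 smallest sizes of the 16 subsets of a
4-set, `0 + 4*1 + 6*2 + 2*3 = 22`.  So there are at most 12 values; hence either three points have the same `v` (take a
3-cycle) or there are two disjoint pairs of points with the same `v` (take the product of the two transpositions). -/
def S_BASE : Prop :=
  ∀ B : Finset (Finset Om), (∀ b ∈ B, b.card = 5) → B.card ≤ 4 →
    ∃ g : Perm Om, g ∈ Alt ∧ g ≠ 1 ∧ ∀ b ∈ B, b.map g.toEmbedding = b

end Pool.Agent.H330.A14
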