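import Pool.Agent.H330.A14.Spec

namespace Pool.Agent.H330.A14

open Equiv

namespace THIRTEEN

/-- the powers of `y13` -/
theorem y13_pow : ∀ (i : Fin 13) (z : Om), (y13 ^ (i : ℕ)) z =
    if z = 13 then 13 else ⟨(z.val + i.val) % 13, by omega⟩ := by
  decide +kernel

theorem y13_13 : y13 13 = 13 := by decide +kernel

theorem y13_pow13 : y13 ^ 13 = 1 := by decide +kernel

theorem y13_ne : y13 ≠ 1 := by decide +kernel

theorem orderOf_y13 : orderOf y13 = 13 := by
  haveI : Fact (Nat.Prime 13) := ⟨by norm_num⟩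
  exact orderOf_eq_prime y13_pow13 y13_ne

theorem y13_move : ∀ (i : Fin 13) (z : Om), i ≠ 0 → (y13 ^ (i : ℕ)) z = z → z = 13 := by
  decide +kernel

theorem y13_reach : ∀ z : Om, z ≠ 13 → ∃ i : Fin 13, (y13 ^ (i : ℕ)) 0 = z := by
  decide +kernel

/-- `z ↦ 2 z` -/
def mul2 : Perm Om :=
  ⟨![0, 2, 4, 6, 8, 10, 12, 1, 3, 5, 7, 9, 11, 13],
   ![0, 7, 1, 8, 2, 9, 3, 10, 4, 11, 5, 12, 6, 13], by decide, by decide⟩

theorem mul2_sq : mul2 ^ 2 = m4 := by decide +kernel

theorem mul2_pow : ∀ r : Fin 13, r ≠ 0 → ∃ j : Fin 12, ∀ z : Fin 13,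
    (mul2 ^ (j : ℕ)) z.castSucc = (y13 ^ ((r.val * z.val) % 13)) 0 := by
  decide +kernel

theorem mul2_13 : ∀ j : Fin 12, (mul2 ^ (j : ℕ)) 13 = 13 := by decide +kernel

theorem sign_mul2 : Perm.sign mul2 = -1 := by decide +kernel

theorem orderOf_m4 : orderOf m4 = 6 := by
  rw [orderOf_eq_iff (by norm_num)]
  decide +kernel

theorem inv_app (h : Perm Om) (x : Om) : h⁻¹ (h x) = x := h.symm_apply_apply x

theorem app_inv (h : Perm Om) (x : Om) : h (h⁻¹ x) = x := h.apply_symm_apply x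

/-- orbit-stabiliser -/
theorem card_orb (K : Subgroup (Perm Om)) (a : Om) (T : Set Om)
    (hT : ∀ b, b ∈ T ↔ ∃ k ∈ K, k a = b) :
    Nat.card K = T.ncard * Nat.card ↥(K ⊓ MulAction.stabilizer (Perm Om) a) := by
  have h1 : (MulAction.stabilizer K a).index = (MulAction.orbit K a).ncard :=
    MulAction.index_stabilizer K a
  have h2 : MulAction.orbit K a = T := by
    ext b
    rw [hT b]
    constructor
    · rintro ⟨k, rfl⟩
      exact ⟨k.1, k.2, rfl⟩
    · rintro ⟨k, hk, rfl⟩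
      exact ⟨⟨k, hk⟩, rfl⟩
  have h3 : Nat.card (MulAction.stabilizer K a) =
      Nat.card ↥(K ⊓ MulAction.stabilizer (Perm Om) a) := by
    refine Nat.card_congr ⟨fun x => ⟨x.1.1, x.1.2, x.2⟩, fun x => ⟨⟨x.1, x.2.1⟩, x.2.2⟩, ?_, ?_⟩
    · intro x; rfl
    · intro x; rfl
  rw [← Subgroup.index_mul_card (MulAction.stabilizer K a), h1, h2, h3]

/-- the thirteen points different from 13 -/
theorem ncard_ne : ({b : Om | b ≠ 13} : Set Om).ncard = 13 := by
  have h : ({b : Om | b ≠ 13} : Set Om) = ((Finset.univ.filter (fun b : Om => b ≠ 13) :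
      Finset Om) : Set Om) := by
    ext b; simp
  rw [h, Set.ncard_coe_finset]
  decide +kernel

/-- structure of the normaliser of `y13` -/
theorem norm_fix (h : Perm Om) (hn : h ∈ Subgroup.normalizer (Subgroup.zpowers y13)) :
    ∃ r : Fin 13, r ≠ 0 ∧ h * y13 * h⁻¹ = y13 ^ (r : ℕ) ∧ h 13 = 13 := by
  have h1 : h * y13 * h⁻¹ ∈ Subgroup.zpowers y13 :=
    (Subgroup.mem_normalizer_iff.1 hn y13).1 (Subgroup.mem_zpowers y13)
  rw [← mem_powers_iff_mem_zpowers, Submonoid.mem_powers_iff] at h1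
  obtain ⟨n, hn1⟩ := h1
  have h2 : y13 ^ (n % 13) = y13 ^ n := by
    have := pow_mod_orderOf y13 n
    rwa [orderOf_y13] at this
  refine ⟨⟨n % 13, Nat.mod_lt _ (by norm_num)⟩, ?_, ?_, ?_⟩
  · intro h3
    have h4 : n % 13 = 0 := congrArg Fin.val h3
    rw [h4, pow_zero] at h2
    rw [← h2] at hn1
    apply y13_ne
    have h5 : h * y13 * h⁻¹ = 1 := hn1.symm
    have h6 : h * y13 = h := by
      rw [mul_inv_eq_one] at h5
      exact h5
    exact mul_eq_left.1 h6
  · show h * y13 * h⁻¹ = y13 ^ (n % 13)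
    rw [h2, hn1]
  · have h3 : (h * y13 * h⁻¹) (h 13) = h 13 := by
      rw [Perm.mul_apply, Perm.mul_apply, inv_app, y13_13]
    rw [← hn1, ← h2] at h3
    by_cases h4 : n % 13 = 0
    · exfalso
      rw [h4, pow_zero] at h2
      rw [← h2] at hn1
      apply y13_ne
      have h5 : h * y13 * h⁻¹ = 1 := hn1.symm
      have h6 : h * y13 = h := by
        rw [mul_inv_eq_one] at h5
        exact h5
      exact mul_eq_left.1 h6
    · exact y13_move ⟨n % 13, Nat.mod_lt _ (by norm_num)⟩ (h 13)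
        (fun h5 => h4 (congrArg Fin.val h5)) h3

theorem norm_zero (h : Perm Om) (hn : h ∈ Subgroup.normalizer (Subgroup.zpowers y13))
    (h0 : h 0 = 0) (hs : Perm.sign h = 1) : h ∈ Subgroup.zpowers m4 := by
  obtain ⟨r, hr, hc, h13⟩ := norm_fix h hn
  obtain ⟨j, hj⟩ := mul2_pow r hr
  have hpow : ∀ k : ℕ, h * y13 ^ k * h⁻¹ = y13 ^ ((r : ℕ) * k) := by
    intro k
    rw [← conj_pow, hc, pow_mul]
  have hz : ∀ z : Fin 13, h z.castSucc = (mul2 ^ (j : ℕ)) z.castSucc := by
    intro z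
    rw [hj z]
    have h1 : (y13 ^ (z : ℕ)) 0 = z.castSucc := by
      rw [y13_pow z 0, if_neg (by decide)]
      apply Fin.ext
      simp only [Fin.val_castSucc]
      have := z.2
      show (0 + z.val) % 13 = z.val
      omega
    have h2 : (h * y13 ^ (z : ℕ) * h⁻¹) (h 0) = h z.castSucc := by
      rw [Perm.mul_apply, Perm.mul_apply, inv_app, h1]
    rw [hpow, h0] at h2
    rw [← h2]
    have h3 := pow_mod_orderOf y13 ((r : ℕ) * (z : ℕ))
    rw [orderOf_y13] at h3
    rw [h3]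
  have heq : h = mul2 ^ (j : ℕ) := by
    apply Equiv.ext
    intro z
    by_cases hz13 : z = 13
    · rw [hz13, h13, mul2_13 j]
    · have hlt : z.val < 13 := by
        have h1 := z.2
        have h2 : z.val ≠ 13 := fun h => hz13 (Fin.ext h)
        omega
      exact hz ⟨z.val, hlt⟩
  rw [heq, map_pow, sign_mul2] at hs
  have heven : Even (j : ℕ) := by
    rcases Nat.even_or_odd (j : ℕ) with he | ho
    · exact he
    · rw [ho.neg_one_pow] at hs
      exact absurd hs (by decide)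
  obtain ⟨i, hi⟩ := heven
  rw [heq, hi, ← two_mul, pow_mul, mul2_sq]
  exact Subgroup.npow_mem_zpowers _ _

theorem card_Y : Nat.card (Subgroup.zpowers y13) = 13 := by
  rw [Nat.card_zpowers, orderOf_y13]

/-- the factorial -/
theorem not_sq (H : Subgroup (Perm Om)) : ¬ 169 ∣ Nat.card H := by
  intro h
  have h1 : Nat.card H ∣ Nat.card (Perm Om) := Subgroup.card_subgroup_dvd_card H
  rw [Nat.card_perm, Nat.card_fin] at h1
  have h2 := h.trans h1
  revert h2
  decide +kernel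

theorem fact13 (H : Subgroup (Perm Om)) (hd : 13 ∣ Nat.card H) :
    (Nat.card H).factorization 13 = 1 := by
  obtain ⟨m, hm⟩ := hd
  have hm0 : m ≠ 0 := by
    rintro rfl
    have := Nat.card_pos (α := H)
    omega
  have hnd : ¬ 13 ∣ m := by
    rintro ⟨l, rfl⟩
    apply not_sq H
    exact ⟨l, by rw [hm]; ring⟩
  rw [hm, Nat.factorization_mul (by norm_num) hm0]
  have h1 : (13 : ℕ).factorization 13 = 1 := (by norm_num : Nat.Prime 13).factorization_self
  have h2 : m.factorization 13 = 0 := Nat.factorization_eq_zero_of_not_dvd hnd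
  rw [Finsupp.add_apply, h1, h2]

theorem zero_pow (k : ℕ) (h : (y13 ^ k) 0 = 0) : y13 ^ k = 1 := by
  have h1 := pow_mod_orderOf y13 k
  rw [orderOf_y13] at h1
  rw [← h1] at h ⊢
  have h2 : k % 13 < 13 := Nat.mod_lt _ (by norm_num)
  by_cases h3 : k % 13 = 0
  · rw [h3, pow_zero]
  · have h4 := y13_move ⟨k % 13, h2⟩ 0 (fun h5 => h3 (congrArg Fin.val h5)) h
    exact absurd h4 (by decide)

/-- the case of a self-normalising Sylow 13-subgroup -/
theorem self_norm (H : Subgroup (Perm Om)) (hT : TwoTrans H)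
    (hN : H ⊓ Subgroup.normalizer (Subgroup.zpowers y13) ≤ Subgroup.zpowers y13)
    (hy : y13 ∈ H) : Nat.card H = 182 := by
  classical
  have hT13 : ∀ b : Om, ∃ h ∈ H, h 13 = b := by
    intro b
    by_cases hb : b = 0
    · obtain ⟨h, hh, h1, -⟩ := hT 13 0 b 1 (by decide) (by rw [hb]; decide)
      exact ⟨h, hh, h1⟩
    · obtain ⟨h, hh, h1, -⟩ := hT 13 0 b 0 (by decide) hb
      exact ⟨h, hh, h1⟩
  set G := H ⊓ MulAction.stabilizer (Perm Om) (13 : Om) with hG
  have hGm : ∀ g : Perm Om, g ∈ G ↔ g ∈ H ∧ g 13 = 13 := fun g => Iff.rfl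
  have cH : Nat.card H = 14 * Nat.card G := by
    have h1 := card_orb H 13 Set.univ (fun b => ⟨fun _ => hT13 b, fun _ => Set.mem_univ b⟩)
    rw [Set.ncard_univ, Nat.card_fin] at h1
    exact h1
  have cG : ∀ z : Om, z ≠ 13 →
      Nat.card G = 13 * Nat.card ↥(G ⊓ MulAction.stabilizer (Perm Om) z) := by
    intro z hz
    have h1 := card_orb G z {b | b ≠ 13} (by
      intro b
      constructor
      · intro hb
        obtain ⟨h, hh, h1, h2⟩ := hT 13 z 13 b (Ne.symm hz) (Ne.symm hb)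
        exact ⟨h, (hGm h).2 ⟨hh, h1⟩, h2⟩
      · rintro ⟨k, hk, rfl⟩ hcon
        have h2 := ((hGm k).1 hk).2
        exact hz (k.injective (hcon.trans h2.symm)))
    rw [ncard_ne] at h1
    exact h1
  have hyG : y13 ∈ G := (hGm _).2 ⟨hy, y13_13⟩
  set S := fun z : Om => G ⊓ MulAction.stabilizer (Perm Om) z with hS
  have hSm : ∀ (z : Om) (g : Perm Om), g ∈ S z ↔ g ∈ G ∧ g z = z := fun z g => Iff.rfl
  -- the map
  set F : (S 0) × Fin 12 → Perm Om := fun p => p.1.1 * y13 ^ (p.2.val + 1) * (p.1.1)⁻¹ with hF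
  have hFinj : Function.Injective F := by
    rintro ⟨s, i⟩ ⟨s', i'⟩ he
    have he' : s.1 * y13 ^ (i.val + 1) * (s.1)⁻¹ = s'.1 * y13 ^ (i'.val + 1) * (s'.1)⁻¹ := he
    set t := s'.1⁻¹ * s.1 with ht
    have h1 : t * y13 ^ (i.val + 1) * t⁻¹ = y13 ^ (i'.val + 1) := by
      rw [ht, mul_inv_rev, inv_inv]
      calc s'.1⁻¹ * s.1 * y13 ^ (i.val + 1) * (s.1⁻¹ * s'.1)
          = s'.1⁻¹ * (s.1 * y13 ^ (i.val + 1) * (s.1)⁻¹) * s'.1 := by group
        _ = s'.1⁻¹ * (s'.1 * y13 ^ (i'.val + 1) * (s'.1)⁻¹) * s'.1 := by rw [he']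
        _ = y13 ^ (i'.val + 1) := by group
    have h2 : ∃ e : ℕ, y13 = (y13 ^ (i.val + 1)) ^ e := by
      have : ∀ i : Fin 12, ∃ e : Fin 13, y13 = (y13 ^ (i.val + 1)) ^ (e : ℕ) := by
        decide +kernel
      obtain ⟨e, he⟩ := this i
      exact ⟨e, he⟩
    obtain ⟨e, he2⟩ := h2
    have h3 : t * y13 * t⁻¹ = y13 ^ ((i'.val + 1) * e) := by
      conv_lhs => rw [he2]
      rw [← conj_pow, h1, pow_mul]
    have h4 : t ∈ Subgroup.normalizer (Subgroup.zpowers y13 : Set (Perm Om)) := by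
      apply Subgroup.mem_normalizer_fintype
      intro w hw
      obtain ⟨k, rfl⟩ := Subgroup.mem_zpowers_iff.1 hw
      rw [← conj_zpow, h3]
      exact Subgroup.zpow_mem _ (Subgroup.npow_mem_zpowers _ _) _
    have h5 : t ∈ Subgroup.zpowers y13 := by
      apply hN
      refine ⟨H.mul_mem (H.inv_mem ?_) ?_, h4⟩
      · exact ((hGm _).1 ((hSm _ _).1 s'.2).1).1
      · exact ((hGm _).1 ((hSm _ _).1 s.2).1).1
    rw [← mem_powers_iff_mem_zpowers, Submonoid.mem_powers_iff] at h5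
    obtain ⟨k, hk⟩ := h5
    have h6 : t 0 = 0 := by
      have h7 : s'.1 0 = 0 := ((hSm _ _).1 s'.2).2
      have h8 : s'.1⁻¹ (s'.1 0) = 0 := inv_app s'.1 0
      rw [h7] at h8
      rw [ht, Perm.mul_apply, ((hSm _ _).1 s.2).2]
      exact h8
    rw [← hk] at h6
    have h7 := zero_pow k h6
    rw [hk] at h7
    have h8 : s = s' := by
      apply Subtype.ext
      rw [ht, inv_mul_eq_one] at h7
      exact h7.symm
    rw [h7, one_mul, inv_one, mul_one] at h1
    have h9 : i = i' := by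
      have : ∀ i i' : Fin 12, y13 ^ (i.val + 1) = y13 ^ (i'.val + 1) → i = i' := by
        decide +kernel
      exact this i i' h1
    rw [h8, h9]
  have hFr : ∀ z : Om, z ≠ 13 → Set.range F = (G : Set (Perm Om)) \ (S z : Set (Perm Om)) := by
    intro z hz
    apply Set.eq_of_subset_of_ncard_le
    · rintro _ ⟨⟨s, i⟩, rfl⟩
      have hsG : s.1 ∈ G := ((hSm _ _).1 s.2).1
      refine ⟨G.mul_mem (G.mul_mem hsG (G.pow_mem hyG _)) (G.inv_mem hsG), ?_⟩
      intro hcon
      have h1 := ((hSm _ _).1 hcon).2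
      have h2 : (y13 ^ (i.val + 1)) (s.1⁻¹ z) = s.1⁻¹ z := by
        have h3 : s.1⁻¹ ((s.1 * y13 ^ (i.val + 1) * (s.1)⁻¹) z) = s.1⁻¹ z := by rw [h1]
        rw [Perm.mul_apply, Perm.mul_apply, inv_app] at h3
        exact h3
      have h3 := y13_move ⟨i.val + 1, by omega⟩ (s.1⁻¹ z)
        (fun h => by have := congrArg Fin.val h; simp at this) h2
      have h4 : s.1 13 = 13 := ((hGm _).1 hsG).2
      apply hz
      rw [← app_inv s.1 z, h3, h4]
    · rw [Set.ncard_range_of_injective hFinj, Nat.card_prod, Nat.card_fin,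
        Set.ncard_diff (fun x hx => ((hSm _ _).1 hx).1)]
      have h1 := cG 0 (by decide)
      have h2 := cG z hz
      have h3 : (G : Set (Perm Om)).ncard = Nat.card G := (Nat.card_coe_set_eq _).symm
      have h4 : (S z : Set (Perm Om)).ncard = Nat.card ↥(G ⊓ MulAction.stabilizer (Perm Om) z) :=
        (Nat.card_coe_set_eq _).symm
      have h5 : Nat.card (S 0) = Nat.card ↥(G ⊓ MulAction.stabilizer (Perm Om) (0 : Om)) := rfl
      rw [h3, h4, h5]
      omega
    · exact Set.toFinite _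
  have hS1 : S 0 = ⊥ := by
    rw [Subgroup.eq_bot_iff_forall]
    intro s hs
    have hsG := ((hSm _ _).1 hs).1
    apply Equiv.ext
    intro z
    by_cases hz : z = 13
    · rw [hz, ((hGm _).1 hsG).2]; rfl
    · by_contra hne
      have h1 : s ∈ (G : Set (Perm Om)) \ (S z : Set (Perm Om)) :=
        ⟨hsG, fun h => hne ((hSm _ _).1 h).2⟩
      rw [← hFr z hz, hFr 0 (by decide)] at h1
      exact h1.2 hs
  have h1 := cG 0 (by decide)
  have h2 : Nat.card ↥(G ⊓ MulAction.stabilizer (Perm Om) (0 : Om)) = 1 := by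
    have : G ⊓ MulAction.stabilizer (Perm Om) (0 : Om) = ⊥ := hS1
    rw [this]
    exact Subgroup.card_bot
  rw [cH, h1, h2]

theorem core (H : Subgroup (Perm Om)) (hT : TwoTrans H) (hA : H ≤ Alt) (hy : y13 ∈ H) :
    Nat.card H = 182 ∨ ∃ f n, (f = 2 ∨ f = 3 ∨ f = 6) ∧ Nat.card H = 13 * f * n ∧ n % 13 = 1 := by
  classical
  haveI : Fact (Nat.Prime 13) := ⟨by norm_num⟩
  set Y := Subgroup.zpowers y13 with hY
  have hYH : Y ≤ H := by
    rw [hY, Subgroup.zpowers_le]
    exact hy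
  set N := H ⊓ Subgroup.normalizer (Y : Set (Perm Om)) with hN
  have hYN : Y ≤ N := le_inf hYH Subgroup.le_normalizer
  have hN0 : Nat.card N = 13 * Nat.card ↥(N ⊓ MulAction.stabilizer (Perm Om) (0 : Om)) := by
    have h1 := card_orb N 0 {b | b ≠ 13} (by
      intro b
      constructor
      · intro hb
        obtain ⟨i, hi⟩ := y13_reach b hb
        exact ⟨_, hYN (Subgroup.npow_mem_zpowers y13 _), hi⟩
      · rintro ⟨k, hk, rfl⟩ hcon
        obtain ⟨r, -, -, h13⟩ := norm_fix k hk.2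
        have h2 := k.injective (hcon.trans h13.symm)
        exact absurd h2 (by decide))
    rw [ncard_ne] at h1
    exact h1
  have hle : N ⊓ MulAction.stabilizer (Perm Om) (0 : Om) ≤ Subgroup.zpowers m4 := by
    intro h hh
    exact norm_zero h hh.1.2 hh.2 (Equiv.Perm.mem_alternatingGroup.1 (hA hh.1.1))
  set f := Nat.card ↥(N ⊓ MulAction.stabilizer (Perm Om) (0 : Om)) with hf
  have hf6 : f ∣ 6 := by
    have h1 := Subgroup.card_dvd_of_le hle
    rw [Nat.card_zpowers, orderOf_m4] at h1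
    exact h1
  have h13H : 13 ∣ Nat.card H := by
    have h1 := Subgroup.card_dvd_of_le hYH
    rw [card_Y] at h1
    exact h1
  have hcY : Nat.card (Y.subgroupOf H) = 13 := by
    rw [Nat.card_congr (Subgroup.subgroupOfEquivOfLe hYH).toEquiv]
    exact card_Y
  let P : Sylow 13 H := Sylow.ofCard (Y.subgroupOf H) (by
    rw [hcY, fact13 H h13H, pow_one])
  have hP : (P : Subgroup H) = Y.subgroupOf H := rfl
  have h1 := card_sylow_modEq_one 13 H
  have h2 : Nat.card (Sylow 13 H) = (Subgroup.normalizer ((P : Subgroup H) : Set H)).index :=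
    Sylow.card_eq_index_normalizer P
  have h3 : Nat.card (Subgroup.normalizer ((P : Subgroup H) : Set H)) = Nat.card N := by
    rw [hP, ← Subgroup.subgroupOf_normalizer_eq hYH]
    refine Nat.card_congr ⟨fun x => ⟨x.1.1, x.1.2, x.2⟩, fun x => ⟨⟨x.1, x.2.1⟩, x.2.2⟩, ?_, ?_⟩
    · intro x; rfl
    · intro x; rfl
  have h4 := Subgroup.index_mul_card (Subgroup.normalizer ((P : Subgroup H) : Set H))
  rw [h3, ← h2, hN0] at h4
  have h5 : Nat.card (Sylow 13 H) % 13 = 1 := h1
  by_cases hf1 : f = 1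
  · left
    apply self_norm H hT _ hy
    have h6 : Y = N := by
      apply Subgroup.eq_of_le_of_card_ge hYN
      rw [hN0, hf1, hY, card_Y]
    rw [← hN, ← h6]
  · right
    refine ⟨f, Nat.card (Sylow 13 H), ?_, ?_, h5⟩
    · have h7 : f ≤ 6 := Nat.le_of_dvd (by norm_num) hf6
      interval_cases f
      · exact absurd hf6 (by norm_num)
      · exact absurd rfl hf1
      · left; rfl
      · right; left; rfl
      · exact absurd hf6 (by norm_num)
      · exact absurd hf6 (by norm_num)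
      · right; right; rfl
    · rw [← h4]; ring

end THIRTEEN

open THIRTEEN

theorem h_THIRTEEN : S_THIRTEEN := by
  intro H hT hA
  haveI : Fact (Nat.Prime 13) := ⟨by norm_num⟩
  have hT13 : ∀ b : Om, ∃ h ∈ H, h 13 = b := by
    intro b
    by_cases hb : b = 0
    · obtain ⟨h, hh, h1, -⟩ := hT 13 0 b 1 (by decide) (by rw [hb]; decide)
      exact ⟨h, hh, h1⟩
    · obtain ⟨h, hh, h1, -⟩ := hT 13 0 b 0 (by decide) hb
      exact ⟨h, hh, h1⟩
  have cH : Nat.card H = 14 * Nat.card ↥(H ⊓ MulAction.stabilizer (Perm Om) (13 : Om)) := by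
    have h1 := card_orb H 13 Set.univ (fun b => ⟨fun _ => hT13 b, fun _ => Set.mem_univ b⟩)
    rw [Set.ncard_univ, Nat.card_fin] at h1
    exact h1
  have cG : 13 ∣ Nat.card ↥(H ⊓ MulAction.stabilizer (Perm Om) (13 : Om)) := by
    have h1 := card_orb (H ⊓ MulAction.stabilizer (Perm Om) (13 : Om)) 0 {b | b ≠ 13} (by
      intro b
      constructor
      · intro hb
        obtain ⟨h, hh, h1, h2⟩ := hT 13 0 13 b (by decide) (Ne.symm hb)
        exact ⟨h, ⟨hh, h1⟩, h2⟩
      · rintro ⟨k, hk, rfl⟩ hcon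
        have h2 : k 13 = 13 := hk.2
        have h3 := k.injective (hcon.trans h2.symm)
        exact absurd h3 (by decide))
    rw [ncard_ne] at h1
    exact ⟨_, h1⟩
  have h13H : 13 ∣ Nat.card H := by
    rw [cH]
    exact Dvd.dvd.mul_left cG 14
  obtain ⟨y, hy⟩ := exists_prime_orderOf_dvd_card' 13 h13H
  have hyo : orderOf y.1 = 13 := by
    rw [← hy]
    exact Subgroup.orderOf_coe y
  have hc1 : ∀ w : Perm Om, orderOf w = 13 → w.IsCycle := by
    intro w hw
    apply Equiv.Perm.isCycle_of_prime_order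
    · rw [hw]; norm_num
    · rw [hw]
      have h1 : w.support.card ≤ 14 := by
        have h2 := Finset.card_le_univ w.support
        rwa [Fintype.card_fin] at h2
      omega
  have hcy := hc1 y.1 hyo
  have hcy13 := hc1 y13 orderOf_y13
  have hconj : IsConj y13 y.1 := by
    apply hcy13.isConj hcy
    rw [← hcy13.orderOf, ← hcy.orderOf, orderOf_y13, hyo]
  obtain ⟨c, hc⟩ := isConj_iff.1 hconj
  set H' := H.map (MulAut.conj c⁻¹).toMonoidHom with hH'
  have hm : ∀ g : Perm Om, g ∈ H' ↔ c * g * c⁻¹ ∈ H := by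
    intro g
    rw [hH', Subgroup.mem_map]
    constructor
    · rintro ⟨x, hx, rfl⟩
      have h1 : c * ((MulAut.conj c⁻¹).toMonoidHom x) * c⁻¹ = x := by
        show c * (c⁻¹ * x * c⁻¹⁻¹) * c⁻¹ = x
        group
      rw [h1]
      exact hx
    · intro hx
      refine ⟨_, hx, ?_⟩
      show c⁻¹ * (c * g * c⁻¹) * c⁻¹⁻¹ = g
      group
  have hcard : Nat.card H' = Nat.card H :=
    (Nat.card_congr ((MulAut.conj c⁻¹).subgroupMap H).toEquiv).symm
  have hT' : TwoTrans H' := by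
    intro a b a' b' h1 h2
    obtain ⟨h, hh, h3, h4⟩ := hT (c a) (c b) (c a') (c b') (fun e => h1 (c.injective e))
      (fun e => h2 (c.injective e))
    refine ⟨c⁻¹ * h * c, ?_, ?_, ?_⟩
    · rw [hm]
      have h5 : c * (c⁻¹ * h * c) * c⁻¹ = h := by group
      rw [h5]
      exact hh
    · rw [Perm.mul_apply, Perm.mul_apply, h3, inv_app]
    · rw [Perm.mul_apply, Perm.mul_apply, h4, inv_app]
  have hA' : H' ≤ Alt := by
    intro g hg
    have h1 := Equiv.Perm.mem_alternatingGroup.1 (hA ((hm g).1 hg))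
    apply Equiv.Perm.mem_alternatingGroup.2
    rw [map_mul, map_mul, map_inv, mul_right_comm, mul_inv_cancel, one_mul] at h1
    exact h1
  have hy' : y13 ∈ H' := by
    rw [hm, hc]
    exact y.2
  have := core H' hT' hA' hy'
  rw [hcard] at this
  exact this

end Pool.Agent.H330.A14
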