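import Pool.Agent.H330.A14.Spec

/-!
# TRANS: a group containing `s0` without the invariant partition is transitive
-/

namespace Pool.Agent.H330.A14

open Equiv

namespace TRANS

theorem pow_s0 : ∀ a b : Om, side a = side b → ∃ k : Fin 7, (s0 ^ k.val) a = b := by
  decide +kernel

theorem same {H : Subgroup (Perm Om)} (hs : s0 ∈ H) (a b : Om) (h : side a = side b) :
    ∃ g ∈ H, g a = b := by
  obtain ⟨k, hk⟩ := pow_s0 a b h
  exact ⟨s0 ^ k.val, H.pow_mem hs _, hk⟩

end TRANS

theorem h_TRANS : S_TRANS := by
  intro H hs hP
  have h1 : ∃ h ∈ H, ∃ a, side (h a) ≠ side a := by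
    by_contra hcon
    apply hP
    intro h hh
    refine ⟨false, fun a => ?_⟩
    rw [Bool.xor_false]
    by_contra hne
    exact hcon ⟨h, hh, a, hne⟩
  obtain ⟨h, hh, a, ha⟩ := h1
  intro x y
  by_cases hxy : side x = side y
  · exact TRANS.same hs x y hxy
  · by_cases hxa : side x = side a
    · obtain ⟨g, hg, hgx⟩ := TRANS.same hs x a hxa
      obtain ⟨k, hk, hky⟩ := TRANS.same hs (h a) y (by
        revert hxy hxa ha
        generalize side (h a) = b1
        generalize side a = b2
        generalize side x = b3
        generalize side y = b4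
        revert b1 b2 b3 b4
        decide)
      refine ⟨k * (h * g), H.mul_mem hk (H.mul_mem hh hg), ?_⟩
      rw [Perm.mul_apply, Perm.mul_apply, hgx, hky]
    · obtain ⟨g, hg, hgx⟩ := TRANS.same hs x (h a) (by
        revert hxa ha
        generalize side (h a) = b1
        generalize side a = b2
        generalize side x = b3
        revert b1 b2 b3
        decide)
      obtain ⟨k, hk, hky⟩ := TRANS.same hs a y (by
        revert hxy hxa
        generalize side a = b2
        generalize side x = b3
        generalize side y = b4
        revert b2 b3 b4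
        decide)
      refine ⟨k * (h⁻¹ * g), H.mul_mem hk (H.mul_mem (H.inv_mem hh) hg), ?_⟩
      have hi : h⁻¹ (h a) = a := h.symm_apply_apply a
      rw [Perm.mul_apply, Perm.mul_apply, hgx, hi, hky]

end Pool.Agent.H330.A14
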