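import Pool.Agent.H330.A14.Spec

/-!
# Project A14 (helper330), task TWO (helper161)
-/

namespace Pool.Agent.H330.A14

open Equiv

namespace TWO

/-- a transitive group of permutations of the 14 points has even order -/
theorem even_card (H : Subgroup (Perm Om)) (hT : Trans H) : 2 ∣ Nat.card H := by
  have h1 : MulAction.orbit H (0 : Om) = Set.univ := by
    refine Set.eq_univ_of_forall fun b => ?_
    obtain ⟨h, hh, e⟩ := hT 0 b
    exact ⟨⟨h, hh⟩, e⟩
  have h2 : (MulAction.stabilizer H (0 : Om)).index = 14 := by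
    rw [MulAction.index_stabilizer, h1, Set.ncard_univ, Nat.card_eq_fintype_card, Fintype.card_fin]
  have h3 := (MulAction.stabilizer H (0 : Om)).index_dvd_card
  rw [h2] at h3
  exact Dvd.dvd.trans ⟨7, rfl⟩ h3

/-- an involution moving a point -/
theorem exists_inv (H : Subgroup (Perm Om)) (hT : Trans H) :
    ∃ t ∈ H, ∃ x : Om, t x ≠ x ∧ t (t x) = x := by
  have : Fact (Nat.Prime 2) := ⟨Nat.prime_two⟩
  obtain ⟨t, ht⟩ := exists_prime_orderOf_dvd_card' (G := H) 2 (even_card H hT)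
  have h2 : (t : Perm Om) ^ 2 = 1 := by
    have := pow_orderOf_eq_one t
    rw [ht] at this
    rw [← Subgroup.coe_pow, this, Subgroup.coe_one]
  have h1 : (t : Perm Om) ≠ 1 := by
    intro h
    have : t = 1 := Subtype.ext h
    rw [this, orderOf_one] at ht
    exact absurd ht (by decide)
  obtain ⟨x, hx⟩ : ∃ x, (t : Perm Om) x ≠ x := by
    by_contra hcon
    push Not at hcon
    exact h1 (Equiv.ext hcon)
  refine ⟨t, t.2, x, hx, ?_⟩
  have h3 : ((t : Perm Om) ^ 2) x = x := by rw [h2, Perm.one_apply]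
  rwa [pow_two, Perm.mul_apply] at h3

end TWO

/-- TWO -/
theorem h_TWO (hG : S_GRAPH) : S_TWO := by
  intro H hs hT hP hTa
  obtain ⟨t, ht, x, hx, htt⟩ := TWO.exists_inv H hT
  have key := hG H hs hT hP hTa
    (fun a b => ∃ h ∈ H, (h x = a ∧ h (t x) = b) ∨ (h x = b ∧ h (t x) = a)) ?_ ?_ ?_
  · have main : ∀ a b, a ≠ b → ∃ h ∈ H, h x = a ∧ h (t x) = b := by
      intro a b hab
      obtain ⟨h, hh, e | e⟩ := key a b hab
      · exact ⟨h, hh, e⟩
      · refine ⟨h * t, H.mul_mem hh ht, ?_, ?_⟩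
        · rw [Perm.mul_apply]
          exact e.2
        · rw [Perm.mul_apply, htt]
          exact e.1
    intro a b c d hab hcd
    obtain ⟨h1, hh1, e1, e2⟩ := main a b hab
    obtain ⟨h2, hh2, e3, e4⟩ := main c d hcd
    refine ⟨h2 * h1⁻¹, H.mul_mem hh2 (H.inv_mem hh1), ?_, ?_⟩
    · have e5 : h1⁻¹ a = x := by
        rw [← e1]
        exact h1.symm_apply_apply x
      rw [Perm.mul_apply, e5]
      exact e3
    · have e5 : h1⁻¹ b = t x := by
        rw [← e2]
        exact h1.symm_apply_apply (t x)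
      rw [Perm.mul_apply, e5]
      exact e4
  · rintro a b ⟨h, hh, e | e⟩
    · exact ⟨h, hh, Or.inr e⟩
    · exact ⟨h, hh, Or.inl e⟩
  · rintro g hg a b ⟨h, hh, e | e⟩
    · exact ⟨g * h, H.mul_mem hg hh, Or.inl ⟨by rw [Perm.mul_apply, e.1], by rw [Perm.mul_apply, e.2]⟩⟩
    · exact ⟨g * h, H.mul_mem hg hh, Or.inr ⟨by rw [Perm.mul_apply, e.1], by rw [Perm.mul_apply, e.2]⟩⟩
  · exact ⟨x, t x, hx.symm, 1, H.one_mem, Or.inl ⟨rfl, rfl⟩⟩

end Pool.Agent.H330.A14
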